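import Mathlib
import Pool.Agent.Q1.Rigid
import Pool.Agent.Q1.Freeze

set_option autoImplicit false
open Finset

/-! Toggling one random label does not change the turning index at the corners which stay on the
path; chains and monotone chains of configurations. -/

namespace Pool.Agent.H75.Perc

variable {α : Type*}

/-- Splitting: the corners of the shorter loop have the same index on the longer one. -/
lemma Swapped.split_idx {f f' : α → α} {p q : α} (h : Swapped f f' p q) {δ δ' : α → ℤ}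
    (hδ : ∀ x, x ≠ p → x ≠ q → δ' x = δ x)
    {c : α} {L L' : ℕ} (k0 : ℤ) (hO : Orb f c L) (hO' : Orb f' c L') {a b : ℕ} (hab : a < b)
    (hbL : b < L) (ha : f^[a] c = p) (hb : f^[b] c = q)
    (hT : KK f δ c k0 L = KK f' δ' c k0 L') :
    ∀ j < L', ∃ i < L, f^[i] c = f'^[j] c ∧ KK f δ c k0 i = KK f' δ' c k0 j := by
  obtain ⟨h1, h2, h3⟩ := h.split hO hab hbL ha hb
  have hL' : L' = L - (b - a) := hO'.unique h3
  have k1 : ∀ i ≤ a, KK f' δ' c k0 i = KK f δ c k0 i := by
    intro i
    induction i with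
    | zero => intro _; simp [KK]
    | succ i ih =>
      intro hi
      rw [KK_succ, KK_succ, ih (by omega), h1 i (by omega)]
      congr 1
      apply hδ
      · rw [← ha]; exact hO.inj i a (by omega) (by omega)
      · rw [← hb]; exact hO.inj i b (by omega) hbL
  have k2 : ∀ j, j ≤ L - 1 - b → KK f' δ' c k0 (a + 1 + j) - KK f' δ' c k0 (a + 1)
      = KK f δ c k0 (b + 1 + j) - KK f δ c k0 (b + 1) := by
    intro j
    induction j with
    | zero => intro _; simp
    | succ j ih =>
      intro hj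
      have e1 : a + 1 + (j + 1) = (a + 1 + j) + 1 := by ring
      have e2 : b + 1 + (j + 1) = (b + 1 + j) + 1 := by ring
      rw [e1, e2, KK_succ f' δ' c k0 (a + 1 + j), KK_succ f δ c k0 (b + 1 + j), h2 j (by omega)]
      have := ih (by omega)
      have e3 : δ' (f^[b + 1 + j] c) = δ (f^[b + 1 + j] c) := by
        apply hδ
        · rw [← ha]; exact (hO.inj a (b + 1 + j) (by omega) (by omega)).symm
        · rw [← hb]; exact (hO.inj b (b + 1 + j) (by omega) (by omega)).symm
      rw [e3]; linarith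
  have k3 := k2 (L - 1 - b) le_rfl
  have e1 : a + 1 + (L - 1 - b) = L' := by omega
  have e2 : b + 1 + (L - 1 - b) = L := by omega
  rw [e1, e2] at k3
  intro j hj
  by_cases hja : j ≤ a
  · exact ⟨j, by omega, (h1 j hja).symm, (k1 j hja).symm⟩
  · refine ⟨b + 1 + (j - a - 1), by omega, ?_, ?_⟩
    · have := h2 (j - a - 1) (by omega)
      have e : a + 1 + (j - a - 1) = j := by omega
      rw [e] at this
      exact this.symm
    · have := k2 (j - a - 1) (by omega)
      have e : a + 1 + (j - a - 1) = j := by omega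
      rw [e] at this
      linarith

/-- **The index does not change under an exchange of two values**, at the points which are on both
loops, if the total turning is the same. -/
theorem Swapped.same_idx {f f' : α → α} {p q : α} (h : Swapped f f' p q) (hpq : p ≠ q)
    {δ δ' : α → ℤ} (hδ : ∀ x, x ≠ p → x ≠ q → δ' x = δ x) {c : α} {L L' Mp Mq : ℕ} (k0 : ℤ)
    (hO : Orb f c L) (hO' : Orb f' c L') (hMp : Orb f p Mp) (hMq : Orb f q Mq)
    (hT : KK f δ c k0 L = KK f' δ' c k0 L') {i j : ℕ} (hi : i < L) (hj : j < L')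
    (hx : f^[i] c = f'^[j] c) : KK f δ c k0 i = KK f' δ' c k0 j := by
  have uniq : ∀ {g : α → α} {N : ℕ}, Orb g c N → ∀ {i j : ℕ}, i < N → j < N →
      g^[i] c = g^[j] c → i = j := by
    intro g N hg i j hi hj h
    rcases lt_trichotomy i j with h1 | h1 | h1
    · exact absurd h (hg.inj i j h1 hj)
    · exact h1
    · exact absurd h.symm (hg.inj j i h1 hi)
  -- both on the orbit of f
  have main : ∀ (f f' : α → α) (δ δ' : α → ℤ) (L L' : ℕ), Swapped f f' p q →
      (∀ x, x ≠ p → x ≠ q → δ' x = δ x) → Orb f c L → Orb f' c L' →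
      KK f δ c k0 L = KK f' δ' c k0 L' → InOrb f c p → InOrb f c q → ∀ i j, i < L → j < L' →
      f^[i] c = f'^[j] c → KK f δ c k0 i = KK f' δ' c k0 j := by
    intro f f' δ δ' L L' h hδ hO hO' hT hp hq i j hi hj hx
    obtain ⟨a, haL, ha⟩ := (hO.inOrb_iff p).1 hp
    obtain ⟨b, hbL, hb⟩ := (hO.inOrb_iff q).1 hq
    rcases lt_trichotomy a b with hlt | heq | hgt
    · obtain ⟨i', hi', e1, e2⟩ := h.split_idx hδ k0 hO hO' hlt hbL ha hb hT j hj
      rw [← e2, uniq hO hi hi' (hx.trans e1.symm)]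
    · subst heq; exact absurd (ha.symm.trans hb) hpq
    · obtain ⟨i', hi', e1, e2⟩ := h.comm.split_idx (fun x h1 h2 => hδ x h2 h1) k0 hO hO' hgt haL
        hb ha hT j hj
      rw [← e2, uniq hO hi hi' (hx.trans e1.symm)]
  by_cases hp : InOrb f c p <;> by_cases hq : InOrb f c q
  · exact main f f' δ δ' L L' h hδ hO hO' hT hp hq i j hi hj hx
  · obtain ⟨m1, m2, -, -⟩ := h.merge hO hMq hp hq
    exact (main f' f δ' δ L' L h.symm (fun x h1 h2 => (hδ x h1 h2).symm) hO' hO hT.symm m1 m2 j i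
      hj hi hx.symm).symm
  · obtain ⟨m1, m2, -, -⟩ := h.comm.merge hO hMp hq hp
    exact (main f' f δ' δ L' L h.symm (fun x h1 h2 => (hδ x h1 h2).symm) hO' hO hT.symm m2 m1 j i
      hj hi hx.symm).symm
  · have hag : ∀ i, f'^[i] c = f^[i] c := by
      intro i
      exact h.agree c i (fun j _ => ⟨fun e => hp ⟨j, e⟩, fun e => hq ⟨j, e⟩⟩) i le_rfl
    have hL : L' = L := by
      refine hO'.unique ⟨hO.pos, by rw [hag]; exact hO.per, fun i j hij hj => ?_⟩
      rw [hag, hag]; exact hO.inj i j hij hj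
    subst hL
    have e : i = j := uniq hO hi hj (by rw [hx, hag])
    subst e
    have : ∀ n, KK f δ c k0 n = KK f' δ' c k0 n := by
      intro n
      induction n with
      | zero => simp [KK]
      | succ n ih =>
        rw [KK_succ, KK_succ, ih, hag, hδ]
        · exact fun e => hp ⟨n, e⟩
        · exact fun e => hq ⟨n, e⟩
    exact this i

end Pool.Agent.H75.Perc

namespace Pool.Agent.Q1

open Pool.Agent.H75.Perc Pool.Agent.H75.TwoArm

namespace Env

variable {X : Env}

/-- The corner `c` has the same turning index in the configurations `ω` and `ω'` (if it is on both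
paths). -/
def SameK (X : Env) (ω ω' : Finset (ℤ × ℤ)) (c : ℤ × ℤ) : Prop :=
  ∀ i j, i < X.len ω → j < X.len ω' → X.z ω i = c → X.z ω' j = c → X.K ω i = X.K ω' j

lemma SameK.symm {ω ω' : Finset (ℤ × ℤ)} {c : ℤ × ℤ} (h : X.SameK ω ω' c) : X.SameK ω' ω c :=
  fun i j hi hj h1 h2 => (h j i hj hi h2 h1).symm

lemma SameK.refl {ω : Finset (ℤ × ℤ)} (hω : ω ⊆ X.E) (c : ℤ × ℤ) : X.SameK ω ω c :=
  fun i j hi hj h1 h2 => by rw [z_inj hω hi hj (h1.trans h2.symm)]

lemma SameK.trans {ω ω' ω'' : Finset (ℤ × ℤ)} {c : ℤ × ℤ} (h : X.SameK ω ω' c)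
    (h' : X.SameK ω' ω'' c) (hon : X.On ω' c) : X.SameK ω ω'' c := by
  obtain ⟨k, hk, hkc⟩ := hon
  exact fun i j hi hj h1 h2 => (h i k hi hk h1 hkc).trans (h' k j hk hj hkc h2)

/-- **Toggle lemma.** -/
theorem toggle {ω : Finset (ℤ × ℤ)} (hω : ω ⊆ X.E) {e : ℤ × ℤ} (he : e ∈ X.E) (c : ℤ × ℤ) :
    X.SameK ω (insert e ω) c := by
  by_cases hn : e ∈ ω
  · rw [insert_eq_of_mem hn]; exact SameK.refl hω c
  have ho := X.odd e he
  have hω' : insert e ω ⊆ X.E := insert_subset he hω
  have l1 : lab (in1 e) ∈ X.E := by rw [lab_in1 e ho]; exact he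
  have l2 : lab (in2 e) ∈ X.E := by rw [lab_in2 e ho]; exact he
  obtain ⟨Mp, hMp⟩ := orb_ex hω (X.in_mem _ l1)
  obtain ⟨Mq, hMq⟩ := orb_ex hω (X.in_mem _ l2)
  intro i j hi hj h1 h2
  exact (swapped he hn).same_idx (in1_ne_in2 e) (d_off he) X.k0 (orb hω) (orb hω') hMp hMq
    ((K_len hω).trans (K_len hω').symm) hi hj (h1.trans h2.symm)

/-- Chain between two configurations with the corner on all intermediate paths. -/
theorem sameK_between {ω ω' : Finset (ℤ × ℤ)} (hω' : ω' ⊆ X.E) (hsub : ω ⊆ ω') {c : ℤ × ℤ}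
    (hon : ∀ η, ω ⊆ η → η ⊆ ω' → X.On η c) : X.SameK ω ω' c := by
  classical
  have key : ∀ A : Finset (ℤ × ℤ), A ⊆ ω' → X.SameK ω (ω ∪ A) c := by
    intro A
    induction A using Finset.induction_on with
    | empty => intro _; rw [union_empty]; exact SameK.refl (hsub.trans hω') c
    | insert e A _ ih =>
      intro hA
      have hA' : A ⊆ ω' := (subset_insert _ _).trans hA
      have he : e ∈ ω' := hA (mem_insert_self _ _)
      have h1 : ω ∪ A ⊆ ω' := union_subset hsub hA'
      rw [union_insert]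
      exact (ih hA').trans (toggle (h1.trans hω') (hω' he) c) (hon _ subset_union_left h1)
  have := key ω' subset_rfl
  rwa [union_eq_right.2 hsub] at this

/-- **Monotone chains.** If being on the path is the conjunction of an increasing and a decreasing
event, the index is the same in two comparable configurations. -/
theorem sameK_mono {c : ℤ × ℤ} {A B : Finset (ℤ × ℤ) → Prop}
    (hon : ∀ ω ⊆ X.E, (X.On ω c ↔ A ω ∧ B ω))
    (hA : ∀ ω ω', ω ⊆ ω' → A ω → A ω') (hB : ∀ ω ω', ω ⊆ ω' → B ω' → B ω)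
    {ω ω' : Finset (ℤ × ℤ)} (hω' : ω' ⊆ X.E) (hsub : ω ⊆ ω') (h1 : X.On ω c) (h2 : X.On ω' c) :
    X.SameK ω ω' c := by
  apply sameK_between hω' hsub
  intro η g1 g2
  rw [hon η (g2.trans hω')]
  exact ⟨hA _ _ g1 ((hon ω (hsub.trans hω')).1 h1).1, hB _ _ g2 ((hon ω' hω').1 h2).2⟩

end Env

end Pool.Agent.Q1
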