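import Mathlib
import Pool.Agent.Q1.M6c.Toggle
import Pool.Agent.Q1.M4.Vis
import Pool.Agent.H69.Q1.Orbit

set_option autoImplicit false
open Finset

/-! Comparison of the primitives of two environments on a box: conditioning on the coins outside the
box; flattening (forcing of labels) with a good event on which the paths inside the box and their
indices agree. -/

namespace Pool.Agent.Q1

open Pool.Agent.H75.Perc Pool.Agent.H75.TwoArm Pool.Agent.H99.NC Pool.Agent.H69.Q1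

/-- Expectations of functions which depend only on the labels in `E1`. -/
lemma Ec_local {E E1 : Finset (ℤ × ℤ)} (q : ℤ × ℤ → ℂ) (h : E1 ⊆ E)
    (F : Finset (ℤ × ℤ) → ℂ) : Ec q E (fun ω => F (ω ∩ E1)) = Ec q E1 F := by
  rw [Ec_split q h]
  refine Ec_congr fun ω1 hω1 => ?_
  rw [Ec_congr (G := fun _ => F ω1), Ec_const]
  intro ω2 hω2
  congr 1
  ext e
  rw [mem_inter, mem_union]
  constructor
  · rintro ⟨h1 | h1, h2⟩
    · exact h1
    · exact absurd h2 (mem_sdiff.1 (hω2 h1)).2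
  · exact fun h1 => ⟨Or.inl h1, hω1 h1⟩

namespace Env

/-- **Averaging**: differences of the primitive are averages of the differences of arbitrary
primitives of the frozen environments. -/
theorem diff_avg (X : Env) {a b c d : ℤ} {Hv Hf : ℤ × ℤ → ℂ}
    (hP : X.Prim a b c d Hv Hf) {u v : ℤ × ℤ} (hu : inB a b c d u) (hv : inB a b c d v)
    {H Hf' : Finset (ℤ × ℤ) → ℤ × ℤ → ℂ}
    (hH : ∀ ω1 ⊆ X.E \ Bx a b c d, (X.freeze (Bx a b c d) ω1).Prim a b c d (H ω1) (Hf' ω1)) :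
    Hv u - Hv v = Ec (fun _ => (1 / 2 : ℂ)) (X.E \ Bx a b c d) (fun ω1 => H ω1 u - H ω1 v) := by
  classical
  set E1 := X.E \ Bx a b c d with hE1
  have hconst : ∀ w w', inB a b c d w → inB a b c d w' →
      Hv w - Ec (fun _ => (1 / 2 : ℂ)) E1 (fun ω1 => H ω1 w) =
      Hv w' - Ec (fun _ => (1 / 2 : ℂ)) E1 (fun ω1 => H ω1 w') := by
    intro w w' hw hw'
    refine const_on_rect (Δ := fun w => Hv w - Ec (fun _ => (1 / 2 : ℂ)) E1
      (fun ω1 => H ω1 w)) ?_ ?_ hw hw'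
    · intro x y h1 h2 h3 h4
      have k1 := hP.hor h1 h2 h3 h4
      have k2 : Ec (fun _ => (1 / 2 : ℂ)) E1 (fun ω1 => H ω1 (x + 1, y)) -
          Ec (fun _ => (1 / 2 : ℂ)) E1 (fun ω1 => H ω1 (x, y)) =
          X.inc (2 * x + 2, 2 * y) - X.inc (2 * x + 1, 2 * y) := by
        rw [← Ec_sub, X.inc_freeze (Bx a b c d), X.inc_freeze (Bx a b c d), ← Ec_sub]
        exact Ec_congr fun ω1 hω1 => (hH ω1 hω1).hor h1 h2 h3 h4
      linear_combination k1 - k2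
    · intro x y h1 h2 h3 h4
      have k1 := hP.ver h1 h2 h3 h4
      have k2 : Ec (fun _ => (1 / 2 : ℂ)) E1 (fun ω1 => H ω1 (x, y + 1)) -
          Ec (fun _ => (1 / 2 : ℂ)) E1 (fun ω1 => H ω1 (x, y)) =
          X.inc (2 * x, 2 * y + 2) - X.inc (2 * x, 2 * y + 1) := by
        rw [← Ec_sub, X.inc_freeze (Bx a b c d), X.inc_freeze (Bx a b c d), ← Ec_sub]
        exact Ec_congr fun ω1 hω1 => (hH ω1 hω1).ver h1 h2 h3 h4
      linear_combination k1 - k2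
  rw [Ec_sub]
  linear_combination hconst u v hu hv

/-- the corners whose increments matter for the differences of the primitive on the vertices -/
def InBx (a b c d : ℤ) (z : ℤ × ℤ) : Prop :=
  inB a b c d (vx z) ∧ (lab z ∈ Bx a b c d ∨ plab z ∈ Bx a b c d)

lemma inBx_h1 {a b c d x y : ℤ} (h1 : a ≤ x) (h2 : x + 1 ≤ b) (h3 : c ≤ y) (h4 : y ≤ d) :
    InBx a b c d (2 * x + 1, 2 * y) := by
  refine ⟨by unfold inB vx; simp only; omega, Or.inl ?_⟩
  have e : lab (2 * x + 1, 2 * y) = (2 * x + 1, 2 * y) := by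
    unfold lab; simp only; rw [if_pos (by omega), if_neg (by omega)]
  rw [e, mem_Bx]; simp only; omega

lemma inBx_h2 {a b c d x y : ℤ} (h1 : a ≤ x) (h2 : x + 1 ≤ b) (h3 : c ≤ y) (h4 : y ≤ d) :
    InBx a b c d (2 * x + 2, 2 * y) := by
  refine ⟨by unfold inB vx; simp only; omega, Or.inr ?_⟩
  have e : plab (2 * x + 2, 2 * y) = (2 * x + 2 - 1, 2 * y) := by
    unfold plab; simp only; rw [if_pos (by omega), if_pos (by omega)]
  rw [e, mem_Bx]; simp only; omega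

lemma inBx_v1 {a b c d x y : ℤ} (h1 : a ≤ x) (h2 : x ≤ b) (h3 : c ≤ y) (h4 : y + 1 ≤ d) :
    InBx a b c d (2 * x, 2 * y + 2) := by
  refine ⟨by unfold inB vx; simp only; omega, Or.inl ?_⟩
  have e : lab (2 * x, 2 * y + 2) = (2 * x, 2 * y + 2 - 1) := by
    unfold lab; simp only; rw [if_pos (by omega), if_pos (by omega)]
  rw [e, mem_Bx]; simp only; omega

lemma inBx_v2 {a b c d x y : ℤ} (h1 : a ≤ x) (h2 : x ≤ b) (h3 : c ≤ y) (h4 : y + 1 ≤ d) :
    InBx a b c d (2 * x, 2 * y + 1) := by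
  refine ⟨by unfold inB vx; simp only; omega, Or.inr ?_⟩
  have e : plab (2 * x, 2 * y + 1) = (2 * x, 2 * y + 1) := by
    unfold plab; simp only; rw [if_neg (by omega), if_pos (by omega)]
  rw [e, mem_Bx]; simp only; omega

/-- proportional increments give proportional differences -/
lemma diff_prop {X Z : Env} {a b c d : ℤ} {Hv Hf Gv Gf : ℤ × ℤ → ℂ} (hH : X.Prim a b c d Hv Hf)
    (hG : Z.Prim a b c d Gv Gf) {ζ : ℂ} (h : ∀ z, InBx a b c d z → Z.inc z = ζ * X.inc z)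
    {u v : ℤ × ℤ} (hu : inB a b c d u) (hv : inB a b c d v) :
    Gv u - Gv v = ζ * (Hv u - Hv v) := by
  have key : Gv u - ζ * Hv u = Gv v - ζ * Hv v := by
    refine const_on_rect (Δ := fun w => Gv w - ζ * Hv w) ?_ ?_ hu hv
    · intro x y h1 h2 h3 h4
      have k1 := hH.hor h1 h2 h3 h4
      have k2 := hG.hor h1 h2 h3 h4
      rw [h _ (inBx_h2 h1 h2 h3 h4), h _ (inBx_h1 h1 h2 h3 h4)] at k2
      linear_combination k2 - ζ * k1
    · intro x y h1 h2 h3 h4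
      have k1 := hH.ver h1 h2 h3 h4
      have k2 := hG.ver h1 h2 h3 h4
      rw [h _ (inBx_v1 h1 h2 h3 h4), h _ (inBx_v2 h1 h2 h3 h4)] at k2
      linear_combination k2 - ζ * k1
  linear_combination key

/-- **Comparison theorem.** Two environments on a box, coins outside the box coupled through a common
space `E1` of coins; on the good event the frozen increments are proportional with a fixed factor. -/
theorem compare {X Z : Env} {a b c d : ℤ} (hX : Bx a b c d ⊆ X.E) (hZ : Bx a b c d ⊆ Z.E)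
    {Hv Hf Gv Gf : ℤ × ℤ → ℂ} (hH : X.Prim a b c d Hv Hf) (hG : Z.Prim a b c d Gv Gf)
    {u v : ℤ × ℤ} (hu : inB a b c d u) (hv : inB a b c d v)
    {E1 : Finset (ℤ × ℤ)} {r s : Finset (ℤ × ℤ) → Finset (ℤ × ℤ)}
    (hr : ∀ ω ⊆ E1, r ω ⊆ X.E \ Bx a b c d) (hs : ∀ ω ⊆ E1, s ω ⊆ Z.E \ Bx a b c d)
    (avr : ∀ F : Finset (ℤ × ℤ) → ℂ, Ec (fun _ => (1 / 2 : ℂ)) (X.E \ Bx a b c d) F =
      Ec (fun _ => (1 / 2 : ℂ)) E1 (fun ω => F (r ω)))
    (avs : ∀ F : Finset (ℤ × ℤ) → ℂ, Ec (fun _ => (1 / 2 : ℂ)) (Z.E \ Bx a b c d) F =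
      Ec (fun _ => (1 / 2 : ℂ)) E1 (fun ω => F (s ω)))
    {ζ : ℂ} (hζ : ‖ζ‖ = 1) {Bad : Finset (ℤ × ℤ) → Prop}
    (hgood : ∀ ω ⊆ E1, ¬ Bad ω → ∀ z, InBx a b c d z →
      (Z.freeze (Bx a b c d) (s ω)).inc z = ζ * (X.freeze (Bx a b c d) (r ω)).inc z)
    {M : ℝ}
    (hMX : ∀ ω1 ⊆ X.E \ Bx a b c d, ∀ Hv' Hf', (X.freeze (Bx a b c d) ω1).Prim a b c d Hv' Hf' →
      ‖Hv' u - Hv' v‖ ≤ M)
    (hMZ : ∀ ω1 ⊆ Z.E \ Bx a b c d, ∀ Hv' Hf', (Z.freeze (Bx a b c d) ω1).Prim a b c d Hv' Hf' →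
      ‖Hv' u - Hv' v‖ ≤ M) :
    ‖(Gv u - Gv v) - ζ * (Hv u - Hv v)‖ ≤ 2 * M * PrP (fun _ => 1 / 2) E1 Bad := by
  classical
  have hexX : ∀ ω1, ∃ H : (ℤ × ℤ → ℂ) × (ℤ × ℤ → ℂ),
      (X.freeze (Bx a b c d) ω1).Prim a b c d H.1 H.2 := by
    intro ω1
    obtain ⟨Hv', Hf', h⟩ := (X.freeze (Bx a b c d) ω1).exists_prim (a := a) (b := b) (c := c)
      (d := d) (by rw [freeze_E]; exact subset_inter hX (Subset.refl _))
    exact ⟨(Hv', Hf'), h⟩
  have hexZ : ∀ ω1, ∃ H : (ℤ × ℤ → ℂ) × (ℤ × ℤ → ℂ),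
      (Z.freeze (Bx a b c d) ω1).Prim a b c d H.1 H.2 := by
    intro ω1
    obtain ⟨Hv', Hf', h⟩ := (Z.freeze (Bx a b c d) ω1).exists_prim (a := a) (b := b) (c := c)
      (d := d) (by rw [freeze_E]; exact subset_inter hZ (Subset.refl _))
    exact ⟨(Hv', Hf'), h⟩
  choose HX hHX using hexX
  choose HZ hHZ using hexZ
  have d1 := X.diff_avg hH hu hv (H := fun ω => (HX ω).1) (Hf' := fun ω => (HX ω).2)
    (fun ω _ => hHX ω)
  have d2 := Z.diff_avg hG hu hv (H := fun ω => (HZ ω).1) (Hf' := fun ω => (HZ ω).2)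
    (fun ω _ => hHZ ω)
  rw [avr] at d1
  rw [avs] at d2
  have e : (Gv u - Gv v) - ζ * (Hv u - Hv v) = Ec (fun _ => (1 / 2 : ℂ)) E1 (fun ω =>
      ((HZ (s ω)).1 u - (HZ (s ω)).1 v) - ζ * ((HX (r ω)).1 u - (HX (r ω)).1 v)) := by
    rw [Ec_sub, Ec_smul, d1, d2]
  rw [e]
  have hb : ∀ ω, ω ⊆ E1 → ‖((HZ (s ω)).1 u - (HZ (s ω)).1 v) -
      ζ * ((HX (r ω)).1 u - (HX (r ω)).1 v)‖ ≤ 2 * M * ind (Bad ω) := by
    intro ω hω
    by_cases hB : Bad ω
    · rw [ind_true hB, mul_one]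
      have k1 := hMX _ (hr ω hω) _ _ (hHX (r ω))
      have k2 := hMZ _ (hs ω hω) _ _ (hHZ (s ω))
      refine (norm_sub_le _ _).trans ?_
      rw [norm_mul, hζ, one_mul]
      linarith
    · rw [ind_false hB, mul_zero]
      have := diff_prop (hHX (r ω)) (hHZ (s ω)) (hgood ω hω hB) hu hv
      rw [this, sub_self, norm_zero]
  refine (Ec_half_norm hb).trans ?_
  rw [Ex_smul]
  exact le_of_eq rfl

end Env

end Pool.Agent.Q1
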