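import Mathlib
import Pool.Agent.Q1.M6c.Compare

set_option autoImplicit false
open Finset

/-! Flattening: some labels `F` outside a box are forced (`O` open, `F \ O` closed). On a good event on
which being on the path is unchanged along `ω, ω \ (F \ O), (ω \ F) ∪ O` the increments seen in the
box are equal, with the same phase. -/

namespace Pool.Agent.Q1

open Pool.Agent.H75.Perc Pool.Agent.H75.TwoArm Pool.Agent.H99.NC Pool.Agent.H69.Q1

namespace Env

variable {X : Env} {W F O : Finset (ℤ × ℤ)}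

/-- The paths of `X` are exploration paths in the plane with the additional open labels `W`. -/
def PlaneLike (X : Env) (W : Finset (ℤ × ℤ)) : Prop :=
  ∀ ω ⊆ X.E, ∀ i, X.z ω i = (nx (ω ∪ W))^[i] X.c0

/-- On the path: the vertex is in the cluster of the root, the face in its dual cluster. -/
lemma PlaneLike.on_iff (h : X.PlaneLike W) {ω : Finset (ℤ × ℤ)} (hω : ω ⊆ X.E) (c : ℤ × ℤ) :
    X.On ω c ↔ Co (ω ∪ W) (vx X.c0) (vx c) ∧
      Co (du (X.S.image lab) (ω ∪ W)) (fi X.c0) (fi c) := by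
  have hE : ∀ i, lab ((nx (ω ∪ W))^[i] X.c0) ∈ X.S.image lab := by
    intro i
    rw [← h ω hω i]
    exact mem_image_of_mem _ (z_mem hω i)
  rw [← inOrb_iff hE]
  constructor
  · rintro ⟨i, _, hi⟩
    exact ⟨i, by rw [← h ω hω i]; exact hi⟩
  · rintro ⟨i, hi⟩
    rw [← h ω hω i] at hi
    obtain ⟨j, hj, hij⟩ := ((orb hω).inOrb_iff c).1 ⟨i, hi⟩
    exact ⟨j, hj, hij⟩

/-- **In the plane the index is the same in two comparable configurations.** -/
theorem PlaneLike.sameK (h : X.PlaneLike W) {ω ω' : Finset (ℤ × ℤ)} (hω' : ω' ⊆ X.E)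
    (hsub : ω ⊆ ω') {c : ℤ × ℤ} (h1 : X.On ω c) (h2 : X.On ω' c) : X.SameK ω ω' c := by
  refine sameK_mono (A := fun ω => Co (ω ∪ W) (vx X.c0) (vx c))
    (B := fun ω => Co (du (X.S.image lab) (ω ∪ W)) (fi X.c0) (fi c))
    (fun ω hω => h.on_iff hω c) ?_ ?_ hω' hsub h1 h2
  · intro η η' hη hc
    exact hc.mono (union_subset_union_left hη)
  · intro η η' hη hc
    exact hc.mono (du_anti (union_subset_union_left hη))

/-- close the labels of `F \ O` -/
def mid (F O ω : Finset (ℤ × ℤ)) : Finset (ℤ × ℤ) := ω \ (F \ O)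

/-- force the labels of `F` -/
def flat (F O ω : Finset (ℤ × ℤ)) : Finset (ℤ × ℤ) := (ω \ F) ∪ O

lemma mid_sub (ω : Finset (ℤ × ℤ)) : mid F O ω ⊆ ω := sdiff_subset

lemma mid_sub_flat (ω : Finset (ℤ × ℤ)) : mid F O ω ⊆ flat F O ω := by
  intro e he
  unfold mid at he
  unfold flat
  rw [mem_sdiff, mem_sdiff] at he
  rw [mem_union, mem_sdiff]
  by_cases h : e ∈ F
  · right
    by_contra h2
    exact he.2 ⟨h, h2⟩
  · exact Or.inl ⟨he.1, h⟩

lemma flat_sub {E : Finset (ℤ × ℤ)} (hF : F ⊆ E) (hO : O ⊆ F) {ω : Finset (ℤ × ℤ)}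
    (hω : ω ⊆ E) : flat F O ω ⊆ E :=
  union_subset (sdiff_subset.trans hω) (hO.trans hF)

/-- **The good event**: for every configuration inside the box, being on the path is the same for the
three outer configurations `ω`, `mid ω`, `flat ω`. -/
def GoodFlat (X : Env) (a b c d : ℤ) (F O ω : Finset (ℤ × ℤ)) : Prop :=
  ∀ η ⊆ X.E ∩ Bx a b c d, ∀ z, InBx a b c d z →
    (X.On (η ∪ ω) z ↔ X.On (η ∪ mid F O ω) z) ∧
    (X.On (η ∪ mid F O ω) z ↔ X.On (η ∪ flat F O ω) z)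

lemma inter_sdiff_eq {ω E' : Finset (ℤ × ℤ)} (h : ω ⊆ X.E \ E') : ω ∩ (X.E \ E') = ω :=
  inter_eq_left.2 h

/-- Equal increments of frozen environments from equal path and equal index. -/
lemma freeze_inc_eq {E' ω1 ω2 : Finset (ℤ × ℤ)} (h1 : ω1 ⊆ X.E \ E') (h2 : ω2 ⊆ X.E \ E')
    {z : ℤ × ℤ} (h : ∀ η ⊆ X.E ∩ E', (X.On (η ∪ ω1) z ↔ X.On (η ∪ ω2) z) ∧
      (X.On (η ∪ ω1) z → X.SameK (η ∪ ω1) (η ∪ ω2) z)) :
    (X.freeze E' ω1).inc z = (X.freeze E' ω2).inc z := by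
  rw [inc_eq, inc_eq, freeze_E, freeze_E]
  refine Ec_congr fun η hη => ?_
  rw [freeze_incO hη, freeze_incO hη, inter_sdiff_eq h1, inter_sdiff_eq h2]
  have s1 : η ∪ ω1 ⊆ X.E := union_subset (hη.trans inter_subset_left) (h1.trans sdiff_subset)
  have s2 : η ∪ ω2 ⊆ X.E := union_subset (hη.trans inter_subset_left) (h2.trans sdiff_subset)
  obtain ⟨g1, g2⟩ := h η hη
  by_cases hon : X.On (η ∪ ω1) z
  · have hon2 := g1.1 hon
    have hK := g2 hon
    obtain ⟨i, hi, hzi⟩ := hon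
    obtain ⟨j, hj, hzj⟩ := hon2
    rw [incO_of s1 hi hzi, incO_of s2 hj hzj, hK i j hi hj hzi hzj]
  · rw [incO_of_not hon, incO_of_not (fun h' => hon (g1.2 h'))]

/-- **On the good event the increments are equal, with the same phase.** -/
theorem PlaneLike.inc_flat (h : X.PlaneLike W) {a b c d : ℤ} (hF : F ⊆ X.E \ Bx a b c d)
    (hO : O ⊆ F) {ω : Finset (ℤ × ℤ)} (hω : ω ⊆ X.E \ Bx a b c d)
    (hg : X.GoodFlat a b c d F O ω) {z : ℤ × ℤ} (hz : InBx a b c d z) :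
    (X.freeze (Bx a b c d) (flat F O ω)).inc z = (X.freeze (Bx a b c d) ω).inc z := by
  have hfl : flat F O ω ⊆ X.E \ Bx a b c d := flat_sub hF hO hω
  symm
  refine freeze_inc_eq hω hfl fun η hη => ?_
  obtain ⟨g1, g2⟩ := hg η hη z hz
  refine ⟨g1.trans g2, fun hon => ?_⟩
  have hηE : η ⊆ X.E := hη.trans inter_subset_left
  have m1 : η ∪ mid F O ω ⊆ η ∪ ω := union_subset_union_right (mid_sub ω)
  have m2 : η ∪ mid F O ω ⊆ η ∪ flat F O ω := union_subset_union_right (mid_sub_flat ω)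
  have s1 : η ∪ ω ⊆ X.E := union_subset hηE (hω.trans sdiff_subset)
  have s2 : η ∪ flat F O ω ⊆ X.E := union_subset hηE (hfl.trans sdiff_subset)
  have hm := g1.1 hon
  exact (h.sameK s1 m1 hm hon).symm.trans (h.sameK s2 m2 hm (g2.1 hm)) hm

/-- One comparable step: the two outer configurations are comparable, and being on the path is the
same at every corner of the box for every configuration inside the box. -/
def StepEq (X : Env) (a b c d : ℤ) (ω1 ω2 : Finset (ℤ × ℤ)) : Prop :=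
  ω1 ⊆ X.E \ Bx a b c d ∧ ω2 ⊆ X.E \ Bx a b c d ∧ (ω1 ⊆ ω2 ∨ ω2 ⊆ ω1) ∧
    ∀ η ⊆ X.E ∩ Bx a b c d, ∀ z, InBx a b c d z → (X.On (η ∪ ω1) z ↔ X.On (η ∪ ω2) z)

/-- **One comparable step does not change the increments.** -/
theorem PlaneLike.inc_step (h : X.PlaneLike W) {a b c d : ℤ} {ω1 ω2 : Finset (ℤ × ℤ)}
    (hs : X.StepEq a b c d ω1 ω2) {z : ℤ × ℤ} (hz : InBx a b c d z) :
    (X.freeze (Bx a b c d) ω1).inc z = (X.freeze (Bx a b c d) ω2).inc z := by
  obtain ⟨h1, h2, h3, h4⟩ := hs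
  refine freeze_inc_eq h1 h2 fun η hη => ⟨h4 η hη z hz, fun hon => ?_⟩
  have hηE : η ⊆ X.E := hη.trans inter_subset_left
  have s1 : η ∪ ω1 ⊆ X.E := union_subset hηE (h1.trans sdiff_subset)
  have s2 : η ∪ ω2 ⊆ X.E := union_subset hηE (h2.trans sdiff_subset)
  have hon2 := (h4 η hη z hz).1 hon
  rcases h3 with h3 | h3
  · exact h.sameK s2 (union_subset_union_right h3) hon hon2
  · exact (h.sameK s1 (union_subset_union_right h3) hon2 hon).symm

/-- A chain of comparable steps (in any order) does not change the increments. -/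
theorem PlaneLike.inc_chain (h : X.PlaneLike W) {a b c d : ℤ} {ω1 ω2 : Finset (ℤ × ℤ)}
    (hs : Relation.ReflTransGen (X.StepEq a b c d) ω1 ω2) {z : ℤ × ℤ} (hz : InBx a b c d z) :
    (X.freeze (Bx a b c d) ω1).inc z = (X.freeze (Bx a b c d) ω2).inc z := by
  induction hs with
  | refl => rfl
  | tail _ hst ih => exact ih.trans (h.inc_step hst hz)

/-- The flattened environment. -/
def flatten (X : Env) (F O : Finset (ℤ × ℤ)) : Env := X.freeze (X.E \ F) O

@[simp] lemma flatten_E : (X.flatten F O).E = X.E \ F := by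
  unfold flatten
  rw [freeze_E]
  exact inter_eq_right.2 sdiff_subset

lemma flatten_freeze_inc (hO : O ⊆ F) {E' : Finset (ℤ × ℤ)}
    (hFE : F ⊆ X.E \ E') {ω : Finset (ℤ × ℤ)} (hω : ω ⊆ (X.E \ F) \ E') (z : ℤ × ℤ) :
    ((X.flatten F O).freeze E' ω).inc z = (X.freeze E' (ω ∪ O)).inc z := by
  have e1 : (X.flatten F O).E ∩ E' = X.E ∩ E' := by
    rw [flatten_E]
    ext e
    simp only [mem_inter, mem_sdiff]
    constructor
    · rintro ⟨⟨h1, _⟩, h2⟩; exact ⟨h1, h2⟩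
    · rintro ⟨h1, h2⟩
      exact ⟨⟨h1, fun h3 => (mem_sdiff.1 (hFE h3)).2 h2⟩, h2⟩
  rw [inc_eq, inc_eq, freeze_E, freeze_E, e1]
  refine Ec_congr fun η hη => ?_
  have hη' : η ⊆ (X.flatten F O).E ∩ E' := by rw [e1]; exact hη
  rw [freeze_incO hη', freeze_incO hη]
  have hη2 : η ∪ ω ∩ ((X.flatten F O).E \ E') ⊆ X.E ∩ (X.E \ F) := by
    intro e he
    rw [mem_union, mem_inter, mem_sdiff, flatten_E] at he
    rw [mem_inter]
    rcases he with he | he
    · have := hη' he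
      rw [mem_inter, flatten_E] at this
      exact ⟨(mem_sdiff.1 this.1).1, this.1⟩
    · exact ⟨(mem_sdiff.1 he.2.1).1, he.2.1⟩
  unfold flatten at hη2 ⊢
  rw [freeze_incO hη2]
  congr 1
  ext e
  simp only [mem_union, mem_inter, mem_sdiff, freeze_E]
  constructor
  · rintro ((h1 | h1) | h1)
    · exact Or.inl h1
    · exact Or.inr ⟨Or.inl h1.1, h1.2.1.1, h1.2.2⟩
    · exact Or.inr ⟨Or.inr h1.1, h1.2.1, (mem_sdiff.1 (hFE (hO h1.1))).2⟩
  · rintro (h1 | ⟨h1 | h1, h2, h3⟩)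
    · exact Or.inl (Or.inl h1)
    · have h4 := hω h1
      rw [mem_sdiff, mem_sdiff] at h4
      exact Or.inl (Or.inr ⟨h1, ⟨h2, h4.1⟩, h3⟩)
    · refine Or.inr ⟨h1, h2, fun h4 => h4.2 (hO h1)⟩

/-- **Flattening theorem.** -/
theorem PlaneLike.compare (h : X.PlaneLike W) {a b c d : ℤ} (hX : Bx a b c d ⊆ X.E)
    (hF : F ⊆ X.E \ Bx a b c d) (hO : O ⊆ F)
    {Hv Hf Gv Gf : ℤ × ℤ → ℂ} (hH : X.Prim a b c d Hv Hf)
    (hG : (X.flatten F O).Prim a b c d Gv Gf)
    {u v : ℤ × ℤ} (hu : inB a b c d u) (hv : inB a b c d v) {M : ℝ}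
    (hM : ∀ ω1 ⊆ X.E \ Bx a b c d, ∀ Hv' Hf', (X.freeze (Bx a b c d) ω1).Prim a b c d Hv' Hf' →
      ‖Hv' u - Hv' v‖ ≤ M) :
    ‖(Gv u - Gv v) - (Hv u - Hv v)‖ ≤
      2 * M * PrP (fun _ => 1 / 2) (X.E \ Bx a b c d) (fun ω => ¬ X.GoodFlat a b c d F O ω) := by
  have hZ : Bx a b c d ⊆ (X.flatten F O).E := by
    rw [flatten_E]
    intro e he
    exact mem_sdiff.2 ⟨hX he, fun h3 => (mem_sdiff.1 (hF h3)).2 he⟩
  have e1 : (X.flatten F O).E \ Bx a b c d = (X.E \ Bx a b c d) \ F := by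
    rw [flatten_E]; ext e; simp only [mem_sdiff]; tauto
  have e2 : (X.E \ F) \ Bx a b c d = (X.E \ Bx a b c d) \ F := by
    ext e; simp only [mem_sdiff]; tauto
  have key := Env.compare (X := X) (Z := X.flatten F O) hX hZ hH hG hu hv
    (E1 := X.E \ Bx a b c d) (r := fun ω => ω) (s := fun ω => ω ∩ ((X.E \ Bx a b c d) \ F))
    (fun ω hω => hω) (fun ω hω => by rw [e1]; exact inter_subset_right) (fun F => rfl)
    (fun G => by rw [e1]; exact (Ec_local _ sdiff_subset G).symm) (ζ := 1) (by simp)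
    (Bad := fun ω => ¬ X.GoodFlat a b c d F O ω) ?_ hM ?_
  · simpa using key
  · intro ω hω hg z hz
    rw [not_not] at hg
    have hs : ω ∩ ((X.E \ Bx a b c d) \ F) ⊆ (X.E \ F) \ Bx a b c d := by
      rw [e2]; exact inter_subset_right
    have e3 : ω ∩ ((X.E \ Bx a b c d) \ F) ∪ O = flat F O ω := by
      unfold flat
      congr 1
      ext e
      simp only [mem_inter, mem_sdiff]
      constructor
      · rintro ⟨h1, h2⟩; exact ⟨h1, h2.2⟩
      · rintro ⟨h1, h2⟩; exact ⟨h1, mem_sdiff.1 (hω h1), h2⟩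
    rw [flatten_freeze_inc hO hF hs, e3, one_mul]
    exact h.inc_flat hF hO hω hg hz
  · intro ω1 hω1 Hv' Hf' hP
    rw [e1, ← e2] at hω1
    refine hM (ω1 ∪ O) (union_subset ?_ (hO.trans hF)) Hv' Hf' ?_
    · rw [e2] at hω1; exact hω1.trans sdiff_subset
    · intro e he z hz
      rw [hP e he z hz]
      exact flatten_freeze_inc hO hF hω1 z

/-- **Flattening theorem, chain form.** The good event: the outer configuration is joined to the
flattened one by a chain of comparable steps, in any order. -/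
theorem PlaneLike.compare_chain (h : X.PlaneLike W) {a b c d : ℤ} (hX : Bx a b c d ⊆ X.E)
    (hF : F ⊆ X.E \ Bx a b c d) (hO : O ⊆ F)
    {Hv Hf Gv Gf : ℤ × ℤ → ℂ} (hH : X.Prim a b c d Hv Hf)
    (hG : (X.flatten F O).Prim a b c d Gv Gf)
    {u v : ℤ × ℤ} (hu : inB a b c d u) (hv : inB a b c d v) {M : ℝ}
    (hM : ∀ ω1 ⊆ X.E \ Bx a b c d, ∀ Hv' Hf', (X.freeze (Bx a b c d) ω1).Prim a b c d Hv' Hf' →
      ‖Hv' u - Hv' v‖ ≤ M) :
    ‖(Gv u - Gv v) - (Hv u - Hv v)‖ ≤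
      2 * M * PrP (fun _ => 1 / 2) (X.E \ Bx a b c d)
        (fun ω => ¬ Relation.ReflTransGen (X.StepEq a b c d) ω (flat F O ω)) := by
  have hZ : Bx a b c d ⊆ (X.flatten F O).E := by
    rw [flatten_E]
    intro e he
    exact mem_sdiff.2 ⟨hX he, fun h3 => (mem_sdiff.1 (hF h3)).2 he⟩
  have e1 : (X.flatten F O).E \ Bx a b c d = (X.E \ Bx a b c d) \ F := by
    rw [flatten_E]; ext e; simp only [mem_sdiff]; tauto
  have e2 : (X.E \ F) \ Bx a b c d = (X.E \ Bx a b c d) \ F := by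
    ext e; simp only [mem_sdiff]; tauto
  have key := Env.compare (X := X) (Z := X.flatten F O) hX hZ hH hG hu hv
    (E1 := X.E \ Bx a b c d) (r := fun ω => ω) (s := fun ω => ω ∩ ((X.E \ Bx a b c d) \ F))
    (fun ω hω => hω) (fun ω hω => by rw [e1]; exact inter_subset_right) (fun F => rfl)
    (fun G => by rw [e1]; exact (Ec_local _ sdiff_subset G).symm) (ζ := 1) (by simp)
    (Bad := fun ω => ¬ Relation.ReflTransGen (X.StepEq a b c d) ω (flat F O ω)) ?_ hM ?_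
  · simpa using key
  · intro ω hω hg z hz
    rw [not_not] at hg
    have hs : ω ∩ ((X.E \ Bx a b c d) \ F) ⊆ (X.E \ F) \ Bx a b c d := by
      rw [e2]; exact inter_subset_right
    have e3 : ω ∩ ((X.E \ Bx a b c d) \ F) ∪ O = flat F O ω := by
      unfold flat
      congr 1
      ext e
      simp only [mem_inter, mem_sdiff]
      constructor
      · rintro ⟨h1, h2⟩; exact ⟨h1, h2.2⟩
      · rintro ⟨h1, h2⟩; exact ⟨h1, mem_sdiff.1 (hω h1), h2⟩
    rw [flatten_freeze_inc hO hF hs, e3, one_mul]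
    exact (h.inc_chain hg hz).symm
  · intro ω1 hω1 Hv' Hf' hP
    rw [e1, ← e2] at hω1
    refine hM (ω1 ∪ O) (union_subset ?_ (hO.trans hF)) Hv' Hf' ?_
    · rw [e2] at hω1; exact hω1.trans sdiff_subset
    · intro e he z hz
      rw [hP e he z hz]
      exact flatten_freeze_inc hO hF hω1 z

end Env

end Pool.Agent.Q1
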