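import Mathlib
import Pool.Agent.Q1.M6c.Flat
import Pool.Agent.Q1.Rigid

set_option autoImplicit false
open Finset

/-! # Exploration of the path up to a stopping time

`tau X P ω`: first time at which the path has the property `P` (or its length). `rev X P ω`: the random
labels met before. The increments of `X` are the averages of the increments of the environments in
which the explored labels are frozen. -/

namespace Pool.Agent.Q1

open Pool.Agent.H75.Perc Pool.Agent.H75.TwoArm Pool.Agent.H99.NC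

section complex

variable {α : Type*} [DecidableEq α]

lemma Ec_eq_wt (E : Finset α) (F : Finset α → ℂ) :
    Ec (fun _ => (1 / 2 : ℂ)) E F =
      ∑ ω ∈ E.powerset, ((wt (fun _ => (1 / 2 : ℝ)) E ω : ℝ) : ℂ) * F ω := by
  unfold Ec
  refine sum_congr rfl fun ω _ => ?_
  congr 1
  unfold wtc wt
  push_cast
  rfl

lemma Ec_re (E : Finset α) (F : Finset α → ℂ) :
    (Ec (fun _ => (1 / 2 : ℂ)) E F).re = Ex (fun _ => (1 / 2 : ℝ)) E (fun ω => (F ω).re) := by
  rw [Ec_eq_wt, Complex.re_sum]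
  unfold Ex
  exact sum_congr rfl fun ω _ => Complex.re_ofReal_mul _ _

lemma Ec_im (E : Finset α) (F : Finset α → ℂ) :
    (Ec (fun _ => (1 / 2 : ℂ)) E F).im = Ex (fun _ => (1 / 2 : ℝ)) E (fun ω => (F ω).im) := by
  rw [Ec_eq_wt, Complex.im_sum]
  unfold Ex
  exact sum_congr rfl fun ω _ => Complex.im_ofReal_mul _ _

/-- **Resampling outside of a stopping set**, complex functions. -/
theorem Ec_resample1 (E : Finset α) (U : Finset α → Finset α)
    (hU : ∀ ω ω', ω ⊆ E → ω' ⊆ E → U (H75.Perc.mix (U ω) ω ω') = U ω) (F : Finset α → ℂ) :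
    Ec (fun _ => (1 / 2 : ℂ)) E (fun ω => Ec (fun _ => (1 / 2 : ℂ)) E
      (fun ω' => F (H75.Perc.mix (U ω) ω ω'))) = Ec (fun _ => (1 / 2 : ℂ)) E F := by
  apply Complex.ext
  · rw [Ec_re, Ec_re]
    simp only [Ec_re]
    exact Ex_resample1 _ E U hU (fun ω => (F ω).re)
  · rw [Ec_im, Ec_im]
    simp only [Ec_im]
    exact Ex_resample1 _ E U hU (fun ω => (F ω).im)

end complex

namespace Env

variable {X : Env}

/-- **Markov property at a stopping set.** -/
theorem inc_stopset (X : Env) (U : Finset (ℤ × ℤ) → Finset (ℤ × ℤ))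
    (hU : ∀ ω ω', ω ⊆ X.E → ω' ⊆ X.E → U (H75.Perc.mix (U ω) ω ω') = U ω) (c : ℤ × ℤ) :
    X.inc c = Ec (fun _ => (1 / 2 : ℂ)) X.E (fun ω => (X.freeze (X.E \ U ω) ω).inc c) := by
  rw [inc_eq, ← Ec_resample1 X.E U hU]
  refine Ec_congr fun ω hω => ?_
  rw [inc_eq, freeze_E]
  have e0 : X.E ∩ (X.E \ U ω) = X.E \ U ω := inter_eq_right.2 sdiff_subset
  rw [e0]
  have e1 := Ec_local (E := X.E) (E1 := X.E \ U ω) (fun _ => (1 / 2 : ℂ)) sdiff_subset
    (fun ω' => (X.freeze (X.E \ U ω) ω).incO ω' c)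
  rw [← e1]
  refine Ec_congr fun ω' hω' => ?_
  have h1 : ω' ∩ (X.E \ U ω) ⊆ X.E ∩ (X.E \ U ω) := by rw [e0]; exact inter_subset_right
  rw [freeze_incO h1]
  congr 1
  ext e
  rw [H75.Perc.mem_mix]
  simp only [mem_union, mem_inter, mem_sdiff]
  constructor
  · rintro (⟨h2, h3⟩ | ⟨h2, h3⟩)
    · exact Or.inr ⟨h2, hω h2, fun h4 => h4.2 h3⟩
    · exact Or.inl ⟨h2, hω' h2, h3⟩
  · rintro (⟨h2, h3, h4⟩ | ⟨h2, h3, h4⟩)
    · exact Or.inr ⟨h2, h4⟩
    · left
      refine ⟨h2, ?_⟩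
      by_contra h5
      exact h4 ⟨h3, h5⟩

/-- averages of differences of the primitive at a stopping set -/
theorem diff_stopset (X : Env) (U : Finset (ℤ × ℤ) → Finset (ℤ × ℤ))
    (hU : ∀ ω ω', ω ⊆ X.E → ω' ⊆ X.E → U (H75.Perc.mix (U ω) ω ω') = U ω)
    {a b c d : ℤ} {Hv Hf : ℤ × ℤ → ℂ}
    (hP : X.Prim a b c d Hv Hf) {u v : ℤ × ℤ} (hu : inB a b c d u) (hv : inB a b c d v)
    {H Hf' : Finset (ℤ × ℤ) → ℤ × ℤ → ℂ}
    (hH : ∀ ω ⊆ X.E, (X.freeze (X.E \ U ω) ω).Prim a b c d (H ω) (Hf' ω)) :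
    Hv u - Hv v = Ec (fun _ => (1 / 2 : ℂ)) X.E (fun ω => H ω u - H ω v) := by
  classical
  have hconst : ∀ w w', inB a b c d w → inB a b c d w' →
      Hv w - Ec (fun _ => (1 / 2 : ℂ)) X.E (fun ω1 => H ω1 w) =
      Hv w' - Ec (fun _ => (1 / 2 : ℂ)) X.E (fun ω1 => H ω1 w') := by
    intro w w' hw hw'
    refine const_on_rect (Δ := fun w => Hv w - Ec (fun _ => (1 / 2 : ℂ)) X.E
      (fun ω1 => H ω1 w)) ?_ ?_ hw hw'
    · intro x y h1 h2 h3 h4
      have k1 := hP.hor h1 h2 h3 h4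
      have k2 : Ec (fun _ => (1 / 2 : ℂ)) X.E (fun ω1 => H ω1 (x + 1, y)) -
          Ec (fun _ => (1 / 2 : ℂ)) X.E (fun ω1 => H ω1 (x, y)) =
          X.inc (2 * x + 2, 2 * y) - X.inc (2 * x + 1, 2 * y) := by
        rw [← Ec_sub, X.inc_stopset U hU, X.inc_stopset U hU, ← Ec_sub]
        exact Ec_congr fun ω1 hω1 => (hH ω1 hω1).hor h1 h2 h3 h4
      linear_combination k1 - k2
    · intro x y h1 h2 h3 h4
      have k1 := hP.ver h1 h2 h3 h4
      have k2 : Ec (fun _ => (1 / 2 : ℂ)) X.E (fun ω1 => H ω1 (x, y + 1)) -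
          Ec (fun _ => (1 / 2 : ℂ)) X.E (fun ω1 => H ω1 (x, y)) =
          X.inc (2 * x, 2 * y + 2) - X.inc (2 * x, 2 * y + 1) := by
        rw [← Ec_sub, X.inc_stopset U hU, X.inc_stopset U hU, ← Ec_sub]
        exact Ec_congr fun ω1 hω1 => (hH ω1 hω1).ver h1 h2 h3 h4
      linear_combination k1 - k2
  rw [Ec_sub]
  linear_combination hconst u v hu hv

/-! ### Stopping times of the path -/

open Classical in
/-- the first time at which the path has the property `P`, or its length -/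
noncomputable def tau (X : Env) (P : ℤ × ℤ → Prop) (ω : Finset (ℤ × ℤ)) : ℕ :=
  if h : ∃ i, i < X.len ω ∧ P (X.z ω i) then Nat.find h else X.len ω

open Classical in
/-- the random labels met before the time `tau` -/
noncomputable def rev (X : Env) (P : ℤ × ℤ → Prop) (ω : Finset (ℤ × ℤ)) : Finset (ℤ × ℤ) :=
  X.E.filter (fun e => ∃ i < X.tau P ω, lab (X.z ω i) = e)

lemma mem_rev {P : ℤ × ℤ → Prop} {ω : Finset (ℤ × ℤ)} {e : ℤ × ℤ} :
    e ∈ X.rev P ω ↔ e ∈ X.E ∧ ∃ i < X.tau P ω, lab (X.z ω i) = e := by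
  unfold rev; rw [mem_filter]

lemma rev_sub (X : Env) (P : ℤ × ℤ → Prop) (ω : Finset (ℤ × ℤ)) : X.rev P ω ⊆ X.E := by
  unfold rev; exact filter_subset _ _

lemma tau_le (X : Env) (P : ℤ × ℤ → Prop) (ω : Finset (ℤ × ℤ)) : X.tau P ω ≤ X.len ω := by
  classical
  unfold tau
  split_ifs with h
  · exact (Nat.find_spec h).1.le
  · exact le_rfl

/-- before the time `tau` the property does not hold -/
lemma not_of_lt_tau {P : ℤ × ℤ → Prop} {ω : Finset (ℤ × ℤ)} {i : ℕ} (hi : i < X.tau P ω) :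
    ¬ P (X.z ω i) := by
  classical
  intro hP
  have h1 : i < X.len ω := hi.trans_le (tau_le X P ω)
  unfold tau at hi
  rw [dif_pos ⟨i, h1, hP⟩] at hi
  exact Nat.find_min _ hi ⟨h1, hP⟩

/-- at the time `tau` the property holds, if the path is not complete -/
lemma of_tau {P : ℤ × ℤ → Prop} {ω : Finset (ℤ × ℤ)} (h : X.tau P ω < X.len ω) :
    P (X.z ω (X.tau P ω)) := by
  classical
  by_cases hex : ∃ i, i < X.len ω ∧ P (X.z ω i)
  · have e : X.tau P ω = Nat.find hex := by unfold tau; rw [dif_pos hex]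
    rw [e]
    exact (Nat.find_spec hex).2
  · exfalso
    unfold tau at h
    rw [dif_neg hex] at h
    exact lt_irrefl _ h

lemma tau_eq_of {P : ℤ × ℤ → Prop} {ω : Finset (ℤ × ℤ)} {n : ℕ} (hn : n < X.len ω)
    (hP : P (X.z ω n)) (hmin : ∀ i < n, ¬ P (X.z ω i)) : X.tau P ω = n := by
  classical
  have hex : ∃ i, i < X.len ω ∧ P (X.z ω i) := ⟨n, hn, hP⟩
  have e : X.tau P ω = Nat.find hex := by unfold tau; rw [dif_pos hex]
  rw [e, Nat.find_eq_iff]
  exact ⟨⟨hn, hP⟩, fun i hi h => hmin i hi h.2⟩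

lemma tau_eq_len {P : ℤ × ℤ → Prop} {ω : Finset (ℤ × ℤ)} (h : ∀ i < X.len ω, ¬ P (X.z ω i)) :
    X.tau P ω = X.len ω := by
  classical
  unfold tau
  rw [dif_neg]
  rintro ⟨i, hi, hP⟩
  exact h i hi hP

/-- the path is determined by the labels it meets -/
lemma z_agree {ω ω' : Finset (ℤ × ℤ)} (hω : ω ⊆ X.E) {n : ℕ}
    (h : ∀ i < n, lab (X.z ω i) ∈ X.E → (lab (X.z ω i) ∈ ω' ↔ lab (X.z ω i) ∈ ω)) :
    ∀ i ≤ n, X.z ω' i = X.z ω i ∧ X.K ω' i = X.K ω i := by
  intro i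
  induction i with
  | zero => intro _; rw [z_zero, z_zero, K_zero, K_zero]; exact ⟨rfl, rfl⟩
  | succ i ih =>
    intro hi
    obtain ⟨h1, h2⟩ := ih (by omega)
    have hS := z_mem hω i
    have h3 := h i (by omega)
    rw [z_succ, z_succ, K_succ, K_succ, h1, h2]
    by_cases hl : lab (X.z ω i) ∈ X.E
    · have h4 := h3 hl
      rw [f_in hl, f_in hl, d_in hl, d_in hl]
      unfold nx del
      by_cases h5 : lab (X.z ω i) ∈ ω
      · rw [if_pos h5, if_pos (h4.2 h5), if_pos (h4.2 h5), if_pos h5]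
        exact ⟨rfl, rfl⟩
      · rw [if_neg h5, if_neg (fun h6 => h5 (h4.1 h6)), if_neg (fun h6 => h5 (h4.1 h6)), if_neg h5]
        exact ⟨rfl, rfl⟩
    · rw [f_out hS hl, f_out hS hl, d_out hS hl, d_out hS hl]
      exact ⟨rfl, rfl⟩

/-- **`rev` is a stopping set**: two configurations which agree on it. -/
theorem rev_agree {P : ℤ × ℤ → Prop} {ω η : Finset (ℤ × ℤ)} (hω : ω ⊆ X.E) (hη : η ⊆ X.E)
    (h : ∀ e ∈ X.rev P ω, (e ∈ η ↔ e ∈ ω)) :
    X.tau P η = X.tau P ω ∧ X.rev P η = X.rev P ω ∧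
      (∀ i ≤ X.tau P ω, X.z η i = X.z ω i ∧ X.K η i = X.K ω i) ∧
      (X.tau P ω = X.len ω → X.len η = X.len ω) := by
  have hag : ∀ i ≤ X.tau P ω, X.z η i = X.z ω i ∧ X.K η i = X.K ω i := by
    apply z_agree hω
    intro i hi hl
    exact h _ (mem_rev.2 ⟨hl, i, hi, rfl⟩)
  have hlt : X.tau P ω < X.len ω → X.tau P ω < X.len η := by
    intro h1
    by_contra h2
    push Not at h2
    have h3 := (hag _ h2).1
    rw [z_len hη] at h3
    have h4 := z_inj hω (by omega : X.len η < X.len ω) (len_pos hω) h3.symm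
    have := len_pos hη
    omega
  have hleq : X.tau P ω = X.len ω → X.len η = X.len ω := by
    intro h1
    rw [h1] at hag
    rcases lt_trichotomy (X.len η) (X.len ω) with h2 | h2 | h2
    · exfalso
      have h3 := (hag _ h2.le).1
      rw [z_len hη] at h3
      have h4 := z_inj hω h2 (len_pos hω) h3.symm
      have := len_pos hη
      omega
    · exact h2
    · exfalso
      have h3 := (hag _ le_rfl).1
      rw [z_len hω] at h3
      have h4 := z_inj hη h2 (len_pos hη) h3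
      have := len_pos hω
      omega
  have htau : X.tau P η = X.tau P ω := by
    rcases lt_or_eq_of_le (tau_le X P ω) with h1 | h1
    · refine tau_eq_of (hlt h1) ?_ ?_
      · rw [(hag _ le_rfl).1]; exact of_tau h1
      · intro i hi
        rw [(hag i hi.le).1]; exact not_of_lt_tau hi
    · have h2 := hleq h1
      rw [h1, ← h2]
      apply tau_eq_len
      intro i hi
      rw [h2] at hi
      rw [(hag i (by omega)).1]
      exact not_of_lt_tau (by omega)
  refine ⟨htau, ?_, hag, hleq⟩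
  ext e
  rw [mem_rev, mem_rev, htau]
  constructor
  · rintro ⟨h1, i, h2, h3⟩
    exact ⟨h1, i, h2, by rw [← (hag i h2.le).1]; exact h3⟩
  · rintro ⟨h1, i, h2, h3⟩
    exact ⟨h1, i, h2, by rw [(hag i h2.le).1]; exact h3⟩

lemma mix_rev {P : ℤ × ℤ → Prop} {ω ω' : Finset (ℤ × ℤ)} :
    ∀ e ∈ X.rev P ω, (e ∈ H75.Perc.mix (X.rev P ω) ω ω' ↔ e ∈ ω) := by
  intro e he
  rw [H75.Perc.mem_mix]
  tauto

theorem rev_mix (X : Env) (P : ℤ × ℤ → Prop) (ω ω' : Finset (ℤ × ℤ)) (hω : ω ⊆ X.E)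
    (hω' : ω' ⊆ X.E) : X.rev P (H75.Perc.mix (X.rev P ω) ω ω') = X.rev P ω :=
  (rev_agree hω (mix_subset hω hω') mix_rev).2.1

/-- **Exploration of the path up to the stopping time.** -/
theorem inc_rev (X : Env) (P : ℤ × ℤ → Prop) (c : ℤ × ℤ) :
    X.inc c = Ec (fun _ => (1 / 2 : ℂ)) X.E (fun ω => (X.freeze (X.E \ X.rev P ω) ω).inc c) :=
  X.inc_stopset _ (rev_mix X P) c

/-- the explored labels do not meet a set whose labels have the property `P` -/
lemma rev_disj {P : ℤ × ℤ → Prop} {ω S : Finset (ℤ × ℤ)} (hP : ∀ z, lab z ∈ S → P z) :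
    Disjoint (X.rev P ω) S := by
  rw [disjoint_left]
  intro e he hS
  obtain ⟨-, i, hi, rfl⟩ := mem_rev.1 he
  exact not_of_lt_tau hi (hP _ hS)

/-- if the path is complete at the time `tau`, the corners without the property get no increment from
the frozen environment -/
lemma rev_complete {P : ℤ × ℤ → Prop} {ω : Finset (ℤ × ℤ)} (hω : ω ⊆ X.E)
    (h : X.tau P ω = X.len ω) {c : ℤ × ℤ} (hc : P c) :
    (X.freeze (X.E \ X.rev P ω) ω).inc c = 0 := by
  rw [inc_eq, freeze_E]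
  rw [Ec_congr (G := fun _ => 0), Ec_const]
  intro ω' hω'
  rw [freeze_incO hω']
  have hsub := freeze_sub X (ω1 := ω) hω'
  have hag : ∀ e ∈ X.rev P ω, (e ∈ ω' ∪ ω ∩ (X.E \ (X.E \ X.rev P ω)) ↔ e ∈ ω) := by
    intro e he
    have hE := rev_sub X P ω he
    simp only [mem_union, mem_inter, mem_sdiff]
    constructor
    · rintro (h1 | h1)
      · have := (mem_sdiff.1 (mem_inter.1 (hω' h1)).2).2
        exact absurd he this
      · exact h1.1
    · intro h1
      exact Or.inr ⟨h1, hE, fun h2 => h2.2 he⟩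
  obtain ⟨h1, -, h3, h4⟩ := rev_agree hω hsub hag
  apply incO_zero
  intro i hi hz
  rw [h4 h] at hi
  rw [(h3 i (by rw [h]; exact hi.le)).1] at hz
  apply not_of_lt_tau (X := X) (P := P) (ω := ω) (i := i) (by rw [h]; exact hi)
  rw [hz]; exact hc

end Env

end Pool.Agent.Q1
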