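import Mathlib
import Pool.Agent.Q1.M6c.Stop
import Pool.Agent.Q1.Plane

set_option autoImplicit false
open Finset

/-! # Plane environments and rough Dobrushin environments

`PlaneEnv X W`: the environment `X` is the exploration in the plane with the random labels `X.E` and
the wired labels `W` (all other labels closed). `Dobr E W c0`: the wired labels are connected to the
vertex of `c0`, the faces next to closed walls are joined to the face of `c0` by closed walls. Both are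
preserved by freezing the explored labels (`PlaneEnv.freeze`, `Dobr.explore`, `DEnvX.rev`). -/

namespace Pool.Agent.Q1.M6c

open Pool.Agent.H75.Perc Pool.Agent.H75.TwoArm Pool.Agent.H99.NC Pool.Agent.H69.Q1
open Pool.Agent.H75.TwoArm.StrandAux hiding vx_nxC

/-! ### Plane environments -/

/-- `X` is the exploration in the plane with the wired labels `W`; the root face is joined by closed
walls to a face below all vertices which can be reached. -/
structure PlaneEnv (X : Env) (W : Finset (ℤ × ℤ)) : Prop where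
  disj : Disjoint X.E W
  oddW : ∀ e ∈ W, (e.1 + e.2) % 2 = 1
  zz : ∀ ω ⊆ X.E, ∀ i, X.z ω i = (nx (ω ∪ W))^[i] X.c0
  KK' : ∀ ω ⊆ X.E, ∀ i, X.K ω i = KK (nx (ω ∪ W)) (del (ω ∪ W)) X.c0 X.k0 i
  out : ∃ g : ℤ × ℤ, DCo (X.E ∪ W) (fi X.c0) g ∧ ∀ v, Co (X.E ∪ W) (vx X.c0) v → g.2 < v.2

lemma PlaneEnv.planeLike {X : Env} {W : Finset (ℤ × ℤ)} (h : PlaneEnv X W) : X.PlaneLike W := h.zz

lemma PlaneEnv.orb {X : Env} {W : Finset (ℤ × ℤ)} (h : PlaneEnv X W) {ω : Finset (ℤ × ℤ)}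
    (hω : ω ⊆ X.E) : Orb (nx (ω ∪ W)) X.c0 (X.len ω) := by
  have hO := Env.orb (X := X) hω
  refine ⟨hO.pos, ?_, ?_⟩
  · rw [← h.zz ω hω]; exact Env.z_len hω
  · intro i j hij hj
    rw [← h.zz ω hω, ← h.zz ω hω]
    exact fun e => absurd (Env.z_inj hω (by omega) hj e) (by omega)

/-- The plane environment of labels. -/
theorem planeEnv_plane {E W : Finset (ℤ × ℤ)} {c0 : ℤ × ℤ} {k0 : ℤ} {g : ℤ × ℤ}
    {hE : ∀ e ∈ E, (e.1 + e.2) % 2 = 1} {hd : Disjoint E W} {hk : k0 % 4 = ty c0}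
    {hroot : plab c0 ∉ E} {hg : DCo (E ∪ W) (fi c0) g}
    {hlow : ∀ v, Co (E ∪ W) (vx c0) v → g.2 < v.2} (hW : ∀ e ∈ W, (e.1 + e.2) % 2 = 1) :
    PlaneEnv (Env.plane E W c0 k0 g hE hd hk hroot hg hlow) W :=
  ⟨hd, hW, fun _ hω i => plane_z hω i, fun _ hω i => plane_K hω i, g, hg, hlow⟩

/-- Freezing. -/
theorem PlaneEnv.freeze {X : Env} {W : Finset (ℤ × ℤ)} (h : PlaneEnv X W) (E' : Finset (ℤ × ℤ))
    (ω1 : Finset (ℤ × ℤ)) : PlaneEnv (X.freeze E' ω1) (W ∪ (ω1 ∩ (X.E \ E'))) := by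
  have e : ∀ ω : Finset (ℤ × ℤ), ω ∪ (ω1 ∩ (X.E \ E')) ∪ W = ω ∪ (W ∪ (ω1 ∩ (X.E \ E'))) := by
    intro ω
    rw [union_assoc, union_comm W]
  refine ⟨?_, ?_, ?_, ?_, ?_⟩
  · rw [Env.freeze_E, disjoint_left]
    intro x hx hx'
    rcases mem_union.1 hx' with h1 | h1
    · exact disjoint_left.1 h.disj (mem_inter.1 hx).1 h1
    · exact (mem_sdiff.1 (mem_inter.1 h1).2).2 (mem_inter.1 hx).2
  · intro x hx
    rcases mem_union.1 hx with h1 | h1
    · exact h.oddW x h1
    · exact X.odd x (mem_sdiff.1 (mem_inter.1 h1).2).1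
  · intro ω hω i
    rw [Env.freeze_z hω, h.zz _ (Env.freeze_sub X hω), e]; rfl
  · intro ω hω i
    rw [Env.freeze_K hω, h.KK' _ (Env.freeze_sub X hω), e]; rfl
  · have hsub : (X.freeze E' ω1).E ∪ (W ∪ (ω1 ∩ (X.E \ E'))) ⊆ X.E ∪ W := by
      rw [Env.freeze_E]
      intro x hx
      simp only [mem_union, mem_inter, mem_sdiff] at hx ⊢
      tauto
    obtain ⟨g, h1, h2⟩ := h.out
    exact ⟨g, h1.anti hsub, fun v hv => h2 v (Co.mono hsub hv)⟩

/-- the class of the plane environments -/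
def PlaneK (X : Env) : Prop := ∃ W, PlaneEnv X W

lemma planeK_freeze {X : Env} (h : PlaneK X) (E' ω1 : Finset (ℤ × ℤ)) :
    PlaneK (X.freeze E' ω1) := by
  obtain ⟨W, hW⟩ := h
  exact ⟨_, hW.freeze E' ω1⟩

/-! ### Rough Dobrushin environments -/

/-- Random labels `E`, wired labels `W`, root corner `c0`: all ends of wired labels are joined to the
vertex of `c0` by wired labels; all faces next to closed walls are joined to the face of `c0` by closed
walls (corners `z` with `lab z = e` are the two ends, resp. the two faces, of `e`). -/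
structure Dobr (E W : Finset (ℤ × ℤ)) (c0 : ℤ × ℤ) : Prop where
  odd : ∀ e ∈ E, (e.1 + e.2) % 2 = 1
  oddW : ∀ e ∈ W, (e.1 + e.2) % 2 = 1
  disj : Disjoint E W
  root : plab c0 ∉ E
  wco : ∀ z, lab z ∈ W → Co W (vx c0) (vx z)
  lco : ∀ z, lab z ∉ E → lab z ∉ W → DCo (E ∪ W) (fi c0) (fi z)

variable {E W : Finset (ℤ × ℤ)} {c0 : ℤ × ℤ}

lemma pv_empty_nxC (z : ℤ × ℤ) : ∃ z', lab z' = plab z ∧ nxC z' = z := by
  refine ⟨pv ∅ z, lab_pv ∅ z, ?_⟩
  have h := nx_pv ∅ z
  unfold nx at h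
  rwa [if_neg (notMem_empty _)] at h

lemma pv_full_nxO (z : ℤ × ℤ) : ∃ z', lab z' = plab z ∧ nxO z' = z := by
  refine ⟨pv {plab z} z, lab_pv _ z, ?_⟩
  have h := nx_pv {plab z} z
  have h1 := lab_pv {plab z} z
  unfold nx at h
  rwa [if_pos (by rw [h1]; exact mem_singleton_self _)] at h

lemma Dobr.wco' (h : Dobr E W c0) {z : ℤ × ℤ} (hz : plab z ∈ W) : Co W (vx c0) (vx z) := by
  obtain ⟨z', h1, h2⟩ := pv_empty_nxC z
  have h3 := h.wco z' (by rw [h1]; exact hz)
  rw [← h2, vx_nxC]; exact h3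

lemma Dobr.lco' (h : Dobr E W c0) {z : ℤ × ℤ} (hz : plab z ∉ E) (hz' : plab z ∉ W) :
    DCo (E ∪ W) (fi c0) (fi z) := by
  obtain ⟨z', h1, h2⟩ := pv_full_nxO z
  have h3 := h.lco z' (by rw [h1]; exact hz) (by rw [h1]; exact hz')
  rw [← h2, fi_nxO]; exact h3

lemma co_nx_step {A w : Finset (ℤ × ℤ)} {z : ℤ × ℤ} (h : lab z ∈ w → lab z ∈ A) :
    Co A (vx z) (vx (nx w z)) := by
  by_cases hl : lab z ∈ w
  · have h1 : nx w z = nxO z := by unfold nx; rw [if_pos hl]
    rw [h1]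
    have h2 := vx_nxO z
    exact Relation.ReflTransGen.single ⟨h2.1, by rw [h2.2]; exact h hl⟩
  · have h1 : nx w z = nxC z := by unfold nx; rw [if_neg hl]
    rw [h1, vx_nxC]
    exact Co.refl _ _

lemma dco_nx_step {A w : Finset (ℤ × ℤ)} {z : ℤ × ℤ} (h : lab z ∉ w → lab z ∉ A) :
    DCo A (fi z) (fi (nx w z)) := by
  by_cases hl : lab z ∈ w
  · have h1 : nx w z = nxO z := by unfold nx; rw [if_pos hl]
    rw [h1, fi_nxO]
    exact DCo.refl _ _
  · have h1 : nx w z = nxC z := by unfold nx; rw [if_neg hl]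
    rw [h1]
    have h2 := fi_nxC z
    refine DCo.step h2.1 ?_
    have h3 : fi z + fi (nxC z) - (1, 1) = lab z := by
      rw [h2.2]; exact add_sub_cancel_right _ _
    rw [h3]; exact h hl

/-- **Exploration keeps the Dobrushin property.** `U` = random labels met by the path of `c0` in the
configuration `ω` before the time `n`. -/
theorem Dobr.explore (h : Dobr E W c0) {ω U : Finset (ℤ × ℤ)} (hω : ω ⊆ E) {n : ℕ}
    (hU : ∀ e, e ∈ U ↔ e ∈ E ∧ ∃ i < n, lab ((nx (ω ∪ W))^[i] c0) = e) :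
    Dobr (E \ U) (W ∪ (ω ∩ U)) c0 ∧
    (∀ i ≤ n, Co (W ∪ (ω ∩ U)) (vx c0) (vx ((nx (ω ∪ W))^[i] c0))) ∧
    (∀ i ≤ n, DCo ((E \ U) ∪ (W ∪ (ω ∩ U))) (fi c0) (fi ((nx (ω ∪ W))^[i] c0))) := by
  have hsub : (E \ U) ∪ (W ∪ (ω ∩ U)) ⊆ E ∪ W := by
    intro x hx
    simp only [mem_union, mem_sdiff, mem_inter] at hx ⊢
    rcases hx with hx | hx | hx
    · exact Or.inl hx.1
    · exact Or.inr hx
    · exact Or.inl (hω hx.1)
  -- the path
  have hv : ∀ i ≤ n, Co (W ∪ (ω ∩ U)) (vx c0) (vx ((nx (ω ∪ W))^[i] c0)) := by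
    intro i
    induction i with
    | zero => intro _; exact Co.refl _ _
    | succ i ih =>
      intro hi
      rw [Function.iterate_succ_apply']
      refine (ih (by omega)).trans (co_nx_step fun hl => ?_)
      rcases mem_union.1 hl with h1 | h1
      · exact mem_union_right _ (mem_inter.2 ⟨h1, (hU _).2 ⟨hω h1, i, by omega, rfl⟩⟩)
      · exact mem_union_left _ h1
  have hf : ∀ i ≤ n, DCo ((E \ U) ∪ (W ∪ (ω ∩ U))) (fi c0) (fi ((nx (ω ∪ W))^[i] c0)) := by
    intro i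
    induction i with
    | zero => intro _; exact DCo.refl _ _
    | succ i ih =>
      intro hi
      rw [Function.iterate_succ_apply']
      refine (ih (by omega)).trans (dco_nx_step fun hl hl2 => ?_)
      rw [mem_union, not_or] at hl
      simp only [mem_union, mem_sdiff, mem_inter] at hl2
      rcases hl2 with h1 | h1 | h1
      · exact h1.2 ((hU _).2 ⟨h1.1, i, by omega, rfl⟩)
      · exact hl.2 h1
      · exact hl.1 h1.1
  refine ⟨⟨?_, ?_, ?_, ?_, ?_, ?_⟩, hv, hf⟩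
  · exact fun e he => h.odd e (mem_sdiff.1 he).1
  · intro e he
    rcases mem_union.1 he with h1 | h1
    · exact h.oddW e h1
    · exact h.odd e (hω (mem_inter.1 h1).1)
  · rw [disjoint_left]
    intro e he he'
    rcases mem_union.1 he' with h1 | h1
    · exact disjoint_left.1 h.disj (mem_sdiff.1 he).1 h1
    · exact (mem_sdiff.1 he).2 (mem_inter.1 h1).2
  · exact fun h1 => h.root (mem_sdiff.1 h1).1
  · intro z hz
    rcases mem_union.1 hz with h1 | h1
    · exact (h.wco z h1).mono subset_union_left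
    · obtain ⟨h2, h3⟩ := mem_inter.1 h1
      obtain ⟨hE, i, hi, hlab⟩ := (hU _).1 h3
      -- the corner of the path at this label
      set y := (nx (ω ∪ W))^[i] c0 with hy
      have h4 := hv i hi.le
      rw [← hy] at h4
      have h5 := vx_nxO y
      have h6 : Co (W ∪ (ω ∩ U)) (vx y) (vx (nxO y)) :=
        Relation.ReflTransGen.single ⟨h5.1, by rw [h5.2, hlab]; exact hz⟩
      have ho := h.odd _ hE
      -- `vx z` is one of the two ends
      have h7 : vx z = vx y ∨ vx z = vx (nxO y) := by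
        have h8 := vx_nxO z
        have e1 : vx z + vx (nxO z) = vx y + vx (nxO y) := by rw [h8.2, h5.2, hlab]
        rcases ends_of_add h8.1 rfl with ⟨g1, g2⟩ | ⟨g1, g2⟩ <;>
          rcases ends_of_add h5.1 e1.symm with ⟨g3, g4⟩ | ⟨g3, g4⟩
        · left; rw [g1, g3]
        · right; rw [g1, g4]
        · right; rw [g1, g4]
        · left; rw [g1, g3]
      rcases h7 with h7 | h7
      · rw [h7]; exact h4
      · rw [h7]; exact h4.trans h6
  · intro z hz hz'
    by_cases hzE : lab z ∈ E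
    · have h3 : lab z ∈ U := by
        by_contra h3
        exact hz (mem_sdiff.2 ⟨hzE, h3⟩)
      obtain ⟨-, i, hi, hlab⟩ := (hU _).1 h3
      set y := (nx (ω ∪ W))^[i] c0 with hy
      have h4 := hf i hi.le
      rw [← hy] at h4
      have hcl : lab z ∉ (E \ U) ∪ (W ∪ (ω ∩ U)) := by
        rw [mem_union, not_or]; exact ⟨hz, hz'⟩
      have h5 : DCo ((E \ U) ∪ (W ∪ (ω ∩ U))) (fi y) (fi (nxC y)) := by
        have h6 := fi_nxC y
        refine DCo.step h6.1 ?_
        have e1 : fi y + fi (nxC y) - (1, 1) = lab y := by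
          rw [h6.2]; exact add_sub_cancel_right _ _
        rw [e1, hlab]; exact hcl
      have h7 : fi z = fi y ∨ fi z = fi (nxC y) := by
        have g1 := fi_nxC z
        have g2 := fi_nxC y
        have e1 : fi z + fi (nxC z) = fi y + fi (nxC y) := by rw [g1.2, g2.2, hlab]
        rcases ends_of_add g1.1 rfl with ⟨k1, k2⟩ | ⟨k1, k2⟩ <;>
          rcases ends_of_add g2.1 e1.symm with ⟨k3, k4⟩ | ⟨k3, k4⟩
        · left; rw [k1, k3]
        · right; rw [k1, k4]
        · right; rw [k1, k4]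
        · left; rw [k1, k3]
      rcases h7 with h7 | h7
      · rw [h7]; exact h4
      · rw [h7]; exact h4.trans h5
    · have h1 : lab z ∉ W := fun h2 => hz' (mem_union_left _ h2)
      exact (h.lco z hzE h1).anti hsub

/-- A rough Dobrushin environment as an environment. -/
structure DEnvX (X : Env) (W : Finset (ℤ × ℤ)) : Prop extends PlaneEnv X W where
  dob : Dobr X.E W X.c0

lemma rev_iff {X : Env} (h : PlaneEnv X W) {ω : Finset (ℤ × ℤ)} (hω : ω ⊆ X.E)
    (P : ℤ × ℤ → Prop) (e : ℤ × ℤ) :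
    e ∈ X.rev P ω ↔ e ∈ X.E ∧ ∃ i < X.tau P ω, lab ((nx (ω ∪ W))^[i] X.c0) = e := by
  rw [Env.mem_rev]
  simp only [h.zz ω hω]

lemma sdiff_rev {X : Env} (P : ℤ × ℤ → Prop) (ω : Finset (ℤ × ℤ)) :
    X.E \ (X.E \ X.rev P ω) = X.rev P ω := by
  rw [sdiff_sdiff_right_self]
  exact inter_eq_right.2 (Env.rev_sub X P ω)

/-- **The environment after the exploration is again a rough Dobrushin environment.** -/
theorem DEnvX.rev {X : Env} (h : DEnvX X W) (P : ℤ × ℤ → Prop) {ω : Finset (ℤ × ℤ)}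
    (hω : ω ⊆ X.E) :
    DEnvX (X.freeze (X.E \ X.rev P ω) ω) (W ∪ (ω ∩ X.rev P ω)) := by
  have h1 := h.toPlaneEnv.freeze (X.E \ X.rev P ω) ω
  rw [sdiff_rev] at h1
  refine ⟨h1, ?_⟩
  have h2 := (h.dob.explore hω (rev_iff h.toPlaneEnv hω P)).1
  have e : (X.freeze (X.E \ X.rev P ω) ω).E = X.E \ X.rev P ω := by
    rw [Env.freeze_E]; exact inter_eq_right.2 sdiff_subset
  rw [e]; exact h2

/-- the explored labels of a plane environment, as a plane environment -/
theorem PlaneEnv.rev {X : Env} (h : PlaneEnv X W) (P : ℤ × ℤ → Prop) (ω : Finset (ℤ × ℤ)) :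
    PlaneEnv (X.freeze (X.E \ X.rev P ω) ω) (W ∪ (ω ∩ X.rev P ω)) := by
  have h1 := h.freeze (X.E \ X.rev P ω) ω
  rwa [sdiff_rev] at h1

/-- the faces of the labels far below are joined to the root face -/
lemma Dobr.exists_low (h : Dobr E W c0) : ∃ g : ℤ × ℤ, DCo (E ∪ W) (fi c0) g ∧
    ∀ v, Co (E ∪ W) (vx c0) v → g.2 < v.2 := by
  classical
  set A : Finset (ℤ × ℤ) := insert (vx c0) ((E ∪ W).image Pool.Agent.H75.Four.eu ∪
    (E ∪ W).image Pool.Agent.H75.Four.ev) with hA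
  obtain ⟨M, hM⟩ := (A.image (fun v => - v.2) ∪ (E ∪ W).image (fun v => - v.2)).exists_le
  -- a corner far below
  obtain ⟨N, hN1, hN2⟩ : ∃ N : ℤ, M < N ∧ 1 ≤ N := ⟨max (M + 1) 1, by omega, by omega⟩
  set z : ℤ × ℤ := (1, -(2 * N)) with hz
  have hl : lab z = (1, -(2 * N)) := by
    rw [hz]; unfold lab; simp only
    rw [if_pos (by omega), if_neg (by omega)]
  have hlE : lab z ∉ E ∪ W := by
    intro h1
    have := hM _ (mem_union_right _ (mem_image.2 ⟨_, h1, rfl⟩))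
    rw [hl] at this
    simp only at this
    omega
  rw [mem_union, not_or] at hlE
  refine ⟨fi z, h.lco z hlE.1 hlE.2, ?_⟩
  intro v hv
  have hvA : v ∈ A := by
    rcases Relation.ReflTransGen.cases_tail hv with h1 | ⟨u, -, h1⟩
    · rw [h1]; exact mem_insert_self _ _
    · rw [hA, mem_insert, mem_union, mem_image, mem_image]
      rcases ends_of_add h1.1 rfl with h2 | h2
      · exact Or.inr (Or.inr ⟨_, h1.2, h2.2.symm⟩)
      · exact Or.inr (Or.inl ⟨_, h1.2, h2.2.symm⟩)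
  have := hM _ (mem_union_left _ (mem_image.2 ⟨_, hvA, rfl⟩))
  have e : (fi z).2 = -N := by rw [hz]; unfold fi; simp only; omega
  rw [e]
  omega

/-- the environment of a rough Dobrushin domain -/
noncomputable def Dobr.env (h : Dobr E W c0) (k0 : ℤ) (hk : k0 % 4 = ty c0) : Env :=
  Env.plane E W c0 k0 h.exists_low.choose h.odd h.disj hk h.root h.exists_low.choose_spec.1
    h.exists_low.choose_spec.2

@[simp] lemma Dobr.env_E (h : Dobr E W c0) {k0 : ℤ} {hk : k0 % 4 = ty c0} :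
    (h.env k0 hk).E = E := rfl

@[simp] lemma Dobr.env_c0 (h : Dobr E W c0) {k0 : ℤ} {hk : k0 % 4 = ty c0} :
    (h.env k0 hk).c0 = c0 := rfl

@[simp] lemma Dobr.env_k0 (h : Dobr E W c0) {k0 : ℤ} {hk : k0 % 4 = ty c0} :
    (h.env k0 hk).k0 = k0 := rfl

theorem Dobr.denv (h : Dobr E W c0) {k0 : ℤ} (hk : k0 % 4 = ty c0) : DEnvX (h.env k0 hk) W :=
  ⟨planeEnv_plane h.oddW, h⟩

end Pool.Agent.Q1.M6c
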