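import Mathlib
import Pool.Agent.Q1.Rigid
import Pool.Agent.Q1.Outer

set_option autoImplicit false
open Finset

/-! # Uniqueness of the entrance

`S` is a connected set of labels, `A` a set of open labels outside `S`. An entrance of `S` is a corner
`c` with `lab c ∈ S`, `plab c ∉ S`. Two entrances whose vertices are joined by labels of `A` and whose
faces are joined by a dual path crossing no label of `A ∪ S` are equal. -/

namespace Pool.Agent.Q1.M6c

open Pool.Agent.H75.Perc Pool.Agent.H75.TwoArm Pool.Agent.H69.Q1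
open Pool.Agent.Q1.Env (TConn TAdj)

/-- exchange at the label `e` of `S` -/
lemma toggle_nx {A S w : Finset (ℤ × ℤ)} (hd : Disjoint A S) (hw : w ⊆ S) {e : ℤ × ℤ} (he : e ∈ S)
    (ho : (e.1 + e.2) % 2 = 1) :
    ∃ w' ⊆ S, Swapped (nx (A ∪ w)) (nx (A ∪ w')) (in1 e) (in2 e) := by
  have heA : e ∉ A := fun h => disjoint_left.1 hd h he
  by_cases hn : e ∈ w
  · refine ⟨w.erase e, (erase_subset _ _).trans hw, ?_⟩
    have h1 : e ∉ A ∪ w.erase e := by
      rw [mem_union, not_or]; exact ⟨heA, notMem_erase e w⟩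
    have h2 := (swapped_insert (A ∪ w.erase e) e ho h1).symm
    have h3 : insert e (A ∪ w.erase e) = A ∪ w := by
      rw [← union_insert, insert_erase hn]
    rwa [h3] at h2
  · refine ⟨insert e w, insert_subset he hw, ?_⟩
    have h1 : e ∉ A ∪ w := by
      rw [mem_union, not_or]; exact ⟨heA, hn⟩
    have h2 := swapped_insert (A ∪ w) e ho h1
    rwa [← union_insert] at h2

/-- the corners with label `e` -/
lemma corner_of_lab {e z : ℤ × ℤ} (ho : (e.1 + e.2) % 2 = 1) (h : lab z = e) :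
    z = in1 e ∨ z = in2 e := (lab_eq_iff e z ho).1 h

open Classical in
/-- There is a configuration inside `S` for which the loop of `c` visits all corners of `S`. -/
theorem exists_full {A S : Finset (ℤ × ℤ)} (hS : TConn S) (hodd : ∀ e ∈ S, (e.1 + e.2) % 2 = 1)
    (hd : Disjoint A S) {c : ℤ × ℤ} (hc : lab c ∈ S) :
    ∃ w ⊆ S, ∀ z, lab z ∈ S → InOrb (nx (A ∪ w)) c z := by
  set T : Finset (ℤ × ℤ) := S.image in1 ∪ S.image in2 with hT
  have hTm : ∀ z, lab z ∈ S → z ∈ T := by
    intro z hz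
    rw [hT, mem_union, mem_image, mem_image]
    rcases corner_of_lab (hodd _ hz) rfl with h | h
    · exact Or.inl ⟨_, hz, h.symm⟩
    · exact Or.inr ⟨_, hz, h.symm⟩
  set N : Finset (ℤ × ℤ) → ℕ := fun w => (T.filter (fun z => InOrb (nx (A ∪ w)) c z)).card with hN
  obtain ⟨w, hw, hmax⟩ := exists_max_image S.powerset N ⟨∅, by simp⟩
  rw [mem_powerset] at hw
  refine ⟨w, hw, ?_⟩
  have hboth : ∀ e ∈ S, ∀ p q, ((p = in1 e ∧ q = in2 e) ∨ (p = in2 e ∧ q = in1 e)) →
      InOrb (nx (A ∪ w)) c p → InOrb (nx (A ∪ w)) c q := by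
    intro e he p q hpq hp
    by_contra hq
    have ho := hodd e he
    obtain ⟨w', hw', hsw⟩ := toggle_nx hd hw he ho
    have hsw' : Swapped (nx (A ∪ w)) (nx (A ∪ w')) p q := by
      rcases hpq with ⟨rfl, rfl⟩ | ⟨rfl, rfl⟩
      · exact hsw
      · exact hsw.comm
    have lq : lab q ∈ S := by
      rcases hpq with ⟨-, rfl⟩ | ⟨-, rfl⟩
      · rw [lab_in2 e ho]; exact he
      · rw [lab_in1 e ho]; exact he
    obtain ⟨L, hL⟩ := exists_orb_nx (A ∪ w) c
    obtain ⟨M, hM⟩ := exists_orb_nx (A ∪ w) q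
    obtain ⟨-, m2, m3, -⟩ := hsw'.merge hL hM hp hq
    have h1 : N w < N w' := by
      rw [hN]
      apply card_lt_card
      rw [ssubset_iff_of_subset]
      · refine ⟨q, mem_filter.2 ⟨hTm q lq, m2⟩, ?_⟩
        intro h
        exact hq (mem_filter.1 h).2
      · intro z hz
        rw [mem_filter] at hz ⊢
        exact ⟨hz.1, m3 z hz.2⟩
    have := hmax w' (mem_powerset.2 hw')
    omega
  have hall : ∀ e ∈ S, (∃ z, lab z = e ∧ InOrb (nx (A ∪ w)) c z) → ∀ z, lab z = e →
      InOrb (nx (A ∪ w)) c z := by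
    rintro e he ⟨z0, h0, h1⟩ z hz
    have ho := hodd e he
    rcases corner_of_lab ho h0 with h2 | h2 <;> rcases corner_of_lab ho hz with h3 | h3
    · rw [h3, ← h2]; exact h1
    · rw [h3]; exact hboth e he _ _ (Or.inl ⟨rfl, rfl⟩) (by rw [← h2]; exact h1)
    · rw [h3]; exact hboth e he _ _ (Or.inr ⟨rfl, rfl⟩) (by rw [← h2]; exact h1)
    · rw [h3, ← h2]; exact h1
  have hstep : ∀ a b, a ∈ S → b ∈ S → TAdj a b → (∀ z, lab z = a → InOrb (nx (A ∪ w)) c z) →
      ∀ z, lab z = b → InOrb (nx (A ∪ w)) c z := by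
    rintro a b ha hb ⟨z, ⟨h1, h2⟩ | ⟨h1, h2⟩⟩ h
    · have h3 := h (pv (A ∪ w) z) (by rw [lab_pv, h1])
      have h4 := inOrb_trans h3 (inOrb_nx (A ∪ w) _)
      rw [nx_pv] at h4
      exact hall b hb ⟨z, h2, h4⟩
    · have h3 := h z h1
      have h4 : InOrb (nx (A ∪ w)) c (pv (A ∪ w) z) := by
        have h5 := inOrb_nx (A ∪ w) (pv (A ∪ w) z)
        rw [nx_pv] at h5
        exact inOrb_trans h3 (inOrb_symm h5)
      exact hall b hb ⟨_, by rw [lab_pv, h2], h4⟩
  intro z hz
  have hreach := hS _ hc _ hz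
  have : ∀ b, Relation.ReflTransGen (fun x y => TAdj x y ∧ y ∈ S) (lab c) b →
      b ∈ S ∧ ∀ z, lab z = b → InOrb (nx (A ∪ w)) c z := by
    intro b hb
    induction hb with
    | refl => exact ⟨hc, hall _ hc ⟨c, rfl, ⟨0, rfl⟩⟩⟩
    | tail _ hbc ih => exact ⟨hbc.2, hstep _ _ ih.1 hbc.2 hbc.1 ih.2⟩
  exact (this _ hreach).2 z rfl

/-- **Uniqueness of the entrance.** -/
theorem entrance_unique {A S : Finset (ℤ × ℤ)} (hS : TConn S)
    (hodd : ∀ e ∈ S, (e.1 + e.2) % 2 = 1) (hd : Disjoint A S) {c c' : ℤ × ℤ}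
    (h1 : lab c ∈ S) (h2 : plab c ∉ S) (h1' : lab c' ∈ S) (h2' : plab c' ∉ S)
    (hv : Co A (vx c) (vx c')) (hf : DCo (A ∪ S) (fi c) (fi c')) : c = c' := by
  classical
  by_contra hne
  have hsame : ∀ w ⊆ S, InOrb (nx (A ∪ w)) c c' := by
    intro w hw
    obtain ⟨F, hF⟩ := hf.anti (union_subset_union_right hw)
    exact inOrb_of_co (A ∪ w) (hv.mono subset_union_left) hF
  obtain ⟨w, hw, hfull⟩ := exists_full hS hodd hd h1
  obtain ⟨L, hL⟩ := exists_orb_nx (A ∪ w) c
  set f := nx (A ∪ w) with hfdef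
  obtain ⟨m, hmL, hm⟩ := (hL.inOrb_iff c').1 (hsame w hw)
  have hm0 : 0 < m := by
    rcases Nat.eq_zero_or_pos m with h | h
    · subst h; exact absurd hm hne
    · exact h
  -- index is unique
  have uniq : ∀ {i j : ℕ}, i < L → j < L → f^[i] c = f^[j] c → i = j := by
    intro i j hi hj h
    rcases lt_trichotomy i j with h3 | h3 | h3
    · exact absurd h (hL.inj i j h3 hj)
    · exact h3
    · exact absurd h.symm (hL.inj j i h3 hi)
  -- the two corners of a label are on the same side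
  have hside : ∀ e ∈ S, ∀ p q, ((p = in1 e ∧ q = in2 e) ∨ (p = in2 e ∧ q = in1 e)) →
      ∀ a b, a < m → m ≤ b → b < L → f^[a] c = p → f^[b] c = q → False := by
    intro e he p q hpq a b ham hmb hbL ha hb
    have ho := hodd e he
    obtain ⟨w', hw', hsw⟩ := toggle_nx hd hw he ho
    have hsw' : Swapped f (nx (A ∪ w')) p q := by
      rcases hpq with ⟨rfl, rfl⟩ | ⟨rfl, rfl⟩
      · exact hsw
      · exact hsw.comm
    obtain ⟨g1, g2, g3⟩ := hsw'.split hL (by omega : a < b) hbL ha hb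
    obtain ⟨i, hi, hic⟩ := (g3.inOrb_iff c').1 (hsame w' hw')
    by_cases hia : i ≤ a
    · rw [g1 i hia, ← hm] at hic
      have := uniq (by omega) hmL hic
      omega
    · have e1 : i = a + 1 + (i - a - 1) := by omega
      rw [e1, g2 _ (by omega), ← hm] at hic
      have := uniq (by omega) hmL hic
      omega
  -- classes of labels
  have hcls : ∀ e ∈ S, (∀ z, lab z = e → ∃ i < m, f^[i] c = z) ∨
      (∀ z, lab z = e → ∃ i, m ≤ i ∧ i < L ∧ f^[i] c = z) := by
    intro e he
    have ho := hodd e he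
    have l1 := lab_in1 e ho
    have l2 := lab_in2 e ho
    obtain ⟨a, haL, ha⟩ := (hL.inOrb_iff (in1 e)).1 (hfull (in1 e) (by rw [l1]; exact he))
    obtain ⟨b, hbL, hb⟩ := (hL.inOrb_iff (in2 e)).1 (hfull (in2 e) (by rw [l2]; exact he))
    by_cases ham : a < m <;> by_cases hbm : b < m
    · left
      intro z hz
      rcases corner_of_lab ho hz with h | h
      · exact ⟨a, ham, by rw [ha, h]⟩
      · exact ⟨b, hbm, by rw [hb, h]⟩
    · exact (hside e he _ _ (Or.inl ⟨rfl, rfl⟩) a b ham (by omega) hbL ha hb).elim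
    · exact (hside e he _ _ (Or.inr ⟨rfl, rfl⟩) b a hbm (by omega) haL hb ha).elim
    · right
      intro z hz
      rcases corner_of_lab ho hz with h | h
      · exact ⟨a, by omega, haL, by rw [ha, h]⟩
      · exact ⟨b, by omega, hbL, by rw [hb, h]⟩
  have hex : ∀ e ∈ S, ∃ z, lab z = e := fun e he => ⟨in1 e, lab_in1 e (hodd e he)⟩
  have hreach := hS _ h1 _ h1'
  have key : ∀ b, Relation.ReflTransGen (fun x y => TAdj x y ∧ y ∈ S) (lab c) b →
      b ∈ S ∧ ∀ z, lab z = b → ∃ i < m, f^[i] c = z := by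
    intro b hb
    induction hb with
    | refl =>
      refine ⟨h1, ?_⟩
      rcases hcls _ h1 with h | h
      · exact h
      · obtain ⟨i, hi1, hi2, hi3⟩ := h c rfl
        have := uniq hi2 (by omega : 0 < L) (by rw [hi3]; rfl)
        omega
    | @tail a b _ hab ih =>
      obtain ⟨hTA, hb⟩ := hab
      obtain ⟨ha, iha⟩ := ih
      refine ⟨hb, ?_⟩
      rcases hcls b hb with h | h
      · exact h
      · exfalso
        obtain ⟨z, ⟨h3, h4⟩ | ⟨h3, h4⟩⟩ := hTA
        · -- `plab z = a`, `lab z = b`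
          obtain ⟨i, hi, hiz⟩ := iha (pv (A ∪ w) z) (by rw [lab_pv, h3])
          obtain ⟨j, hj1, hj2, hjz⟩ := h z h4
          have h5 : f^[i + 1] c = z := by
            rw [Function.iterate_succ_apply', hiz, hfdef, nx_pv]
          have h6 := uniq (by omega : i + 1 < L) hj2 (by rw [h5, hjz])
          have h7 : j = m := by omega
          rw [h7, hm] at hjz
          apply h2'
          rw [hjz, h3]; exact ha
        · -- `lab z = a`, `plab z = b`
          obtain ⟨i, hi, hiz⟩ := iha z h3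
          obtain ⟨j, hj1, hj2, hjz⟩ := h (pv (A ∪ w) z) (by rw [lab_pv, h4])
          have h5 : f^[j + 1] c = z := by
            rw [Function.iterate_succ_apply', hjz, hfdef, nx_pv]
          rcases Nat.lt_or_ge (j + 1) L with h6 | h6
          · have := uniq (by omega : i < L) h6 (by rw [h5, hiz])
            omega
          · have h7 : j + 1 = L := by omega
            rw [h7, hL.per] at h5
            apply h2
            rw [h5, h4]; exact hb
  obtain ⟨-, h3⟩ := key _ hreach
  obtain ⟨i, hi, hic⟩ := h3 c' rfl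
  have := uniq (by omega : i < L) hmL (by rw [hic, hm])
  omega

end Pool.Agent.Q1.M6c
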