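import Mathlib
import Pool.Agent.Q1.M6c.Flat
import Pool.Agent.Q1.M4.Dob

set_option autoImplicit false
open Finset

/-! The plane environments and the lattice domains of a type are plane-like; the flattened plane
environment is the plane environment with the walls `W ∪ O`. -/

namespace Pool.Agent.Q1

open Pool.Agent.H75.Perc Pool.Agent.H75.TwoArm Pool.Agent.H99.NC

namespace Env

section plane

variable {E W : Finset (ℤ × ℤ)} {c0 : ℤ × ℤ} {k0 : ℤ} {g : ℤ × ℤ}
    {hE : ∀ e ∈ E, (e.1 + e.2) % 2 = 1} {hd : Disjoint E W} {hk : k0 % 4 = ty c0}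
    {hroot : plab c0 ∉ E} {hg : DCo (E ∪ W) (fi c0) g}
    {hlow : ∀ v, Co (E ∪ W) (vx c0) v → g.2 < v.2}

/-- A plane environment is plane-like. -/
theorem planeLike_plane : (Env.plane E W c0 k0 g hE hd hk hroot hg hlow).PlaneLike W :=
  fun _ hω i => plane_z hω i

end plane

/-- Two environments with the same labels whose paths and indices agree have the same increments. -/
lemma inc_congr {X Y : Env} (hE : Y.E = X.E) (h : ∀ ω ⊆ X.E, ∀ c, Y.incO ω c = X.incO ω c)
    (c : ℤ × ℤ) : Y.inc c = X.inc c := by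
  rw [inc_eq, inc_eq, hE]
  exact Ec_congr fun ω hω => h ω hω c

/-- `incO` from paths and indices: if the paths, the lengths and the indices agree. -/
lemma incO_congr {X Y : Env} {ω ω' : Finset (ℤ × ℤ)} (hl : Y.len ω' = X.len ω)
    (hz : ∀ i, Y.z ω' i = X.z ω i) (hK : ∀ i, Y.K ω' i = X.K ω i) (c : ℤ × ℤ) :
    Y.incO ω' c = X.incO ω c := by
  unfold incO
  rw [hl]
  exact sum_congr rfl fun i _ => by rw [hz, hK]

section flatten

variable {E W F O : Finset (ℤ × ℤ)} {c0 : ℤ × ℤ} {k0 : ℤ} {g g' : ℤ × ℤ}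
    {hE : ∀ e ∈ E, (e.1 + e.2) % 2 = 1} {hd : Disjoint E W} {hk : k0 % 4 = ty c0}
    {hroot : plab c0 ∉ E} {hg : DCo (E ∪ W) (fi c0) g}
    {hlow : ∀ v, Co (E ∪ W) (vx c0) v → g.2 < v.2}
    {hE' : ∀ e ∈ E \ F, (e.1 + e.2) % 2 = 1} {hd' : Disjoint (E \ F) (W ∪ O)}
    {hroot' : plab c0 ∉ E \ F} {hg' : DCo ((E \ F) ∪ (W ∪ O)) (fi c0) g'}
    {hlow' : ∀ v, Co ((E \ F) ∪ (W ∪ O)) (vx c0) v → g'.2 < v.2}

/-- **The flattened plane environment is the plane environment with the walls `W ∪ O` and the labels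
`E \ F`**: same increments. -/
theorem flatten_plane_inc (hF : F ⊆ E) (hO : O ⊆ F) (c : ℤ × ℤ) :
    ((Env.plane E W c0 k0 g hE hd hk hroot hg hlow).flatten F O).inc c =
      (Env.plane (E \ F) (W ∪ O) c0 k0 g' hE' hd' hk hroot' hg' hlow').inc c := by
  refine inc_congr (by rw [flatten_E]; rfl) (fun ω hω c => ?_) c
  have hω1 : ω ⊆ E \ F := hω
  have hω2 : ω ⊆ (Env.plane E W c0 k0 g hE hd hk hroot hg hlow).E ∩
      ((Env.plane E W c0 k0 g hE hd hk hroot hg hlow).E \ F) := by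
    rw [plane_E]
    exact fun e he => mem_inter.2 ⟨(mem_sdiff.1 (hω1 he)).1, hω1 he⟩
  have hOi : O ∩ (E \ (E \ F)) = O := by
    refine inter_eq_left.2 fun e he => ?_
    exact mem_sdiff.2 ⟨hF (hO he), fun h => (mem_sdiff.1 h).2 (hO he)⟩
  have hs : ω ∪ O ⊆ E := union_subset (hω1.trans sdiff_subset) (hO.trans hF)
  have e1 : ω ∪ O ∪ W = ω ∪ (W ∪ O) := by
    rw [union_assoc, union_comm O W]
  symm
  refine incO_congr ?_ ?_ ?_ c
  · unfold flatten
    rw [freeze_len hω2, plane_E, hOi, plane_len hω1, plane_len hs, e1]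
  · intro i
    unfold flatten
    rw [freeze_z hω2, plane_E, hOi, plane_z hω1, plane_z hs, e1]
  · intro i
    unfold flatten
    rw [freeze_K hω2, plane_E, hOi, plane_K hω1, plane_K hs, e1]

end flatten

end Env


/-- The environment of a type is plane-like. -/
theorem planeLike_dob (P : Pool.Agent.Q1.M4.PType) {X Y : ℤ → ℤ} (hX : StrictMono X)
    (hY : StrictMono Y) :
    (Dob.dob P hX hY).PlaneLike (Pool.Agent.Q1.M5.WL P X Y) :=
  fun _ hω i => Dob.dob_z hω i

end Pool.Agent.Q1
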