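import Mathlib
import Pool.Agent.Q1.M6c.Dob

set_option autoImplicit false
open Finset

/-! # Topology around a box of labels

Tile neighbours, ends and faces of neighbouring labels; paths of labels outside a box to infinity; the
faces outside a box are dual connected. -/

namespace Pool.Agent.Q1.M6c

open Pool.Agent.H75.Perc Pool.Agent.H75.TwoArm Pool.Agent.H69.Q1
open Pool.Agent.Q1.Env (TConn TAdj)
open Pool.Agent.H75.TwoArm.StrandAux hiding vx_nxC

/-! ### Ends and faces of labels -/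

/-- all ends of the label `e` are joined to `v0` -/
def EndsCo (W : Finset (ℤ × ℤ)) (v0 e : ℤ × ℤ) : Prop := ∀ z, lab z = e → Co W v0 (vx z)

/-- all faces of the label `e` are joined to `f0` -/
def FacesDCo (A : Finset (ℤ × ℤ)) (f0 e : ℤ × ℤ) : Prop := ∀ z, lab z = e → DCo A f0 (fi z)

lemma vx_same_lab {y z : ℤ × ℤ} (h : lab z = lab y) : vx z = vx y ∨ vx z = vx (nxO y) := by
  have h5 := vx_nxO y
  have h8 := vx_nxO z
  have e1 : vx z + vx (nxO z) = vx y + vx (nxO y) := by rw [h8.2, h5.2, h]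
  rcases ends_of_add h8.1 rfl with ⟨g1, g2⟩ | ⟨g1, g2⟩ <;>
    rcases ends_of_add h5.1 e1.symm with ⟨g3, g4⟩ | ⟨g3, g4⟩
  · left; rw [g1, g3]
  · right; rw [g1, g4]
  · right; rw [g1, g4]
  · left; rw [g1, g3]

lemma fi_same_lab {y z : ℤ × ℤ} (h : lab z = lab y) : fi z = fi y ∨ fi z = fi (nxC y) := by
  have g1 := fi_nxC z
  have g2 := fi_nxC y
  have e1 : fi z + fi (nxC z) = fi y + fi (nxC y) := by rw [g1.2, g2.2, h]
  rcases ends_of_add g1.1 rfl with ⟨k1, k2⟩ | ⟨k1, k2⟩ <;>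
    rcases ends_of_add g2.1 e1.symm with ⟨k3, k4⟩ | ⟨k3, k4⟩
  · left; rw [k1, k3]
  · right; rw [k1, k4]
  · right; rw [k1, k4]
  · left; rw [k1, k3]

lemma co_nxO {W : Finset (ℤ × ℤ)} {y : ℤ × ℤ} (h : lab y ∈ W) : Co W (vx y) (vx (nxO y)) := by
  have h5 := vx_nxO y
  exact Relation.ReflTransGen.single ⟨h5.1, by rw [h5.2]; exact h⟩

lemma dco_nxC {A : Finset (ℤ × ℤ)} {y : ℤ × ℤ} (h : lab y ∉ A) : DCo A (fi y) (fi (nxC y)) := by
  have h6 := fi_nxC y
  refine DCo.step h6.1 ?_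
  have e1 : fi y + fi (nxC y) - (1, 1) = lab y := by rw [h6.2]; exact add_sub_cancel_right _ _
  rw [e1]; exact h

lemma endsCo_of {W : Finset (ℤ × ℤ)} {v0 y : ℤ × ℤ} (hy : lab y ∈ W) (h : Co W v0 (vx y)) :
    EndsCo W v0 (lab y) := by
  intro z hz
  rcases vx_same_lab hz with h1 | h1
  · rw [h1]; exact h
  · rw [h1]; exact h.trans (co_nxO hy)

lemma facesDCo_of {A : Finset (ℤ × ℤ)} {f0 y : ℤ × ℤ} (hy : lab y ∉ A) (h : DCo A f0 (fi y)) :
    FacesDCo A f0 (lab y) := by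
  intro z hz
  rcases fi_same_lab hz with h1 | h1
  · rw [h1]; exact h
  · rw [h1]; exact h.trans (dco_nxC hy)

lemma EndsCo.plab {W : Finset (ℤ × ℤ)} {v0 z : ℤ × ℤ} (h : EndsCo W v0 (plab z)) :
    Co W v0 (vx z) := by
  obtain ⟨z', h1, h2⟩ := pv_empty_nxC z
  have h3 := h z' h1
  rw [← h2, vx_nxC]; exact h3

lemma FacesDCo.plab {A : Finset (ℤ × ℤ)} {f0 z : ℤ × ℤ} (h : FacesDCo A f0 (plab z)) :
    DCo A f0 (fi z) := by
  obtain ⟨z', h1, h2⟩ := pv_full_nxO z
  have h3 := h z' h1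
  rw [← h2, fi_nxO]; exact h3

lemma endsCo_of_plab {W : Finset (ℤ × ℤ)} {v0 z : ℤ × ℤ} (hz : plab z ∈ W) (h : Co W v0 (vx z)) :
    EndsCo W v0 (plab z) := by
  obtain ⟨z', h1, h2⟩ := pv_empty_nxC z
  rw [← h1] at hz ⊢
  exact endsCo_of hz (by rw [← h2, vx_nxC] at h; exact h)

lemma facesDCo_of_plab {A : Finset (ℤ × ℤ)} {f0 z : ℤ × ℤ} (hz : plab z ∉ A)
    (h : DCo A f0 (fi z)) : FacesDCo A f0 (plab z) := by
  obtain ⟨z', h1, h2⟩ := pv_full_nxO z
  rw [← h1] at hz ⊢
  exact facesDCo_of hz (by rw [← h2, fi_nxO] at h; exact h)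

lemma EndsCo.tadj {W : Finset (ℤ × ℤ)} {v0 e e' : ℤ × ℤ} (h : EndsCo W v0 e) (ha : TAdj e e')
    (he' : e' ∈ W) : EndsCo W v0 e' := by
  obtain ⟨c, ⟨h1, h2⟩ | ⟨h1, h2⟩⟩ := ha
  · subst h1; subst h2
    exact endsCo_of he' h.plab
  · subst h1; subst h2
    exact endsCo_of_plab he' (h c rfl)

lemma FacesDCo.tadj {A : Finset (ℤ × ℤ)} {f0 e e' : ℤ × ℤ} (h : FacesDCo A f0 e) (ha : TAdj e e')
    (he' : e' ∉ A) : FacesDCo A f0 e' := by
  obtain ⟨c, ⟨h1, h2⟩ | ⟨h1, h2⟩⟩ := ha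
  · subst h1; subst h2
    exact facesDCo_of he' h.plab
  · subst h1; subst h2
    exact facesDCo_of_plab he' (h c rfl)

lemma TAdj.symm' {e e' : ℤ × ℤ} (h : TAdj e e') : TAdj e' e := by
  obtain ⟨c, h | h⟩ := h
  · exact ⟨c, Or.inr ⟨h.2, h.1⟩⟩
  · exact ⟨c, Or.inl ⟨h.2, h.1⟩⟩

/-! ### Tile neighbours are the diagonal neighbours -/

lemma lab_plab_corner (a b : ℤ) :
    (lab (a, b) = (a, b) ∧ plab (a, b) = (a - 1, b - 1) ∨
     lab (a, b) = (a - 1, b - 1) ∧ plab (a, b) = (a, b)) ∧ (a + b) % 2 = 1 ∨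
    (lab (a, b) = (a - 1, b) ∧ plab (a, b) = (a, b - 1) ∨
     lab (a, b) = (a, b - 1) ∧ plab (a, b) = (a - 1, b)) ∧ (a + b) % 2 = 0 := by
  unfold lab plab
  simp only
  have h1 : a % 2 = 0 ∨ a % 2 = 1 := by omega
  have h2 : b % 2 = 0 ∨ b % 2 = 1 := by omega
  rcases h1 with h1 | h1 <;> rcases h2 with h2 | h2 <;> simp [h1, h2] <;> omega

lemma tadj_pp {x y : ℤ} (h : (x + y) % 2 = 1) : TAdj (x, y) (x + 1, y + 1) := by
  rcases lab_plab_corner (x + 1) (y + 1) with ⟨h1, h2⟩ | ⟨h1, h2⟩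
  · rcases h1 with ⟨h1, h3⟩ | ⟨h1, h3⟩
    · refine ⟨(x + 1, y + 1), Or.inl ⟨?_, h1⟩⟩
      rw [h3]; simp
    · refine ⟨(x + 1, y + 1), Or.inr ⟨?_, h3⟩⟩
      rw [h1]; simp
  · omega

lemma tadj_pm {x y : ℤ} (h : (x + y) % 2 = 1) : TAdj (x, y) (x + 1, y - 1) := by
  rcases lab_plab_corner (x + 1) y with ⟨h1, h2⟩ | ⟨h1, h2⟩
  · omega
  · rcases h1 with ⟨h1, h3⟩ | ⟨h1, h3⟩
    · refine ⟨(x + 1, y), Or.inr ⟨?_, h3⟩⟩
      rw [h1]; simp
    · refine ⟨(x + 1, y), Or.inl ⟨?_, h1⟩⟩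
      rw [h3]; simp

lemma tadj_mp {x y : ℤ} (h : (x + y) % 2 = 1) : TAdj (x, y) (x - 1, y + 1) := by
  have := TAdj.symm' (tadj_pm (x := x - 1) (y := y + 1) (by omega))
  simpa using this

lemma tadj_mm {x y : ℤ} (h : (x + y) % 2 = 1) : TAdj (x, y) (x - 1, y - 1) := by
  have := TAdj.symm' (tadj_pp (x := x - 1) (y := y - 1) (by omega))
  simpa using this

/-- **From every label outside a box there is a path of labels outside the box to infinity.** -/
theorem path_out {a b c d : ℤ} {l : ℤ × ℤ} (hl : (l.1 + l.2) % 2 = 1) (h : l ∉ Bx a b c d) (M : ℤ) :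
    ∃ (n : ℕ) (s : ℕ → ℤ × ℤ), s 0 = l ∧ (∀ k < n, TAdj (s k) (s (k + 1))) ∧
      (∀ k ≤ n, ((s k).1 + (s k).2) % 2 = 1 ∧ s k ∉ Bx a b c d) ∧
      (M < |(s n).1| ∨ M < |(s n).2|) := by
  obtain ⟨x, y⟩ := l
  simp only at hl
  have hcase : x < 2 * a ∨ 2 * b < x ∨ y < 2 * c ∨ 2 * d < y := by
    by_contra hcon
    push Not at hcon
    apply h
    rw [mem_Bx]
    exact ⟨⟨by omega, by omega⟩, ⟨by omega, by omega⟩, hl⟩
  -- zigzag
  rcases hcase with h1 | h1 | h1 | h1
  · refine ⟨(|M| + |x| + 1).toNat, fun k => (x - k, y + (k : ℤ) % 2), by simp, ?_, ?_, ?_⟩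
    · intro k _
      have e1 : ((k + 1 : ℕ) : ℤ) = (k : ℤ) + 1 := by push_cast; ring
      rcases Int.emod_two_eq_zero_or_one (k : ℤ) with h2 | h2
      · have h3 : ((k : ℤ) + 1) % 2 = 1 := by omega
        have := tadj_mp (x := x - k) (y := y + (k : ℤ) % 2) (by omega)
        convert this using 1
        beta_reduce; rw [e1, h2, h3]
        refine Prod.ext ?_ ?_ <;> simp; ring
      · have h3 : ((k : ℤ) + 1) % 2 = 0 := by omega
        have := tadj_mm (x := x - k) (y := y + (k : ℤ) % 2) (by omega)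
        convert this using 1
        beta_reduce; rw [e1, h2, h3]
        refine Prod.ext ?_ ?_ <;> simp; ring
    · intro k _
      refine ⟨?_, ?_⟩
      · simp only; omega
      · rw [mem_Bx]; simp only; omega
    · left
      simp only
      rcases abs_cases M with h2 | h2 <;> rcases abs_cases x with h3 | h3 <;>
        rw [Int.toNat_of_nonneg (by omega)] <;> (rw [lt_abs]; omega)
  · refine ⟨(|M| + |x| + 1).toNat, fun k => (x + k, y + (k : ℤ) % 2), by simp, ?_, ?_, ?_⟩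
    · intro k _
      have e1 : ((k + 1 : ℕ) : ℤ) = (k : ℤ) + 1 := by push_cast; ring
      rcases Int.emod_two_eq_zero_or_one (k : ℤ) with h2 | h2
      · have h3 : ((k : ℤ) + 1) % 2 = 1 := by omega
        have := tadj_pp (x := x + k) (y := y + (k : ℤ) % 2) (by omega)
        convert this using 1
        beta_reduce; rw [e1, h2, h3]
        refine Prod.ext ?_ ?_ <;> simp; ring
      · have h3 : ((k : ℤ) + 1) % 2 = 0 := by omega
        have := tadj_pm (x := x + k) (y := y + (k : ℤ) % 2) (by omega)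
        convert this using 1
        beta_reduce; rw [e1, h2, h3]
        refine Prod.ext ?_ ?_ <;> simp; ring
    · intro k _
      refine ⟨?_, ?_⟩
      · simp only; omega
      · rw [mem_Bx]; simp only; omega
    · left
      simp only
      rcases abs_cases M with h2 | h2 <;> rcases abs_cases x with h3 | h3 <;>
        rw [Int.toNat_of_nonneg (by omega)] <;> (rw [lt_abs]; omega)
  · refine ⟨(|M| + |y| + 1).toNat, fun k => (x + (k : ℤ) % 2, y - k), by simp, ?_, ?_, ?_⟩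
    · intro k _
      have e1 : ((k + 1 : ℕ) : ℤ) = (k : ℤ) + 1 := by push_cast; ring
      rcases Int.emod_two_eq_zero_or_one (k : ℤ) with h2 | h2
      · have h3 : ((k : ℤ) + 1) % 2 = 1 := by omega
        have := tadj_pm (x := x + (k : ℤ) % 2) (y := y - k) (by omega)
        convert this using 1
        beta_reduce; rw [e1, h2, h3]
        refine Prod.ext ?_ ?_ <;> simp; ring
      · have h3 : ((k : ℤ) + 1) % 2 = 0 := by omega
        have := tadj_mm (x := x + (k : ℤ) % 2) (y := y - k) (by omega)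
        convert this using 1
        beta_reduce; rw [e1, h2, h3]
        refine Prod.ext ?_ ?_ <;> simp; ring
    · intro k _
      refine ⟨?_, ?_⟩
      · simp only; omega
      · rw [mem_Bx]; simp only; omega
    · right
      simp only
      rcases abs_cases M with h2 | h2 <;> rcases abs_cases y with h3 | h3 <;>
        rw [Int.toNat_of_nonneg (by omega)] <;> (rw [lt_abs]; omega)
  · refine ⟨(|M| + |y| + 1).toNat, fun k => (x + (k : ℤ) % 2, y + k), by simp, ?_, ?_, ?_⟩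
    · intro k _
      have e1 : ((k + 1 : ℕ) : ℤ) = (k : ℤ) + 1 := by push_cast; ring
      rcases Int.emod_two_eq_zero_or_one (k : ℤ) with h2 | h2
      · have h3 : ((k : ℤ) + 1) % 2 = 1 := by omega
        have := tadj_pp (x := x + (k : ℤ) % 2) (y := y + k) (by omega)
        convert this using 1
        beta_reduce; rw [e1, h2, h3]
        refine Prod.ext ?_ ?_ <;> simp; ring
      · have h3 : ((k : ℤ) + 1) % 2 = 0 := by omega
        have := tadj_mp (x := x + (k : ℤ) % 2) (y := y + k) (by omega)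
        convert this using 1
        beta_reduce; rw [e1, h2, h3]
        refine Prod.ext ?_ ?_ <;> simp; ring
    · intro k _
      refine ⟨?_, ?_⟩
      · simp only; omega
      · rw [mem_Bx]; simp only; omega
    · right
      simp only
      rcases abs_cases M with h2 | h2 <;> rcases abs_cases y with h3 | h3 <;>
        rw [Int.toNat_of_nonneg (by omega)] <;> (rw [lt_abs]; omega)

/-! ### Faces outside a box -/

/-- the face `f` is not inside the box -/
def Outer (a b c d : ℤ) (f : ℤ × ℤ) : Prop := f.1 ≤ a ∨ b + 1 ≤ f.1 ∨ f.2 ≤ c ∨ d + 1 ≤ f.2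

lemma dco_vert' {w : Finset (ℤ × ℤ)} {i j j' : ℤ}
    (h : ∀ k : ℤ, ((2 * i - 1, 2 * k) : ℤ × ℤ) ∉ w) : DCo w (i, j) (i, j') := by
  rcases le_total j j' with h1 | h1
  · obtain ⟨n, hn⟩ := Int.le.dest h1
    rw [← hn]; exact dco_vert n fun k _ _ => h k
  · obtain ⟨n, hn⟩ := Int.le.dest h1
    rw [← hn]; exact (dco_vert n fun k _ _ => h k).symm

theorem dco_outer {a b c d : ℤ} {f g : ℤ × ℤ} (hf : Outer a b c d f) (hg : Outer a b c d g) :
    DCo (Bx a b c d) f g := by
  have key : ∀ f : ℤ × ℤ, Outer a b c d f → DCo (Bx a b c d) f (a, c) := by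
    rintro ⟨i, j⟩ h
    have hrow : ∀ i i' j, (j ≤ c ∨ d + 1 ≤ j) → DCo (Bx a b c d) (i, j) (i', j) := by
      intro i i' j hj
      refine dco_horiz' fun k hk => ?_
      rw [mem_Bx] at hk
      simp only at hk
      omega
    have hcol : ∀ i j j', (i ≤ a ∨ b + 1 ≤ i) → DCo (Bx a b c d) (i, j) (i, j') := by
      intro i j j' hj
      refine dco_vert' fun k hk => ?_
      rw [mem_Bx] at hk
      simp only at hk
      omega
    unfold Outer at h
    simp only at h
    rcases h with h | h | h | h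
    · exact (hcol i j c (Or.inl h)).trans (hrow i a c (Or.inl le_rfl))
    · exact (hcol i j c (Or.inr h)).trans (hrow i a c (Or.inl le_rfl))
    · exact (hrow i a j (Or.inl h)).trans (hcol a j c (Or.inl le_rfl))
    · exact (hrow i a j (Or.inr h)).trans (hcol a j c (Or.inl le_rfl))
  exact (key f hf).trans (key g hg).symm

lemma outer_of_lab {a b c d : ℤ} {z : ℤ × ℤ} (h : lab z ∉ Bx a b c d) : Outer a b c d (fi z) := by
  have ho := odd_lab z
  rw [mem_Bx] at h
  unfold Outer fi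
  simp only
  rcases ty_cases z with ⟨-, h1, h2, h3, -⟩ | ⟨-, h1, h2, h3, -⟩ | ⟨-, h1, h2, h3, -⟩ |
      ⟨-, h1, h2, h3, -⟩ <;> rw [h3] at h ho <;> simp only at h ho <;> omega

lemma outer_of_plab {a b c d : ℤ} {z : ℤ × ℤ} (h : plab z ∉ Bx a b c d) :
    Outer a b c d (fi z) := by
  obtain ⟨z', h1, h2⟩ := pv_full_nxO z
  rw [← h2, fi_nxO]
  exact outer_of_lab (by rw [h1]; exact h)

/-- vertices of a box are joined by its labels -/
theorem co_Bx {a b c d : ℤ} {u v : ℤ × ℤ} (hu : inB a b c d u) (hv : inB a b c d v) :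
    Co (Bx a b c d) u v := by
  have hor : ∀ (n : ℕ) (x y : ℤ), a ≤ x → x + n ≤ b → c ≤ y → y ≤ d →
      Co (Bx a b c d) (x, y) (x + n, y) := by
    intro n
    induction n with
    | zero => intro x y _ _ _ _; simpa using Co.refl _ _
    | succ n ih =>
      intro x y h1 h2 h3 h4
      push_cast at h2
      refine (ih x y h1 (by omega) h3 h4).trans (Relation.ReflTransGen.single ⟨?_, ?_⟩)
      · left
        refine Prod.ext ?_ ?_
        · simp only [Prod.fst_sub]; push_cast; ring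
        · simp
      · rw [mem_Bx]
        simp only [Prod.fst_add, Prod.snd_add]
        push_cast
        omega
  have ver : ∀ (n : ℕ) (x y : ℤ), a ≤ x → x ≤ b → c ≤ y → y + n ≤ d →
      Co (Bx a b c d) (x, y) (x, y + n) := by
    intro n
    induction n with
    | zero => intro x y _ _ _ _; simpa using Co.refl _ _
    | succ n ih =>
      intro x y h1 h2 h3 h4
      push_cast at h4
      refine (ih x y h1 h2 h3 (by omega)).trans (Relation.ReflTransGen.single ⟨?_, ?_⟩)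
      · right; left
        refine Prod.ext ?_ ?_
        · simp
        · simp only [Prod.snd_sub]; push_cast; ring
      · rw [mem_Bx]
        simp only [Prod.fst_add, Prod.snd_add]
        push_cast
        omega
  have key : ∀ u : ℤ × ℤ, inB a b c d u → Co (Bx a b c d) (a, c) u := by
    rintro ⟨x, y⟩ ⟨⟨h1, h2⟩, h3, h4⟩
    simp only at h1 h2 h3 h4
    obtain ⟨n, hn⟩ := Int.eq_ofNat_of_zero_le (show 0 ≤ x - a by omega)
    obtain ⟨m, hm⟩ := Int.eq_ofNat_of_zero_le (show 0 ≤ y - c by omega)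
    have e1 : x = a + n := by omega
    have e2 : y = c + m := by omega
    rw [e1, e2]
    exact (hor n a c le_rfl (by omega) le_rfl (by omega)).trans
      (ver m (a + n) c (by omega) (by omega) le_rfl (by omega))
  exact (key u hu).symm.trans (key v hv)

/-- the labels of a box have their ends in the box -/
lemma vx_mem_box {a b c d : ℤ} {z : ℤ × ℤ} (h : lab z ∈ Bx a b c d) : inB a b c d (vx z) :=
  inB_of_lab h

lemma vx_mem_box' {a b c d : ℤ} {z : ℤ × ℤ} (h : plab z ∈ Bx a b c d) : inB a b c d (vx z) := by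
  obtain ⟨z', h1, h2⟩ := pv_empty_nxC z
  rw [← h2, vx_nxC]
  exact inB_of_lab (by rw [h1]; exact h)

/-- a vertex of the box with a label outside is on the boundary of the box -/
lemma vx_bdry {a b c d : ℤ} {z : ℤ × ℤ} (h : inB a b c d (vx z)) (h' : plab z ∉ Bx a b c d) :
    (vx z).1 = a ∨ (vx z).1 = b ∨ (vx z).2 = c ∨ (vx z).2 = d := by
  obtain ⟨z', h1, h2⟩ := pv_empty_nxC z
  rw [← h2, vx_nxC] at h ⊢
  rw [← h1] at h'
  have ho := odd_lab z'
  rw [mem_Bx] at h'
  unfold inB at h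
  unfold vx at h ⊢
  simp only at h ⊢
  rcases ty_cases z' with ⟨-, k1, k2, k3, -⟩ | ⟨-, k1, k2, k3, -⟩ | ⟨-, k1, k2, k3, -⟩ |
      ⟨-, k1, k2, k3, -⟩ <;> rw [k3] at h' ho <;> simp only at h' ho <;> omega

end Pool.Agent.Q1.M6c
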