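import Mathlib
import Pool.Agent.Q1.M6c.Dob
import Pool.Agent.Q1.M4.Inputs

set_option autoImplicit false
open Finset

/-! # Differences of the primitive as linear functions of the increments

`X.D u v`: sum of the edge differences along the horizontal, then vertical path from `u` to `v`. If the
labels of a box containing `u`, `v` are random, this is `Hv v - Hv u` for every primitive on the box.
`mm N`: the supremum of `‖X.D u v‖` over all plane environments with a free box of half-size `N`, `u`,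
`v` in its quarter. -/

namespace Pool.Agent.Q1

open Pool.Agent.H75.Perc Pool.Agent.H75.TwoArm Pool.Agent.H99.NC

namespace Env

/-- difference of the primitive along a horizontal edge -/
noncomputable def hst (X : Env) (x y : ℤ) : ℂ := X.inc (2 * x + 2, 2 * y) - X.inc (2 * x + 1, 2 * y)

/-- difference of the primitive along a vertical edge -/
noncomputable def vst (X : Env) (x y : ℤ) : ℂ := X.inc (2 * x, 2 * y + 2) - X.inc (2 * x, 2 * y + 1)

/-- horizontal difference -/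
noncomputable def hsm (X : Env) (y x1 x2 : ℤ) : ℂ :=
  ∑ i ∈ Ico x1 x2, X.hst i y - ∑ i ∈ Ico x2 x1, X.hst i y

/-- vertical difference -/
noncomputable def vsm (X : Env) (x y1 y2 : ℤ) : ℂ :=
  ∑ i ∈ Ico y1 y2, X.vst x i - ∑ i ∈ Ico y2 y1, X.vst x i

/-- difference from `u` to `v` along the path first horizontal, then vertical -/
noncomputable def D (X : Env) (u v : ℤ × ℤ) : ℂ := X.hsm u.2 u.1 v.1 + X.vsm v.1 u.2 v.2

lemma tele_Ico {u : ℤ → ℂ} {f : ℤ → ℂ} {a : ℤ} (n : ℕ)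
    (h : ∀ i, a ≤ i → i < a + n → u i = f (i + 1) - f i) :
    ∑ i ∈ Ico a (a + n), u i = f (a + n) - f a := by
  induction n with
  | zero => simp
  | succ n ih =>
    have e : a + ((n + 1 : ℕ) : ℤ) = (a + n) + 1 := by push_cast; ring
    rw [e, sum_Ico_int _ (by omega), ih (fun i h1 h2 => h i h1 (by push_cast; omega)),
      h (a + n) (by omega) (by push_cast; omega)]
    ring

lemma tele_Ico' {u : ℤ → ℂ} {f : ℤ → ℂ} {a b : ℤ}
    (h : ∀ i, min a b ≤ i → i < max a b → u i = f (i + 1) - f i) :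
    ∑ i ∈ Ico a b, u i - ∑ i ∈ Ico b a, u i = f b - f a := by
  rcases le_total a b with hab | hab
  · obtain ⟨n, hn⟩ := Int.eq_ofNat_of_zero_le (show 0 ≤ b - a by omega)
    have e : b = a + n := by omega
    have e2 : Ico b a = ∅ := Ico_eq_empty (by omega)
    rw [e2, sum_empty, sub_zero, e]
    exact tele_Ico n fun i h1 h2 => h i (by omega) (by omega)
  · obtain ⟨n, hn⟩ := Int.eq_ofNat_of_zero_le (show 0 ≤ a - b by omega)
    have e : a = b + n := by omega
    have e2 : Ico a b = ∅ := Ico_eq_empty (by omega)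
    rw [e2, sum_empty, e, tele_Ico (f := f) n fun i h1 h2 => h i (by omega) (by omega)]
    ring

/-- **`D` is the difference of the primitive.** -/
theorem D_prim {X : Env} {a b c d : ℤ} {Hv Hf : ℤ × ℤ → ℂ} (h : X.Prim a b c d Hv Hf)
    {u v : ℤ × ℤ} (hu : inB a b c d u) (hv : inB a b c d v) : X.D u v = Hv v - Hv u := by
  obtain ⟨⟨u1, u2⟩, u3, u4⟩ := hu
  obtain ⟨⟨v1, v2⟩, v3, v4⟩ := hv
  have e1 : X.hsm u.2 u.1 v.1 = Hv (v.1, u.2) - Hv (u.1, u.2) := by
    unfold hsm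
    refine tele_Ico' (f := fun i => Hv (i, u.2)) fun i h1 h2 => ?_
    exact (h.hor (by omega) (by omega) u3 u4).symm
  have e2 : X.vsm v.1 u.2 v.2 = Hv (v.1, v.2) - Hv (v.1, u.2) := by
    unfold vsm
    refine tele_Ico' (f := fun i => Hv (v.1, i)) fun i h1 h2 => ?_
    exact (h.ver v1 v2 (by omega) (by omega)).symm
  unfold D
  rw [e1, e2]
  ring

/-- inside a free box `D` is additive -/
theorem D_add {X : Env} {a b c d : ℤ} (h : Bx a b c d ⊆ X.E) {u v w : ℤ × ℤ}
    (hu : inB a b c d u) (hv : inB a b c d v) (hw : inB a b c d w) :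
    X.D u v + X.D v w = X.D u w := by
  obtain ⟨Hv, Hf, hP⟩ := X.exists_prim h
  rw [D_prim hP hu hv, D_prim hP hv hw, D_prim hP hu hw]
  ring

theorem D_symm {X : Env} {a b c d : ℤ} (h : Bx a b c d ⊆ X.E) {u v : ℤ × ℤ}
    (hu : inB a b c d u) (hv : inB a b c d v) : X.D v u = - X.D u v := by
  obtain ⟨Hv, Hf, hP⟩ := X.exists_prim h
  rw [D_prim hP hu hv, D_prim hP hv hu]
  ring

lemma D_self (X : Env) (u : ℤ × ℤ) : X.D u u = 0 := by
  unfold D hsm vsm
  simp

/-- **`D` is linear in the increments**: averages. -/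
theorem D_avg {X : Env} {α : Type*} [DecidableEq α] {q : α → ℂ} {A : Finset α}
    {Y : Finset α → Env} (h : ∀ c, X.inc c = Ec q A (fun ω => (Y ω).inc c)) (u v : ℤ × ℤ) :
    X.D u v = Ec q A (fun ω => (Y ω).D u v) := by
  have hh : ∀ x y, X.hst x y = Ec q A (fun ω => (Y ω).hst x y) := by
    intro x y
    unfold hst
    rw [Ec_sub, h, h]
  have hv : ∀ x y, X.vst x y = Ec q A (fun ω => (Y ω).vst x y) := by
    intro x y
    unfold vst
    rw [Ec_sub, h, h]
  unfold D hsm vsm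
  rw [Ec_add, Ec_sub, Ec_sub, Ec_sum, Ec_sum, Ec_sum, Ec_sum]
  simp only [hh, hv]

/-- the differences are averages over the coins outside a set -/
theorem D_freeze (X : Env) (E' : Finset (ℤ × ℤ)) (u v : ℤ × ℤ) :
    X.D u v = Ec (fun _ => (1 / 2 : ℂ)) (X.E \ E') (fun ω => (X.freeze E' ω).D u v) :=
  D_avg (fun c => X.inc_freeze E' c) u v

/-- the differences are averages over the explored labels -/
theorem D_rev (X : Env) (P : ℤ × ℤ → Prop) (u v : ℤ × ℤ) :
    X.D u v = Ec (fun _ => (1 / 2 : ℂ)) X.E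
      (fun ω => (X.freeze (X.E \ X.rev P ω) ω).D u v) :=
  D_avg (fun c => X.inc_rev P c) u v

/-- equal (proportional) increments at the corners of a box give equal differences -/
theorem D_congr {X Y : Env} {a b c d : ℤ} {ζ : ℂ} (h : ∀ z, InBx a b c d z → Y.inc z = ζ * X.inc z)
    {u v : ℤ × ℤ} (hu : inB a b c d u) (hv : inB a b c d v) : Y.D u v = ζ * X.D u v := by
  obtain ⟨⟨u1, u2⟩, u3, u4⟩ := hu
  obtain ⟨⟨v1, v2⟩, v3, v4⟩ := hv
  have e1 : Y.hsm u.2 u.1 v.1 = ζ * X.hsm u.2 u.1 v.1 := by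
    unfold hsm hst
    rw [mul_sub, mul_sum, mul_sum]
    congr 1 <;> refine sum_congr rfl fun i hi => ?_
    all_goals
      rw [mem_Ico] at hi
      rw [h _ (inBx_h2 (by omega) (by omega) u3 u4), h _ (inBx_h1 (by omega) (by omega) u3 u4)]
      ring
  have e2 : Y.vsm v.1 u.2 v.2 = ζ * X.vsm v.1 u.2 v.2 := by
    unfold vsm vst
    rw [mul_sub, mul_sum, mul_sum]
    congr 1 <;> refine sum_congr rfl fun i hi => ?_
    all_goals
      rw [mem_Ico] at hi
      rw [h _ (inBx_v1 v1 v2 (by omega) (by omega)), h _ (inBx_v2 v1 v2 (by omega) (by omega))]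
      ring
  unfold D
  rw [e1, e2]
  ring

theorem D_zero {X : Env} {a b c d : ℤ} (h : ∀ z, InBx a b c d z → X.inc z = 0)
    {u v : ℤ × ℤ} (hu : inB a b c d u) (hv : inB a b c d v) : X.D u v = 0 := by
  have := D_congr (X := X) (Y := X) (ζ := 0) (fun z hz => by rw [h z hz, mul_zero]) hu hv
  rw [zero_mul] at this
  exact this

/-- trivial bound -/
theorem D_norm_le (X : Env) (u v : ℤ × ℤ) : ‖X.D u v‖ ≤ 2 * (|v.1 - u.1| + |v.2 - u.2| : ℤ) := by
  have hst1 : ∀ x y, ‖X.hst x y‖ ≤ 2 := fun x y => by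
    unfold hst
    refine (norm_sub_le _ _).trans ?_
    linarith [X.inc_norm_le_one (2 * x + 2, 2 * y), X.inc_norm_le_one (2 * x + 1, 2 * y)]
  have vst1 : ∀ x y, ‖X.vst x y‖ ≤ 2 := fun x y => by
    unfold vst
    refine (norm_sub_le _ _).trans ?_
    linarith [X.inc_norm_le_one (2 * x, 2 * y + 2), X.inc_norm_le_one (2 * x, 2 * y + 1)]
  have key : ∀ (w : ℤ → ℂ), (∀ i, ‖w i‖ ≤ 2) → ∀ a b : ℤ,
      ‖∑ i ∈ Ico a b, w i - ∑ i ∈ Ico b a, w i‖ ≤ 2 * (|b - a| : ℤ) := by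
    intro w hw a b
    have hs : ∀ a b : ℤ, a ≤ b → ‖∑ i ∈ Ico a b, w i‖ ≤ 2 * (b - a : ℤ) := by
      intro a b hab
      refine (norm_sum_le_of_le _ fun i _ => hw i).trans ?_
      rw [sum_const, Int.card_Ico, nsmul_eq_mul]
      have : (((b - a).toNat : ℕ) : ℝ) = ((b - a : ℤ) : ℝ) := by
        have h1 : (((b - a).toNat : ℕ) : ℤ) = b - a := Int.toNat_of_nonneg (by omega)
        exact_mod_cast congrArg (fun z : ℤ => (z : ℝ)) h1
      rw [this]
      linarith
    rcases le_total a b with hab | hab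
    · rw [Ico_eq_empty (show ¬ b < a by omega), sum_empty, sub_zero, abs_of_nonneg (by omega)]
      exact hs a b hab
    · rw [Ico_eq_empty (show ¬ a < b by omega), sum_empty, zero_sub, norm_neg, abs_of_nonpos
        (by omega)]
      have := hs b a hab
      have e : -(b - a) = a - b := by ring
      rw [e]; exact this
  unfold D hsm vsm
  refine (norm_add_le _ _).trans ?_
  have h1 := key (fun i => X.hst i u.2) (fun i => hst1 i _) u.1 v.1
  have h2 := key (fun i => X.vst v.1 i) (fun i => vst1 _ i) u.2 v.2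
  push_cast at h1 h2 ⊢
  linarith

end Env

namespace M6c

/-! ### The supremum of the oscillations -/

/-- free box of half-size `N` around `p` -/
def Free (E : Finset (ℤ × ℤ)) (p : ℤ × ℤ) (N : ℤ) : Prop :=
  Bx (p.1 - N) (p.1 + N) (p.2 - N) (p.2 + N) ⊆ E

lemma Free.mono {E : Finset (ℤ × ℤ)} {p p' : ℤ × ℤ} {N N' : ℤ} (h : Free E p N)
    (h1 : |p'.1 - p.1| + N' ≤ N) (h2 : |p'.2 - p.2| + N' ≤ N) : Free E p' N' := by
  refine subset_trans (fun e he => ?_) h
  rw [mem_Bx] at he ⊢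
  have a1 := neg_abs_le (p'.1 - p.1)
  have a2 := le_abs_self (p'.1 - p.1)
  have a3 := neg_abs_le (p'.2 - p.2)
  have a4 := le_abs_self (p'.2 - p.2)
  omega

lemma Free.anti {E E' : Finset (ℤ × ℤ)} {p : ℤ × ℤ} {N : ℤ} (h : Free E p N) (hE : E ⊆ E') :
    Free E' p N := subset_trans h hE

/-- `u` is in the quarter of the box -/
def InQ (p : ℤ × ℤ) (N : ℕ) (u : ℤ × ℤ) : Prop := Qt p.1 N u.1 ∧ Qt p.2 N u.2

/-- the values in the definition of `mm` -/
def vals (N : ℕ) : Set ℝ :=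
  {r | ∃ (X : Env) (p u v : ℤ × ℤ), PlaneK X ∧ Free X.E p N ∧ InQ p N u ∧ InQ p N v ∧
    r = ‖X.D u v‖}

/-- **maximal oscillation** at scale `N` -/
noncomputable def mm (N : ℕ) : ℝ := sSup (vals N)

lemma vals_bdd (N : ℕ) : BddAbove (vals N) := by
  refine ⟨2 * N, ?_⟩
  rintro r ⟨X, p, u, v, -, -, ⟨hu1, hu2⟩, ⟨hv1, hv2⟩, rfl⟩
  refine (X.D_norm_le u v).trans ?_
  have h1 := hu1.bounds
  have h2 := hu2.bounds
  have h3 := hv1.bounds
  have h4 := hv2.bounds
  have h5 : |v.1 - u.1| + |v.2 - u.2| ≤ (N : ℤ) := by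
    rcases abs_cases (v.1 - u.1) with h | h <;> rcases abs_cases (v.2 - u.2) with h' | h' <;> omega
  have h6 : (((|v.1 - u.1| + |v.2 - u.2| : ℤ)) : ℝ) ≤ (N : ℝ) := by exact_mod_cast h5
  push_cast at h6 ⊢
  linarith

lemma le_mm {N : ℕ} {X : Env} {p u v : ℤ × ℤ} (hX : PlaneK X) (hp : Free X.E p N)
    (hu : InQ p N u) (hv : InQ p N v) : ‖X.D u v‖ ≤ mm N :=
  le_csSup (vals_bdd N) ⟨X, p, u, v, hX, hp, hu, hv, rfl⟩

lemma mm_nonneg (N : ℕ) : 0 ≤ mm N := by
  refine Real.sSup_nonneg ?_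
  rintro r ⟨X, p, u, v, -, -, -, -, rfl⟩
  exact norm_nonneg _

lemma mm_le {N : ℕ} {M : ℝ} (hM : 0 ≤ M) (h : ∀ (X : Env) (p u v : ℤ × ℤ), PlaneK X →
    Free X.E p N → InQ p N u → InQ p N v → ‖X.D u v‖ ≤ M) : mm N ≤ M := by
  unfold mm
  refine Real.sSup_le ?_ hM
  rintro r ⟨X, p, u, v, h1, h2, h3, h4, rfl⟩
  exact h X p u v h1 h2 h3 h4

lemma mm_le_two (N : ℕ) : mm N ≤ 2 * N := by
  unfold mm
  refine Real.sSup_le ?_ (by positivity)
  rintro r ⟨X, p, u, v, h1, h2, ⟨hu1, hu2⟩, ⟨hv1, hv2⟩, rfl⟩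
  refine (X.D_norm_le u v).trans ?_
  have h1 := hu1.bounds
  have h2 := hu2.bounds
  have h3 := hv1.bounds
  have h4 := hv2.bounds
  have h5 : |v.1 - u.1| + |v.2 - u.2| ≤ (N : ℤ) := by
    rcases abs_cases (v.1 - u.1) with h | h <;> rcases abs_cases (v.2 - u.2) with h' | h' <;> omega
  have h6 : (((|v.1 - u.1| + |v.2 - u.2| : ℤ)) : ℝ) ≤ (N : ℝ) := by exact_mod_cast h5
  push_cast at h6 ⊢
  linarith

lemma inQ_inB {p : ℤ × ℤ} {N : ℕ} {u : ℤ × ℤ} (h : InQ p N u) :
    inB (p.1 - N) (p.1 + N) (p.2 - N) (p.2 + N) u := by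
  have h1 := h.1.bounds
  have h2 := h.2.bounds
  unfold inB
  omega

/-- **`AP` from the bound of `mm`.** -/
theorem AP_of_mm {C : ℝ} (hC : ∀ N : ℕ, 1 ≤ N → mm N ≤ C * (N : ℝ) ^ (2 / 3 : ℝ)) :
    AP PlaneK := by
  refine ⟨max C 1, lt_max_of_lt_right one_pos, ?_⟩
  intro X hX a b N hBx Hv Hf hP u v hu1 hu2 hv1 hv2
  have hu : InQ (a, b) N u := ⟨hu1, hu2⟩
  have hv : InQ (a, b) N v := ⟨hv1, hv2⟩
  have e := Env.D_prim hP (inQ_inB hv) (inQ_inB hu)
  rw [← e]
  rcases Nat.eq_zero_or_pos N with h0 | h0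
  · subst h0
    have h1 := hu1.bounds
    have h2 := hu2.bounds
    have h3 := hv1.bounds
    have h4 := hv2.bounds
    have : u = v := by
      refine Prod.ext ?_ ?_ <;> push_cast at h1 h2 h3 h4 <;> omega
    rw [this, Env.D_self, norm_zero]
    positivity
  · have hF : Free X.E (a, b) N := by unfold Free; exact hBx
    have h1 := le_mm (p := (a, b)) hX hF hv hu
    refine h1.trans ((hC N h0).trans ?_)
    exact mul_le_mul_of_nonneg_right (le_max_left _ _) (by positivity)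

end M6c

end Pool.Agent.Q1
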