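import Mathlib
import Pool.Agent.Q1.M6c.BoxTop
import Pool.Agent.Q1.M6c.Uniq

set_option autoImplicit false
open Finset

/-! # No return without four arms

`BX p N`: labels of the box of half-size `N` around `p`. `F4 p r N σ`: two crossings of the annulus which
are not connected in the annulus. If the path reaches the box `BX p r`, then leaves `BX p N` and returns
to `BX p r`, there are four arms. -/

namespace Pool.Agent.Q1.M6c

open Pool.Agent.H75.Perc Pool.Agent.H75.TwoArm Pool.Agent.H69.Q1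
open Pool.Agent.Q1.Env (TConn TAdj)
open Pool.Agent.H75.TwoArm.StrandAux hiding vx_nxC

/-- labels of the box of half-size `N` around `p` -/
noncomputable def BX (p : ℤ × ℤ) (N : ℤ) : Finset (ℤ × ℤ) :=
  Bx (p.1 - N) (p.1 + N) (p.2 - N) (p.2 + N)

lemma mem_BX {p : ℤ × ℤ} {N : ℤ} {l : ℤ × ℤ} : l ∈ BX p N ↔
    (2 * (p.1 - N) ≤ l.1 ∧ l.1 ≤ 2 * (p.1 + N)) ∧ (2 * (p.2 - N) ≤ l.2 ∧ l.2 ≤ 2 * (p.2 + N)) ∧
      (l.1 + l.2) % 2 = 1 := mem_Bx

lemma BX_mono {p : ℤ × ℤ} {r N : ℤ} (h : r ≤ N) : BX p r ⊆ BX p N := by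
  intro l hl
  rw [mem_BX] at hl ⊢
  omega

/-- The labels of a box are tile connected. -/
theorem tconn_Bx {a b c d : ℤ} (hab : a < b) (hcd : c < d) : TConn (Bx a b c d) := by
  set R : ℤ × ℤ → ℤ × ℤ → Prop := fun x y => TAdj x y ∧ y ∈ Bx a b c d with hR
  -- column `2 a`
  have hcol : ∀ n : ℕ, 2 * c + 1 + 2 * (n : ℤ) ≤ 2 * d →
      Relation.ReflTransGen R (2 * a, 2 * c + 1 + 2 * n) (2 * a, 2 * c + 1) ∧
      Relation.ReflTransGen R (2 * a, 2 * c + 1) (2 * a, 2 * c + 1 + 2 * n) := by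
    intro n
    induction n with
    | zero =>
      intro _
      have e : ((2 * a, 2 * c + 1 + 2 * ((0 : ℕ) : ℤ)) : ℤ × ℤ) = (2 * a, 2 * c + 1) := by simp
      rw [e]
      exact ⟨Relation.ReflTransGen.refl, Relation.ReflTransGen.refl⟩
    | succ n ih =>
      intro h
      push_cast at h
      obtain ⟨h1, h2⟩ := ih (by omega)
      have e : ((2 * a, 2 * c + 1 + 2 * ((n + 1 : ℕ) : ℤ)) : ℤ × ℤ) =
          (2 * a, 2 * c + 1 + 2 * n + 1 + 1) := by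
        refine Prod.ext rfl ?_; push_cast; ring
      rw [e]
      have t1 : TAdj (2 * a, 2 * c + 1 + 2 * (n : ℤ)) (2 * a + 1, 2 * c + 1 + 2 * n + 1) :=
        tadj_pp (by omega)
      have t2 : TAdj (2 * a + 1, 2 * c + 1 + 2 * (n : ℤ) + 1) (2 * a, 2 * c + 1 + 2 * n + 1 + 1) := by
        have := tadj_mp (x := 2 * a + 1) (y := 2 * c + 1 + 2 * (n : ℤ) + 1) (by omega)
        rwa [add_sub_cancel_right] at this
      have m0 : ((2 * a, 2 * c + 1 + 2 * (n : ℤ)) : ℤ × ℤ) ∈ Bx a b c d := by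
        rw [mem_Bx]; simp only; omega
      have m1 : ((2 * a + 1, 2 * c + 1 + 2 * (n : ℤ) + 1) : ℤ × ℤ) ∈ Bx a b c d := by
        rw [mem_Bx]; simp only; omega
      have m2 : ((2 * a, 2 * c + 1 + 2 * (n : ℤ) + 1 + 1) : ℤ × ℤ) ∈ Bx a b c d := by
        rw [mem_Bx]; simp only; omega
      exact ⟨Relation.ReflTransGen.head ⟨TAdj.symm' t2, m1⟩
        (Relation.ReflTransGen.head ⟨TAdj.symm' t1, m0⟩ h1), (h2.tail ⟨t1, m1⟩).tail ⟨t2, m2⟩⟩
  have hrow : ∀ n : ℕ, ∀ y : ℤ, ((2 * a + (n : ℤ), y) : ℤ × ℤ) ∈ Bx a b c d →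
      Relation.ReflTransGen R (2 * a + (n : ℤ), y) (2 * a, 2 * c + 1) ∧
      Relation.ReflTransGen R (2 * a, 2 * c + 1) (2 * a + (n : ℤ), y) := by
    intro n
    induction n with
    | zero =>
      intro y hy
      have e : ((2 * a + ((0 : ℕ) : ℤ), y) : ℤ × ℤ) = (2 * a, y) := by simp
      rw [e] at hy ⊢
      rw [mem_Bx] at hy
      simp only at hy
      obtain ⟨m, hm⟩ := Int.eq_ofNat_of_zero_le (show 0 ≤ (y - 2 * c - 1) / 2 by omega)
      have e2 : y = 2 * c + 1 + 2 * m := by omega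
      rw [e2]
      exact hcol m (by omega)
    | succ n ih =>
      intro y hy
      have e : ((2 * a + ((n + 1 : ℕ) : ℤ), y) : ℤ × ℤ) = (2 * a + n + 1, y) := by
        refine Prod.ext ?_ rfl; push_cast; ring
      rw [e] at hy ⊢
      have hy' := hy
      rw [mem_Bx] at hy'
      simp only at hy'
      by_cases hyd : y < 2 * d
      · have m1 : ((2 * a + (n : ℤ), y + 1) : ℤ × ℤ) ∈ Bx a b c d := by
          rw [mem_Bx]; simp only; omega
        have t1 : TAdj (2 * a + (n : ℤ) + 1, y) (2 * a + n, y + 1) := by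
          have := tadj_mp (x := 2 * a + (n : ℤ) + 1) (y := y) (by omega)
          rwa [add_sub_cancel_right] at this
        obtain ⟨h1, h2⟩ := ih _ m1
        exact ⟨Relation.ReflTransGen.head ⟨t1, m1⟩ h1, h2.tail ⟨TAdj.symm' t1, hy⟩⟩
      · have m1 : ((2 * a + (n : ℤ), y - 1) : ℤ × ℤ) ∈ Bx a b c d := by
          rw [mem_Bx]; simp only; omega
        have t1 : TAdj (2 * a + (n : ℤ) + 1, y) (2 * a + n, y - 1) := by
          have := tadj_mm (x := 2 * a + (n : ℤ) + 1) (y := y) (by omega)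
          rwa [add_sub_cancel_right] at this
        obtain ⟨h1, h2⟩ := ih _ m1
        exact ⟨Relation.ReflTransGen.head ⟨t1, m1⟩ h1, h2.tail ⟨TAdj.symm' t1, hy⟩⟩
  have key : ∀ l ∈ Bx a b c d, Relation.ReflTransGen R l (2 * a, 2 * c + 1) ∧
      Relation.ReflTransGen R (2 * a, 2 * c + 1) l := by
    rintro ⟨x, y⟩ hl
    have hl' := hl
    rw [mem_Bx] at hl'
    simp only at hl'
    obtain ⟨n, hn⟩ := Int.eq_ofNat_of_zero_le (show 0 ≤ x - 2 * a by omega)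
    have e : x = 2 * a + n := by omega
    rw [e] at hl ⊢
    exact hrow n y hl
  intro l hl l' hl'
  exact (key l hl).1.trans (key l' hl').2

theorem tconn_BX {p : ℤ × ℤ} {r : ℤ} (hr : 1 ≤ r) : TConn (BX p r) :=
  tconn_Bx (by omega) (by omega)

/-- **Four arms**: two crossings of the annulus which are not connected inside the annulus. -/
def F4 (x : ℤ × ℤ) (r R : ℤ) (ω : Finset (ℤ × ℤ)) : Prop :=
  ∃ u1 u2 v1 v2 : ℤ × ℤ, (|u1.1 - x.1| ≤ r ∧ |u1.2 - x.2| ≤ r) ∧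
    (|u2.1 - x.1| ≤ r ∧ |u2.2 - x.2| ≤ r) ∧ (R ≤ |v1.1 - x.1| ∨ R ≤ |v1.2 - x.2|) ∧
    (R ≤ |v2.1 - x.1| ∨ R ≤ |v2.2 - x.2|) ∧ Co (ω ∩ (BX x R \ BX x r)) u1 v1 ∧
    Co (ω ∩ (BX x R \ BX x r)) u2 v2 ∧ ¬ Co (ω ∩ (BX x R \ BX x r)) u1 u2

/-- the event depends on the labels of the annulus -/
lemma F4_congr {x : ℤ × ℤ} {r R : ℤ} {ω ω' : Finset (ℤ × ℤ)}
    (h : ω ∩ (BX x R \ BX x r) = ω' ∩ (BX x R \ BX x r)) : F4 x r R ω ↔ F4 x r R ω' := by
  unfold F4; rw [h]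

/-- **Crossing** of the annulus by the path. -/
theorem crossing {p : ℤ × ℤ} {r N : ℤ} {σ : Finset (ℤ × ℤ)} {c0 : ℤ × ℤ} {j0 m : ℕ} (hjm : j0 ≤ m)
    (hj0 : plab ((nx σ)^[j0] c0) ∉ BX p N)
    (hS : ∀ i, j0 ≤ i → i < m → lab ((nx σ)^[i] c0) ∉ BX p r)
    (hm : lab ((nx σ)^[m] c0) ∈ BX p N) :
    ∃ v f : ℤ × ℤ, (N ≤ |v.1 - p.1| ∨ N ≤ |v.2 - p.2|) ∧
      Outer (p.1 - N) (p.1 + N) (p.2 - N) (p.2 + N) f ∧
      Co (σ ∩ (BX p N \ BX p r)) (vx ((nx σ)^[m] c0)) v ∧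
      DCo ((σ ∩ (BX p N \ BX p r)) ∪ BX p r) (fi ((nx σ)^[m] c0)) f := by
  have base : ∀ z, plab z ∉ BX p N → lab z ∈ BX p N →
      ∃ v f : ℤ × ℤ, (N ≤ |v.1 - p.1| ∨ N ≤ |v.2 - p.2|) ∧
      Outer (p.1 - N) (p.1 + N) (p.2 - N) (p.2 + N) f ∧
      Co (σ ∩ (BX p N \ BX p r)) (vx z) v ∧
      DCo ((σ ∩ (BX p N \ BX p r)) ∪ BX p r) (fi z) f := by
    intro z h1 h2
    refine ⟨vx z, fi z, ?_, outer_of_plab h1, Co.refl _ _, DCo.refl _ _⟩
    have h3 := vx_mem_box h2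
    rcases vx_bdry h3 h1 with h4 | h4 | h4 | h4
    · left; rw [h4]; rw [show p.1 - N - p.1 = -N by ring, abs_neg]; exact le_abs_self N
    · left; rw [h4]; rw [show p.1 + N - p.1 = N by ring]; exact le_abs_self N
    · right; rw [h4]; rw [show p.2 - N - p.2 = -N by ring, abs_neg]; exact le_abs_self N
    · right; rw [h4]; rw [show p.2 + N - p.2 = N by ring]; exact le_abs_self N
  induction m, hjm using Nat.le_induction with
  | base => exact base _ hj0 hm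
  | succ m hjm ih =>
    have e1 : (nx σ)^[m + 1] c0 = nx σ ((nx σ)^[m] c0) := Function.iterate_succ_apply' _ _ _
    by_cases hB : lab ((nx σ)^[m] c0) ∈ BX p N
    · obtain ⟨v, f, h1, h2, h3, h4⟩ := ih (fun i hi hi' => hS i hi (by omega)) hB
      have hA : lab ((nx σ)^[m] c0) ∈ BX p N \ BX p r :=
        mem_sdiff.2 ⟨hB, hS m hjm (Nat.lt_succ_self m)⟩
      refine ⟨v, f, h1, h2, ?_, ?_⟩
      · rw [e1]
        exact (co_nx_step fun hl => mem_inter.2 ⟨hl, hA⟩).symm.trans h3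
      · rw [e1]
        refine (dco_nx_step fun hl hl2 => ?_).symm.trans h4
        rcases mem_union.1 hl2 with h5 | h5
        · exact hl (mem_inter.1 h5).1
        · exact (mem_sdiff.1 hA).2 h5
    · refine base _ ?_ hm
      rw [e1, plab_nx]; exact hB

/-- **No return.** -/
theorem no_return {p : ℤ × ℤ} {r N : ℤ} (hr : 1 ≤ r) (hrN : r ≤ N) {σ : Finset (ℤ × ℤ)}
    {c0 : ℤ × ℤ} {L : ℕ} (hL : Orb (nx σ) c0 L) (hroot : plab c0 ∉ BX p N) {n j n' : ℕ}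
    (hS : ∀ i < n, lab ((nx σ)^[i] c0) ∉ BX p r) (hn : lab ((nx σ)^[n] c0) ∈ BX p r)
    (hnj : n ≤ j) (hj : lab ((nx σ)^[j] c0) ∉ BX p N) (hjn : j < n') (hn' : n' < L)
    (hl : lab ((nx σ)^[n'] c0) ∈ BX p r) : F4 p r N σ := by
  classical
  have hBr : BX p r ⊆ BX p N := BX_mono hrN
  -- the first return
  have hex : ∃ i, j < i ∧ lab ((nx σ)^[i] c0) ∈ BX p r := ⟨n', hjn, hl⟩
  set m := Nat.find hex with hm
  obtain ⟨hm1, hm2⟩ := Nat.find_spec hex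
  rw [← hm] at hm1 hm2
  have hmn : m ≤ n' := Nat.find_min' hex ⟨hjn, hl⟩
  have hmin : ∀ i, j + 1 ≤ i → i < m → lab ((nx σ)^[i] c0) ∉ BX p r := by
    intro i hi hi' hcon
    exact Nat.find_min hex hi' ⟨by omega, hcon⟩
  have hp : ∀ i, plab ((nx σ)^[i + 1] c0) = lab ((nx σ)^[i] c0) := by
    intro i
    rw [Function.iterate_succ_apply', plab_nx]
  obtain ⟨v1, f1, h1, h2, h3, h4⟩ := crossing (σ := σ) (c0 := c0) (r := r) (Nat.zero_le n) hroot
    (fun i _ hi => hS i hi) (hBr hn)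
  obtain ⟨v2, f2, k1, k2, k3, k4⟩ := crossing (σ := σ) (c0 := c0) (r := r) (p := p) (N := N)
    (j0 := j + 1) (m := m) (by omega) (by rw [hp]; exact hj) hmin (hBr hm2)
  by_contra hF
  have hin : ∀ z, lab z ∈ BX p r → |(vx z).1 - p.1| ≤ r ∧ |(vx z).2 - p.2| ≤ r := by
    intro z hz
    have := vx_mem_box hz
    unfold inB at this
    rw [abs_le, abs_le]
    omega
  have hco : Co (σ ∩ (BX p N \ BX p r)) (vx ((nx σ)^[n] c0)) (vx ((nx σ)^[m] c0)) := by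
    by_contra hcon
    exact hF ⟨_, _, v1, v2, hin _ hn, hin _ hm2, h1, k1, h3, k3, hcon⟩
  have hsub : (σ ∩ (BX p N \ BX p r)) ∪ BX p r ⊆ BX p N := by
    intro x hx
    rcases mem_union.1 hx with h | h
    · exact (mem_sdiff.1 (mem_inter.1 h).2).1
    · exact hBr h
  have hd : DCo ((σ ∩ (BX p N \ BX p r)) ∪ BX p r) (fi ((nx σ)^[n] c0)) (fi ((nx σ)^[m] c0)) :=
    h4.trans (((dco_outer h2 k2).anti hsub).trans k4.symm)
  have hdis : Disjoint (σ ∩ (BX p N \ BX p r)) (BX p r) := by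
    rw [disjoint_left]
    intro x hx
    exact (mem_sdiff.1 (mem_inter.1 hx).2).2
  have hplab : plab ((nx σ)^[n] c0) ∉ BX p r := by
    rcases Nat.eq_zero_or_pos n with h0 | h0
    · rw [h0]; exact fun h => hroot (hBr h)
    · obtain ⟨k, hk⟩ : ∃ k, n = k + 1 := ⟨n - 1, by omega⟩
      rw [hk, hp]
      exact hS k (by omega)
  have hplab' : plab ((nx σ)^[m] c0) ∉ BX p r := by
    obtain ⟨k, hk⟩ : ∃ k, m = k + 1 := ⟨m - 1, by omega⟩
    rw [hk, hp]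
    rcases Nat.eq_or_lt_of_le (show j ≤ k by omega) with h | h
    · rw [← h]; exact fun h => hj (hBr h)
    · exact hmin k (by omega) (by omega)
  have hodd : ∀ e ∈ BX p r, (e.1 + e.2) % 2 = 1 := fun e he => (mem_BX.1 he).2.2
  have heq := entrance_unique (tconn_BX hr) hodd hdis hn hplab hm2 hplab' hco hd
  exact hL.inj n m (by omega) (by omega) heq

end Pool.Agent.Q1.M6c
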