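import Mathlib
import Pool.Agent.Q1.M6c.BoxTop

set_option autoImplicit false
open Finset

/-! # Recoloring of the labels outside a box

`R`: random labels in the box, `Op`, `Cl`: open and closed labels of a finite path from `c0`, which cover
the box together with `R`. The labels outside the box which are not met by the path can be recolored such
that a rough Dobrushin domain arises. -/

namespace Pool.Agent.Q1.M6c

open Pool.Agent.H75.Perc Pool.Agent.H75.TwoArm Pool.Agent.H75.Four Pool.Agent.H69.Q1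
open Pool.Agent.Q1.Env (TConn TAdj)
open Pool.Agent.H75.TwoArm.StrandAux hiding vx_nxC

/-- a dual path which avoids also `w'`, if no label with a reached face is in `w' \ w` -/
lemma dco_upgrade {w w' : Finset (ℤ × ℤ)} {f g : ℤ × ℤ} (h : DCo w f g)
    (hl : ∀ z, DCo w f (fi z) → lab z ∉ w → lab z ∉ w') : DCo w' f g := by
  obtain ⟨F, hF⟩ := h
  have key : ∀ g, Co (du F w) f g → DCo w' f g := by
    intro g hg
    induction hg with
    | refl => exact DCo.refl _ _
    | @tail f1 f2 h1 h2 ih =>
      have h12 : DCo w f f2 := ⟨F, h1.tail h2⟩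
      obtain ⟨hu, hd⟩ := h2
      unfold du at hd
      rw [mem_map] at hd
      obtain ⟨e, he, he'⟩ := hd
      have he2 : f1 + f2 - (1, 1) = e := by
        rw [← he']
        show ((e.1 + 1, e.2 + 1) : ℤ × ℤ) - (1, 1) = e
        refine Prod.ext ?_ ?_ <;> simp
      have ho : (e.1 + e.2) % 2 = 1 := by
        rw [← he2]
        rcases hu with h3 | h3 | h3 | h3 <;> rw [Prod.ext_iff] at h3 <;>
          simp only [Prod.fst_sub, Prod.snd_sub] at h3 <;>
          simp only [Prod.fst_sub, Prod.snd_sub, Prod.fst_add, Prod.snd_add] <;> omega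
      have hz := lab_in1 e ho
      set z := in1 e
      have h5 := fi_nxC z
      have h6 : fi z + fi (nxC z) = f1 + f2 := by
        rw [h5.2, hz, ← he2]
        refine Prod.ext ?_ ?_ <;> simp
      have h7 : fi z = f1 ∨ fi z = f2 := by
        rcases ends_of_add h5.1 rfl with ⟨k1, k2⟩ | ⟨k1, k2⟩ <;>
          rcases ends_of_add hu h6.symm with ⟨k3, k4⟩ | ⟨k3, k4⟩
        · left; rw [k1, k3]
        · right; rw [k1, k4]
        · right; rw [k1, k4]
        · left; rw [k1, k3]
      refine ih.trans (DCo.step hu ?_)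
      rw [he2, ← hz]
      refine hl z ?_ ?_
      · rcases h7 with h7 | h7
        · rw [h7]; exact ⟨F, h1⟩
        · rw [h7]; exact h12
      · rw [hz]; exact (mem_sdiff.1 he).2
  exact key g hF

lemma EndsCo.mono {W W' : Finset (ℤ × ℤ)} {v0 e : ℤ × ℤ} (h : EndsCo W v0 e) (hW : W ⊆ W') :
    EndsCo W' v0 e := fun z hz => (h z hz).mono hW

open Classical in
/-- **Recoloring outside a box.** -/
theorem recolor {a b c d : ℤ} {R Op Cl : Finset (ℤ × ℤ)} {c0 : ℤ × ℤ} (hR : R ⊆ Bx a b c d)
    (hcov : Bx a b c d ⊆ R ∪ Op ∪ Cl) (hROp : Disjoint R Op)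
    (oddOp : ∀ e ∈ Op, (e.1 + e.2) % 2 = 1) (hroot : plab c0 ∉ R)
    (hOp : ∀ z, lab z ∈ Op → Co Op (vx c0) (vx z))
    (hCl : ∀ z, lab z ∈ Cl → DCo (R ∪ Op) (fi c0) (fi z))
    {M : ℤ} {g : ℤ × ℤ} (hM : R ∪ Op ⊆ Bx (-M) M (-M) M) (hg : DCo (R ∪ Op) (fi c0) g)
    (hgo : Outer (-M) M (-M) M g) :
    ∃ W', Dobr R W' c0 ∧ ∀ l, (l ∈ Bx a b c d ∨ l ∈ Op ∨ l ∈ Cl) → (l ∈ W' ↔ l ∈ Op) := by
  set Q : Finset (ℤ × ℤ) := (Bx (-M) M (-M) M).filter (fun e => e ∉ Bx a b c d ∧ e ∉ Op ∧ e ∉ Cl ∧
    ¬ ∃ z, lab z = e ∧ DCo (R ∪ Op) (fi c0) (fi z)) with hQ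
  have memQ : ∀ e, e ∈ Q ↔ e ∈ Bx (-M) M (-M) M ∧ e ∉ Bx a b c d ∧ e ∉ Op ∧ e ∉ Cl ∧
      ¬ ∃ z, lab z = e ∧ DCo (R ∪ Op) (fi c0) (fi z) := fun e => by rw [hQ, mem_filter]
  have hout : ∀ z, lab z ∉ Bx (-M) M (-M) M → DCo (R ∪ Op) (fi c0) (fi z) := fun z hz =>
    hg.trans ((dco_outer hgo (outer_of_lab hz)).anti hM)
  have hodd : ∀ {a b c d : ℤ} {e : ℤ × ℤ}, e ∈ Bx a b c d → (e.1 + e.2) % 2 = 1 := by
    intro a b c d e he
    rw [mem_Bx] at he
    exact he.2.2
  refine ⟨Op ∪ Q, ⟨fun e he => hodd (hR he), ?_, ?_, hroot, ?_, ?_⟩, ?_⟩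
  · intro e he
    rcases mem_union.1 he with h | h
    · exact oddOp e h
    · exact hodd ((memQ e).1 h).1
  · rw [disjoint_union_right]
    refine ⟨hROp, ?_⟩
    rw [disjoint_left]
    intro e he he'
    exact ((memQ e).1 he').2.1 (hR he)
  · -- wired labels are joined
    intro z hz
    rcases mem_union.1 hz with h | h
    · exact (hOp z h).mono subset_union_left
    · have hodd0 := odd_lab z
      obtain ⟨n, s, s0, s1, s2, s3⟩ := path_out hodd0 ((memQ _).1 h).2.1 (2 * |M|)
      have hex : ∃ k, k ≤ n ∧ s k ∉ Q := by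
        refine ⟨n, le_rfl, fun h1 => ?_⟩
        have h2 := ((memQ _).1 h1).1
        rw [mem_Bx] at h2
        have h3 := le_abs_self M
        rcases s3 with h4 | h4
        · rcases lt_abs.1 h4 with h5 | h5 <;> omega
        · rcases lt_abs.1 h4 with h5 | h5 <;> omega
      set k := Nat.find hex with hk
      obtain ⟨hkn, hkQ⟩ := Nat.find_spec hex
      rw [← hk] at hkn hkQ
      have hmin : ∀ j < k, s j ∈ Q := by
        intro j hj
        by_contra hcon
        exact Nat.find_min hex hj ⟨by omega, hcon⟩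
      have hk0 : k ≠ 0 := by
        intro h0
        rw [h0, s0] at hkQ
        exact hkQ h
      obtain ⟨m, hm⟩ : ∃ m, k = m + 1 := ⟨k - 1, by omega⟩
      have hTA := s1 m (by omega)
      rw [← hm] at hTA
      have hsm := (memQ _).1 (hmin m (by omega))
      -- the common face is not reached
      obtain ⟨cc, hcc⟩ := hTA
      have hface : ¬ DCo (R ∪ Op) (fi c0) (fi cc) := by
        intro h1
        rcases hcc with ⟨h2, h3⟩ | ⟨h2, h3⟩
        · -- `plab cc = s m`
          apply hsm.2.2.2.2
          obtain ⟨z', h4, h5⟩ := pv_full_nxO cc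
          exact ⟨z', by rw [h4, h2], by rw [← h5, fi_nxO] at h1; exact h1⟩
        · exact hsm.2.2.2.2 ⟨cc, h2, h1⟩
      have hsk := s2 k hkn
      have hskOp : s k ∈ Op := by
        by_contra hOp'
        have hnR : s k ∉ R ∪ Op := by
          rw [mem_union, not_or]
          exact ⟨fun h1 => hsk.2 (hR h1), hOp'⟩
        -- a corner with label `s k` and the face of `cc`
        obtain ⟨z', h4, h5⟩ : ∃ z', lab z' = s k ∧ fi z' = fi cc := by
          rcases hcc with ⟨h2, h3⟩ | ⟨h2, h3⟩
          · exact ⟨cc, h3, rfl⟩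
          · obtain ⟨z', h4, h5⟩ := pv_full_nxO cc
            exact ⟨z', by rw [h4, h3], by rw [← h5, fi_nxO]⟩
        by_cases hskCl : s k ∈ Cl
        · exact hface (by rw [← h5]; exact hCl z' (by rw [h4]; exact hskCl))
        · by_cases hbig : s k ∈ Bx (-M) M (-M) M
          · apply hkQ
            rw [memQ]
            refine ⟨hbig, hsk.2, hOp', hskCl, ?_⟩
            rintro ⟨z'', h6, h7⟩
            have h8 : FacesDCo (R ∪ Op) (fi c0) (lab z'') := facesDCo_of (by rw [h6]; exact hnR) h7
            exact hface (by rw [← h5]; exact h8 z' (by rw [h4, h6]))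
          · exact hface (by rw [← h5]; exact hout z' (by rw [h4]; exact hbig))
      have hE : EndsCo (Op ∪ Q) (vx c0) (s k) := by
        intro z' hz'
        exact (hOp z' (by rw [hz']; exact hskOp)).mono subset_union_left
      have hback : ∀ i ≤ k, EndsCo (Op ∪ Q) (vx c0) (s (k - i)) := by
        intro i
        induction i with
        | zero => intro _; exact hE
        | succ i ih =>
          intro hi
          have h1 := ih (by omega)
          have h2 := s1 (k - (i + 1)) (by omega)
          have h3 : k - (i + 1) + 1 = k - i := by omega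
          rw [h3] at h2
          exact h1.tadj (TAdj.symm' h2) (mem_union_right _ (hmin _ (by omega)))
      have h9 := hback k le_rfl
      rw [Nat.sub_self, s0] at h9
      exact h9 z rfl
  · -- closed labels
    intro z hzR hzW
    rw [mem_union, not_or] at hzW
    have hnot : lab z ∉ R ∪ Op := by rw [mem_union, not_or]; exact ⟨hzR, hzW.1⟩
    have h1 : DCo (R ∪ Op) (fi c0) (fi z) := by
      by_cases hcl : lab z ∈ Cl
      · exact hCl z hcl
      · by_cases hbig : lab z ∈ Bx (-M) M (-M) M
        · have hnB : lab z ∉ Bx a b c d := by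
            intro h2
            have h3 := hcov h2
            rw [mem_union] at h3
            rcases h3 with h3 | h3
            · exact hnot h3
            · exact hcl h3
          have h4 : ∃ z', lab z' = lab z ∧ DCo (R ∪ Op) (fi c0) (fi z') := by
            by_contra h5
            exact hzW.2 ((memQ _).2 ⟨hbig, hnB, hzW.1, hcl, h5⟩)
          obtain ⟨z', h5, h6⟩ := h4
          have h7 : FacesDCo (R ∪ Op) (fi c0) (lab z') := facesDCo_of (by rw [h5]; exact hnot) h6
          exact h7 z h5.symm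
        · exact hout z hbig
    refine dco_upgrade h1 fun z' h2 h3 h4 => ?_
    rcases mem_union.1 h4 with h5 | h5
    · exact h3 (mem_union_left _ h5)
    · rcases mem_union.1 h5 with h6 | h6
      · exact h3 (mem_union_right _ h6)
      · exact ((memQ _).1 h6).2.2.2.2 ⟨z', rfl, h2⟩
  · intro l hl
    rw [mem_union]
    constructor
    · rintro (h | h)
      · exact h
      · exfalso
        obtain ⟨-, h1, h2, h3, -⟩ := (memQ _).1 h
        tauto
    · exact Or.inl

end Pool.Agent.Q1.M6c
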