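import Mathlib
import Pool.Agent.Q1.M6c.NoRet
import Pool.Agent.Q1.M6c.Recolor
import Pool.Agent.Q1.M6c.Diff

set_option autoImplicit false
open Finset

/-! # First step: from plane environments to rough Dobrushin environments

`D1_core`: the oscillation of a plane environment is bounded by the oscillation of the rough Dobrushin
environments in the box plus `2 mm r` times the probability of four arms. -/

namespace Pool.Agent.Q1.M6c

open Pool.Agent.H75.Perc Pool.Agent.H75.TwoArm Pool.Agent.H69.Q1 Pool.Agent.H99.NC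
open Pool.Agent.Q1.Env (TConn TAdj)
open Pool.Agent.H75.TwoArm.StrandAux hiding vx_nxC

/-- the path is determined by the labels it meets -/
lemma nx_agree {σ τ : Finset (ℤ × ℤ)} {c0 : ℤ × ℤ} {k0 : ℤ} {i : ℕ}
    (h : ∀ j < i, (lab ((nx σ)^[j] c0) ∈ σ ↔ lab ((nx σ)^[j] c0) ∈ τ)) :
    ∀ j ≤ i, (nx τ)^[j] c0 = (nx σ)^[j] c0 ∧
      KK (nx τ) (del τ) c0 k0 j = KK (nx σ) (del σ) c0 k0 j := by
  intro j
  induction j with
  | zero => intro _; exact ⟨rfl, by rw [KK_zero, KK_zero]⟩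
  | succ j ih =>
    intro hj
    obtain ⟨h1, h2⟩ := ih (by omega)
    have h3 := h j (by omega)
    rw [Function.iterate_succ_apply', Function.iterate_succ_apply', KK_succ, KK_succ, h1, h2]
    refine ⟨?_, ?_⟩
    · unfold nx
      by_cases h4 : lab ((nx σ)^[j] c0) ∈ σ
      · unfold nx at h3 h4
        rw [if_pos h4, if_pos (h3.1 h4)]
      · unfold nx at h3 h4
        rw [if_neg h4, if_neg (fun h5 => h4 (h3.2 h5))]
    · congr 1
      unfold del
      by_cases h4 : lab ((nx σ)^[j] c0) ∈ σ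
      · rw [if_pos h4, if_pos (h3.1 h4)]
      · rw [if_neg h4, if_neg (fun h5 => h4 (h3.2 h5))]

lemma lt_of_agree {σ τ : Finset (ℤ × ℤ)} {c0 : ℤ × ℤ} {L L' i : ℕ} (hL : Orb (nx σ) c0 L)
    (hL' : Orb (nx τ) c0 L') (h : ∀ j ≤ i, (nx τ)^[j] c0 = (nx σ)^[j] c0) (hi : i < L) :
    i < L' := by
  by_contra hcon
  push Not at hcon
  have h1 := h L' hcon
  rw [hL'.per] at h1
  exact hL.inj 0 L' hL'.pos (by omega) h1

/-- visits of corners of the small box are the same, one direction -/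
theorem visit_agree {p : ℤ × ℤ} {r N : ℤ} (hr : 1 ≤ r) (hrN : r ≤ N) {σ τ : Finset (ℤ × ℤ)}
    {c0 : ℤ × ℤ} {k0 : ℤ} {L L' : ℕ} (hL : Orb (nx σ) c0 L) (hL' : Orb (nx τ) c0 L')
    (hroot : plab c0 ∉ BX p N) {n : ℕ}
    (hS : ∀ i < n, lab ((nx σ)^[i] c0) ∉ BX p r) (hn : lab ((nx σ)^[n] c0) ∈ BX p r)
    (hag : ∀ e, (e ∈ BX p N ∨ ∃ i < n, lab ((nx σ)^[i] c0) = e) → (e ∈ σ ↔ e ∈ τ))
    (hF : ¬ F4 p r N σ) {i : ℕ} (hi : i < L)
    (hc : lab ((nx σ)^[i] c0) ∈ BX p r ∨ plab ((nx σ)^[i] c0) ∈ BX p r) :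
    i < L' ∧ (nx τ)^[i] c0 = (nx σ)^[i] c0 ∧
      KK (nx τ) (del τ) c0 k0 i = KK (nx σ) (del σ) c0 k0 i := by
  have hBr : BX p r ⊆ BX p N := BX_mono hrN
  have hlab : ∀ j < i, (lab ((nx σ)^[j] c0) ∈ σ ↔ lab ((nx σ)^[j] c0) ∈ τ) := by
    intro j hj
    by_cases hjn : j < n
    · exact hag _ (Or.inr ⟨j, hjn, rfl⟩)
    · refine hag _ (Or.inl ?_)
      by_contra hB
      rcases hc with h1 | h1
      · exact hF (no_return hr hrN hL hroot hS hn (by omega : n ≤ j) hB hj hi h1)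
      · obtain ⟨k, hk⟩ : ∃ k, i = k + 1 := ⟨i - 1, by omega⟩
        rw [hk, Function.iterate_succ_apply', plab_nx] at h1
        rcases Nat.eq_or_lt_of_le (show j ≤ k by omega) with h2 | h2
        · rw [← h2] at h1; exact hB (hBr h1)
        · exact hF (no_return hr hrN hL hroot hS hn (by omega : n ≤ j) hB h2 (by omega) h1)
  have h1 := nx_agree (k0 := k0) hlab
  exact ⟨lt_of_agree hL hL' (fun j hj => (h1 j hj).1) hi, h1 i le_rfl⟩

/-- equal visits give equal increments -/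
lemma incO_eq_of {X Y : Env} {ξ : Finset (ℤ × ℤ)} (hX : ξ ⊆ X.E) (hY : ξ ⊆ Y.E) {c : ℤ × ℤ}
    (h1 : ∀ i < X.len ξ, X.z ξ i = c → i < Y.len ξ ∧ Y.z ξ i = c ∧ Y.K ξ i = X.K ξ i)
    (h2 : ∀ i < Y.len ξ, Y.z ξ i = c → i < X.len ξ ∧ X.z ξ i = c) :
    Y.incO ξ c = X.incO ξ c := by
  by_cases h : ∃ i, i < X.len ξ ∧ X.z ξ i = c
  · obtain ⟨i, hi, hz⟩ := h
    obtain ⟨h3, h4, h5⟩ := h1 i hi hz
    rw [Env.incO_of hX hi hz, Env.incO_of hY h3 h4, h5]
  · push Not at h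
    rw [Env.incO_zero h, Env.incO_zero]
    intro i hi hz
    obtain ⟨h3, h4⟩ := h2 i hi hz
    exact h i h3 h4

/-- **Agreement of the increments** without four arms. -/
theorem incO_agree {X Y : Env} {W W' : Finset (ℤ × ℤ)} (hX : PlaneEnv X W) (hY : PlaneEnv Y W')
    (hc0 : Y.c0 = X.c0) (hk0 : Y.k0 = X.k0) {p : ℤ × ℤ} {r N : ℤ} (hr : 1 ≤ r) (hrN : r ≤ N)
    {ξ : Finset (ℤ × ℤ)} (hξX : ξ ⊆ X.E) (hξY : ξ ⊆ Y.E) (hroot : plab X.c0 ∉ BX p N) {n : ℕ}
    (hS : ∀ i < n, lab ((nx (ξ ∪ W))^[i] X.c0) ∉ BX p r)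
    (hn : lab ((nx (ξ ∪ W))^[n] X.c0) ∈ BX p r)
    (hag : ∀ e, (e ∈ BX p N ∨ ∃ i < n, lab ((nx (ξ ∪ W))^[i] X.c0) = e) →
      (e ∈ ξ ∪ W ↔ e ∈ ξ ∪ W'))
    (hF : ¬ F4 p r N (ξ ∪ W)) {c : ℤ × ℤ} (hc : lab c ∈ BX p r ∨ plab c ∈ BX p r) :
    Y.incO ξ c = X.incO ξ c := by
  have hL := hX.orb hξX
  have hL' := hY.orb hξY
  rw [hc0] at hL'
  have hpre := nx_agree (σ := ξ ∪ W) (τ := ξ ∪ W') (c0 := X.c0) (k0 := X.k0) (i := n)
    (fun j hj => hag _ (Or.inr ⟨j, hj, rfl⟩))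
  have hF' : ¬ F4 p r N (ξ ∪ W') := by
    rw [F4_congr (ω' := ξ ∪ W)]
    · exact hF
    · ext e
      rw [mem_inter, mem_inter]
      constructor
      · rintro ⟨h1, h2⟩
        exact ⟨(hag e (Or.inl (mem_sdiff.1 h2).1)).2 h1, h2⟩
      · rintro ⟨h1, h2⟩
        exact ⟨(hag e (Or.inl (mem_sdiff.1 h2).1)).1 h1, h2⟩
  refine incO_eq_of hξX hξY ?_ ?_
  · intro i hi hz
    rw [hX.zz ξ hξX] at hz
    have := visit_agree (k0 := X.k0) hr hrN hL hL' hroot hS hn hag hF hi (by rw [hz]; exact hc)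
    rw [hY.zz ξ hξY, hY.KK' ξ hξY, hX.KK' ξ hξX, hc0, hk0]
    exact ⟨this.1, by rw [this.2.1, hz], this.2.2⟩
  · intro i hi hz
    rw [hY.zz ξ hξY, hc0] at hz
    have hag' : ∀ e, (e ∈ BX p N ∨ ∃ i < n, lab ((nx (ξ ∪ W'))^[i] X.c0) = e) →
        (e ∈ ξ ∪ W' ↔ e ∈ ξ ∪ W) := by
      rintro e (h | ⟨j, hj, h⟩)
      · exact (hag e (Or.inl h)).symm
      · rw [(hpre j hj.le).1] at h
        exact (hag e (Or.inr ⟨j, hj, h⟩)).symm
    have := visit_agree (k0 := X.k0) hr hrN hL' hL hroot (n := n)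
      (fun j hj => by rw [(hpre j hj.le).1]; exact hS j hj) (by rw [(hpre n le_rfl).1]; exact hn)
      hag' hF' hi (by rw [hz]; exact hc)
    rw [hX.zz ξ hξX]
    exact ⟨this.1, by rw [this.2.1, hz]⟩

/-- the recolored environment after the exploration -/
theorem exists_recolored {X : Env} {W : Finset (ℤ × ℤ)} (hX : PlaneEnv X W) {p : ℤ × ℤ} {r N : ℤ}
    (hr : 1 ≤ r) (hrN : r ≤ N) (hE : X.E = BX p N) {ω : Finset (ℤ × ℤ)} (hω : ω ⊆ X.E)
    {P : ℤ × ℤ → Prop} (hP : ∀ z, P z ↔ lab z ∈ BX p r ∨ plab z ∈ BX p r)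
    (hlt : X.tau P ω < X.len ω) :
    ∃ (V : Env) (W' : Finset (ℤ × ℤ)), DEnvX V W' ∧ V.E = X.E \ X.rev P ω ∧ BX p r ⊆ V.E ∧
      ∀ ω1 ⊆ V.E \ BX p r, ¬ F4 p r N ((ω ∩ X.rev P ω) ∪ ω1) →
      ∀ c, (lab c ∈ BX p r ∨ plab c ∈ BX p r) →
        (V.freeze (BX p r) ω1).inc c =
          ((X.freeze (X.E \ X.rev P ω) ω).freeze (BX p r) ω1).inc c := by
  classical
  have hBr : BX p r ⊆ BX p N := BX_mono hrN
  set n := X.tau P ω with hn
  set U := X.rev P ω with hU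
  have hUE : U ⊆ X.E := Env.rev_sub X P ω
  have hUr : Disjoint U (BX p r) := Env.rev_disj fun z hz => (hP z).2 (Or.inl hz)
  have hroot : plab X.c0 ∉ BX p N := by
    rw [← hE]
    intro h
    obtain ⟨z', h1, h2⟩ := pv_empty_nxC X.c0
    exact X.root z' (by rw [h1]; exact h) h2
  have hSr : BX p r ⊆ X.E \ U := by
    intro e he
    exact mem_sdiff.2 ⟨by rw [hE]; exact hBr he, fun h => disjoint_left.1 hUr h he⟩
  -- the path of `ω`
  set σ := ω ∪ W with hσ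
  have hz : ∀ i, X.z ω i = (nx σ)^[i] X.c0 := hX.zz ω hω
  have hS : ∀ i < n, lab ((nx σ)^[i] X.c0) ∉ BX p r := by
    intro i hi h
    rw [← hz] at h
    exact Env.not_of_lt_tau hi ((hP _).2 (Or.inl h))
  have hPn : P (X.z ω n) := Env.of_tau hlt
  have hct : lab ((nx σ)^[n] X.c0) ∈ BX p r := by
    rcases (hP _).1 hPn with h | h
    · rw [hz] at h; exact h
    · exfalso
      rw [hz] at h
      rcases Nat.eq_zero_or_pos n with h0 | h0
      · rw [h0] at h; exact hroot (hBr h)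
      · obtain ⟨k, hk⟩ : ∃ k, n = k + 1 := ⟨n - 1, by omega⟩
        rw [hk, Function.iterate_succ_apply', plab_nx] at h
        exact hS k (by omega) h
  -- visited labels
  set Vis : Finset (ℤ × ℤ) := (range n).image (fun i => lab ((nx σ)^[i] X.c0)) with hVis
  have memVis : ∀ e, e ∈ Vis ↔ ∃ i < n, lab ((nx σ)^[i] X.c0) = e := by
    intro e
    rw [hVis, mem_image]
    exact ⟨fun ⟨i, hi, h⟩ => ⟨i, mem_range.1 hi, h⟩, fun ⟨i, hi, h⟩ => ⟨i, mem_range.2 hi, h⟩⟩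
  set Op := Vis.filter (fun e => e ∈ σ) with hOp
  set Cl := Vis.filter (fun e => e ∉ σ) with hCl
  set R := X.E \ U with hR
  have memU : ∀ e, e ∈ U ↔ e ∈ X.E ∧ e ∈ Vis := by
    intro e
    rw [hU, Env.mem_rev, memVis, ← hn]
    simp only [hz]
  have hRB : R ⊆ BX p N := by rw [← hE]; exact sdiff_subset
  have hcov : BX p N ⊆ R ∪ Op ∪ Cl := by
    intro e he
    rw [← hE] at he
    by_cases h : e ∈ U
    · have h1 := ((memU e).1 h).2
      by_cases h2 : e ∈ σ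
      · exact mem_union_left _ (mem_union_right _ (mem_filter.2 ⟨h1, h2⟩))
      · exact mem_union_right _ (mem_filter.2 ⟨h1, h2⟩)
    · exact mem_union_left _ (mem_union_left _ (mem_sdiff.2 ⟨he, h⟩))
  have hROp : Disjoint R Op := by
    rw [disjoint_left]
    intro e he he'
    exact (mem_sdiff.1 he).2 ((memU e).2 ⟨(mem_sdiff.1 he).1, (mem_filter.1 he').1⟩)
  have oddVis : ∀ e ∈ Vis, (e.1 + e.2) % 2 = 1 := by
    intro e he
    obtain ⟨i, -, h⟩ := (memVis e).1 he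
    rw [← h]; exact odd_lab _
  have hOpσ : Op ⊆ σ := fun e he => (mem_filter.1 he).2
  -- connections along the path
  have hco : ∀ i ≤ n, Co Op (vx X.c0) (vx ((nx σ)^[i] X.c0)) := by
    intro i
    induction i with
    | zero => intro _; exact Co.refl _ _
    | succ i ih =>
      intro hi
      rw [Function.iterate_succ_apply']
      exact (ih (by omega)).trans (co_nx_step fun hl =>
        mem_filter.2 ⟨(memVis _).2 ⟨i, by omega, rfl⟩, hl⟩)
  have hRO : ∀ i < n, lab ((nx σ)^[i] X.c0) ∉ σ → lab ((nx σ)^[i] X.c0) ∉ R ∪ Op := by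
    intro i hi hl h
    rcases mem_union.1 h with h1 | h1
    · exact (mem_sdiff.1 h1).2 ((memU _).2 ⟨(mem_sdiff.1 h1).1, (memVis _).2 ⟨i, hi, rfl⟩⟩)
    · exact hl (hOpσ h1)
  have hdco : ∀ i ≤ n, DCo (R ∪ Op) (fi X.c0) (fi ((nx σ)^[i] X.c0)) := by
    intro i
    induction i with
    | zero => intro _; exact DCo.refl _ _
    | succ i ih =>
      intro hi
      rw [Function.iterate_succ_apply']
      exact (ih (by omega)).trans (dco_nx_step fun hl => hRO i (by omega) hl)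
  have hOpco : ∀ z, lab z ∈ Op → Co Op (vx X.c0) (vx z) := by
    intro z hzl
    obtain ⟨i, hi, h⟩ := (memVis _).1 (mem_filter.1 hzl).1
    have h1 : EndsCo Op (vx X.c0) (lab ((nx σ)^[i] X.c0)) :=
      endsCo_of (by rw [h]; exact hzl) (hco i hi.le)
    exact h1 z h.symm
  have hCldco : ∀ z, lab z ∈ Cl → DCo (R ∪ Op) (fi X.c0) (fi z) := by
    intro z hzl
    obtain ⟨i, hi, h⟩ := (memVis _).1 (mem_filter.1 hzl).1
    have h0 : lab ((nx σ)^[i] X.c0) ∉ σ := by rw [h]; exact (mem_filter.1 hzl).2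
    have h1 : FacesDCo (R ∪ Op) (fi X.c0) (lab ((nx σ)^[i] X.c0)) :=
      facesDCo_of (hRO i hi h0) (hdco i hi.le)
    exact h1 z h.symm
  -- a low face
  obtain ⟨g, hg1, hg2⟩ := hX.out
  have hsubEW : R ∪ Op ⊆ X.E ∪ W := by
    intro e he
    rcases mem_union.1 he with h | h
    · exact mem_union_left _ (mem_sdiff.1 h).1
    · rcases mem_union.1 (hOpσ h) with h1 | h1
      · exact mem_union_left _ (hω h1)
      · exact mem_union_right _ h1
  have hOpEW : Op ⊆ X.E ∪ W := subset_union_right.trans hsubEW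
  obtain ⟨M, hM⟩ : ∃ M : ℤ, R ∪ Op ⊆ Bx (-M) M (-M) M ∧ -M ≤ g.2 := by
    obtain ⟨M, hM⟩ := ((R ∪ Op).image (fun e => |e.1| + |e.2|) ∪ {|g.2|}).exists_le
    refine ⟨M, ?_, ?_⟩
    · intro e he
      have h1 := hM _ (mem_union_left _ (mem_image.2 ⟨e, he, rfl⟩))
      have h2 : (e.1 + e.2) % 2 = 1 := by
        rcases mem_union.1 he with h | h
        · exact X.odd e (mem_sdiff.1 h).1
        · exact oddVis e (mem_filter.1 h).1
      have h3 := abs_nonneg e.1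
      have h4 := abs_nonneg e.2
      have h5 := le_abs_self e.1
      have h6 := neg_abs_le e.1
      have h7 := le_abs_self e.2
      have h8 := neg_abs_le e.2
      rw [mem_Bx]
      omega
    · have h1 := hM _ (mem_union_right _ (mem_singleton_self _))
      have h2 := neg_abs_le g.2
      omega
  have hup : ∀ e ∈ R ∪ Op, 2 * g.2 < e.2 := by
    -- both ends of `e` are above the row of `g`
    have hvtx : ∀ z, lab z ∈ R ∪ Op → Co (X.E ∪ W) (vx X.c0) (vx z) := by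
      intro z hzl
      rcases mem_union.1 hzl with h | h
      · have h1 : Co (X.E ∪ W) (vx X.c0) (vx ((nx σ)^[n] X.c0)) := (hco n le_rfl).mono hOpEW
        have h2 := vx_mem_box (hBr hct)
        have h3 := vx_mem_box (hRB h)
        have h4 := (co_Bx h2 h3).mono (show BX p N ⊆ X.E ∪ W by rw [← hE]; exact subset_union_left)
        exact h1.trans h4
      · exact (hOpco z h).mono hOpEW
    intro e he
    have ho : (e.1 + e.2) % 2 = 1 := by
      rcases mem_union.1 he with h | h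
      · exact X.odd e (mem_sdiff.1 h).1
      · exact oddVis e (mem_filter.1 h).1
    have l1 := lab_in1 e ho
    have h1 := hg2 _ (hvtx (in1 e) (by rw [l1]; exact he))
    have h5 := vx_nxO (in1 e)
    have h2 : Co (X.E ∪ W) (vx X.c0) (vx (nxO (in1 e))) :=
      (hvtx (in1 e) (by rw [l1]; exact he)).trans (Relation.ReflTransGen.single
        ⟨h5.1, by rw [h5.2, l1]; exact hsubEW he⟩)
    have h3 := hg2 _ h2
    have h4 := congrArg Prod.snd h5.2
    rw [l1] at h4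
    simp only [Prod.snd_add] at h4
    omega
  obtain ⟨g', hg', hgo⟩ : ∃ g', DCo (R ∪ Op) (fi X.c0) g' ∧ Outer (-M) M (-M) M g' := by
    refine ⟨(g.1, -M), ?_, ?_⟩
    · have h1 : DCo (R ∪ Op) (fi X.c0) g := hg1.anti hsubEW
      refine h1.trans ?_
      obtain ⟨k, hk⟩ := Int.eq_ofNat_of_zero_le (show 0 ≤ g.2 - (-M) by have := hM.2; omega)
      have h2 : DCo (R ∪ Op) (g.1, -M) (g.1, -M + k) := by
        refine dco_vert k fun j h3 h4 h5 => ?_
        have h6 := hup _ h5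
        simp only at h6
        omega
      have e : (g.1, -M + (k : ℤ)) = g := Prod.ext rfl (by simp only; omega)
      rw [e] at h2
      exact h2.symm
    · unfold Outer
      simp only
      omega
  -- recoloring
  obtain ⟨W', hD, hW'⟩ := recolor (c0 := X.c0) hRB hcov hROp
    (fun e he => oddVis e (mem_filter.1 he).1) (fun h => hroot (hRB h)) hOpco hCldco hM.1 hg' hgo
  refine ⟨hD.env X.k0 X.hk0, W', hD.denv X.hk0, rfl, hSr, ?_⟩
  intro ω1 hω1 hF c hc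
  have hω1' : ω1 ⊆ R := hω1.trans sdiff_subset
  have hXf := hX.rev P ω
  rw [← hU] at hXf
  set Xw := X.freeze (X.E \ U) ω with hXw
  have hXwE : Xw.E = R := by
    rw [hXw, Env.freeze_E]; exact inter_eq_right.2 sdiff_subset
  rw [Env.inc_eq, Env.inc_eq, Env.freeze_E, Env.freeze_E, hXwE]
  show Ec (fun _ => 1 / 2) (R ∩ BX p r) _ = _
  refine Ec_congr fun ξ hξ => ?_
  have hξ2 : ξ ⊆ (hD.env X.k0 X.hk0).E ∩ BX p r := hξ
  have hξ3 : ξ ⊆ Xw.E ∩ BX p r := by rw [hXwE]; exact hξ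
  rw [Env.freeze_incO hξ2, Env.freeze_incO hξ3, hXwE]
  show (hD.env X.k0 X.hk0).incO (ξ ∪ ω1 ∩ (R \ BX p r)) c = _
  have hint : ω1 ∩ (R \ BX p r) = ω1 := inter_eq_left.2 hω1
  rw [hint]
  set η := ξ ∪ ω1 with hη
  have hηR : η ⊆ R := union_subset (hξ.trans inter_subset_left) hω1'
  -- membership in the two configurations
  have hWb : ∀ e ∈ BX p N, e ∉ W := fun e he hw => disjoint_left.1 hX.disj (by rw [hE]; exact he) hw
  have hagree : ∀ e, (e ∈ BX p N ∨ e ∈ Vis) → (e ∈ W ∪ (ω ∩ U) ↔ e ∈ W') := by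
    intro e he
    have h1 : e ∈ W' ↔ e ∈ Op := by
      apply hW'
      rcases he with h | h
      · exact Or.inl h
      · right
        by_cases h2 : e ∈ σ
        · exact Or.inl (mem_filter.2 ⟨h, h2⟩)
        · exact Or.inr (mem_filter.2 ⟨h, h2⟩)
    rw [h1, hOp, mem_filter, hσ, mem_union, mem_union, mem_inter]
    constructor
    · rintro (h2 | ⟨h2, h3⟩)
      · have h4 : e ∈ Vis := by
          rcases he with h | h
          · exact absurd h2 (hWb e h)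
          · exact h
        exact ⟨h4, Or.inr h2⟩
      · exact ⟨((memU e).1 h3).2, Or.inl h2⟩
    · rintro ⟨h2, h3 | h3⟩
      · exact Or.inr ⟨h3, (memU e).2 ⟨hω h3, h2⟩⟩
      · exact Or.inl h3
  -- the path before time `n`
  have hpre := nx_agree (σ := σ) (τ := η ∪ (W ∪ (ω ∩ U))) (c0 := X.c0) (k0 := X.k0) (i := n) (by
    intro j hj
    have hv : lab ((nx σ)^[j] X.c0) ∈ Vis := (memVis _).2 ⟨j, hj, rfl⟩
    set e := lab ((nx σ)^[j] X.c0)
    rw [hσ]
    simp only [mem_union, mem_inter]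
    constructor
    · rintro (h | h)
      · exact Or.inr (Or.inr ⟨h, (memU e).2 ⟨hω h, hv⟩⟩)
      · exact Or.inr (Or.inl h)
    · rintro (h | h | h)
      · exact absurd ((memU e).2 ⟨(mem_sdiff.1 (hηR h)).1, hv⟩) (mem_sdiff.1 (hηR h)).2
      · exact Or.inr h
      · exact Or.inl h.1)
  refine incO_agree (N := N) (r := r) (p := p) hXf (hD.denv X.hk0).toPlaneEnv rfl rfl hr hrN
    (by rw [hXwE]; exact hηR) hηR hroot (n := n) ?_ ?_ ?_ ?_ hc
  · intro i hi
    show lab ((nx (η ∪ (W ∪ (ω ∩ U))))^[i] X.c0) ∉ _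
    rw [(hpre i hi.le).1]; exact hS i hi
  · show lab ((nx (η ∪ (W ∪ (ω ∩ U))))^[n] X.c0) ∈ _
    rw [(hpre n le_rfl).1]; exact hct
  · intro e he
    have he' : e ∈ BX p N ∨ e ∈ Vis := by
      rcases he with h | ⟨i, hi, h⟩
      · exact Or.inl h
      · right
        have h' : lab ((nx (η ∪ (W ∪ (ω ∩ U))))^[i] X.c0) = e := h
        rw [(hpre i hi.le).1] at h'
        exact (memVis e).2 ⟨i, hi, h'⟩
    rw [mem_union (t := W'), mem_union (s := η), hagree e he']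
  · rw [F4_congr (ω' := (ω ∩ U) ∪ ω1)]
    · exact hF
    · ext e
      simp only [mem_inter, mem_union, hη]
      constructor
      · rintro ⟨(h | h) | h | h, h2⟩
        · exact absurd (mem_inter.1 (hξ h)).2 (mem_sdiff.1 h2).2
        · exact ⟨Or.inr h, h2⟩
        · exact absurd h (hWb e (mem_sdiff.1 h2).1)
        · exact ⟨Or.inl h, h2⟩
      · rintro ⟨h | h, h2⟩
        · exact ⟨Or.inr (Or.inr h), h2⟩
        · exact ⟨Or.inl (Or.inr h), h2⟩

lemma BX_free {E : Finset (ℤ × ℤ)} {p : ℤ × ℤ} {N : ℤ} : Free E p N ↔ BX p N ⊆ E := Iff.rfl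

lemma planeK_of {X : Env} {W : Finset (ℤ × ℤ)} (h : PlaneEnv X W) : PlaneK X := ⟨W, h⟩

/-- the corners of the small box -/
lemma inBx_BX {p : ℤ × ℤ} {r : ℤ} {z : ℤ × ℤ}
    (h : Env.InBx (p.1 - r) (p.1 + r) (p.2 - r) (p.2 + r) z) : lab z ∈ BX p r ∨ plab z ∈ BX p r := h.2

/-- **First step**, after freezing the labels outside the box. -/
theorem D1_box {X : Env} {W : Finset (ℤ × ℤ)} (hX : PlaneEnv X W) {p : ℤ × ℤ} {r N : ℕ}
    (hr : 1 ≤ r) (hrN : r ≤ N) (hE : X.E = BX p N) {u v : ℤ × ℤ} (hu : InQ p r u) (hv : InQ p r v)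
    {B : ℝ} (hB0 : 0 ≤ B) (hB : ∀ V W', DEnvX V W' → V.E ⊆ BX p N → Free V.E p r →
      ‖V.D u v‖ ≤ B) :
    ‖X.D u v‖ ≤ B + 2 * mm r * PrP (fun _ => 1 / 2) (BX p N) (F4 p r N) := by
  classical
  have hr' : (1 : ℤ) ≤ (r : ℤ) := by exact_mod_cast hr
  have hrN' : (r : ℤ) ≤ (N : ℤ) := by exact_mod_cast hrN
  have hBr : BX p r ⊆ BX p N := BX_mono hrN'
  set P : ℤ × ℤ → Prop := fun z => lab z ∈ BX p r ∨ plab z ∈ BX p r with hP
  have hu' := inQ_inB hu
  have hv' := inQ_inB hv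
  have hq : Pb (fun _ : ℤ × ℤ => (1 / 2 : ℝ)) := Pb.const (by norm_num) (by norm_num)
  have hmm := mm_nonneg r
  set g : Finset (ℤ × ℤ) → ℝ := fun ω => B + 2 * mm r *
    Ex (fun _ => (1 / 2 : ℝ)) X.E (fun ω' => ind (F4 p r N (mix (X.rev P ω) ω ω'))) with hg
  have hstep : ∀ ω, ω ⊆ X.E → ‖(X.freeze (X.E \ X.rev P ω) ω).D u v‖ ≤ g ω := by
    intro ω hω
    have hpos : 0 ≤ 2 * mm r *
        Ex (fun _ => (1 / 2 : ℝ)) X.E (fun ω' => ind (F4 p r N (mix (X.rev P ω) ω ω'))) :=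
      mul_nonneg (by positivity) (Ex_nonneg hq fun _ _ => ind_nonneg _)
    rcases lt_or_eq_of_le (Env.tau_le X P ω) with hlt | heq
    · obtain ⟨V, W', hV, hVE, hVr, hV3⟩ := exists_recolored hX hr' hrN' hE hω
        (P := P) (fun z => Iff.rfl) hlt
      set U := X.rev P ω with hU
      set Xw := X.freeze (X.E \ U) ω with hXw
      have hXwE : Xw.E = X.E \ U := by
        rw [hXw, Env.freeze_E]; exact inter_eq_right.2 sdiff_subset
      have hXwV : Xw.E = V.E := by rw [hXwE, hVE]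
      have hXwP : PlaneEnv Xw (W ∪ (ω ∩ U)) := hX.rev P ω
      have hVB := hB V W' hV (by rw [hVE, hE]; exact sdiff_subset) hVr
      have e1 := Xw.D_freeze (BX p r) u v
      have e2 := V.D_freeze (BX p r) u v
      rw [hXwV] at e1
      have e3 : ‖Xw.D u v - V.D u v‖ ≤ Ex (fun _ => (1 / 2 : ℝ)) (V.E \ BX p r)
          (fun ω1 => 2 * mm r * ind (F4 p r N ((ω ∩ U) ∪ ω1))) := by
        rw [e1, e2, ← Ec_sub]
        refine Ec_half_norm fun ω1 hω1 => ?_
        by_cases hF : F4 p r N ((ω ∩ U) ∪ ω1)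
        · rw [ind_true hF, mul_one]
          have k1 : ‖(Xw.freeze (BX p r) ω1).D u v‖ ≤ mm r := by
            refine le_mm (p := p) (planeK_freeze (planeK_of hXwP) _ _) ?_ hu hv
            show BX p r ⊆ Xw.E ∩ BX p r
            rw [hXwV]
            exact fun e he => mem_inter.2 ⟨hVr he, he⟩
          have k2 : ‖(V.freeze (BX p r) ω1).D u v‖ ≤ mm r := by
            refine le_mm (p := p) (planeK_freeze (planeK_of hV.toPlaneEnv) _ _) ?_ hu hv
            show BX p r ⊆ V.E ∩ BX p r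
            exact fun e he => mem_inter.2 ⟨hVr he, he⟩
          calc ‖_ - _‖ ≤ ‖_‖ + ‖_‖ := norm_sub_le _ _
            _ ≤ 2 * mm r := by linarith
        · rw [ind_false hF, mul_zero]
          have k1 := Env.D_congr (X := Xw.freeze (BX p r) ω1) (Y := V.freeze (BX p r) ω1) (ζ := 1)
            (fun z hz => by rw [one_mul]; exact hV3 ω1 hω1 hF z (inBx_BX hz)) hu' hv'
          rw [k1, one_mul, sub_self, norm_zero]
      have e4 : Ex (fun _ => (1 / 2 : ℝ)) (V.E \ BX p r)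
          (fun ω1 => 2 * mm r * ind (F4 p r N ((ω ∩ U) ∪ ω1))) =
          2 * mm r * Ex (fun _ => (1 / 2 : ℝ)) X.E (fun ω' => ind (F4 p r N (mix U ω ω'))) := by
        rw [Ex_smul]
        congr 1
        have hsub : V.E \ BX p r ⊆ X.E := by rw [hVE]; exact sdiff_subset.trans sdiff_subset
        rw [← Ex_restrict _ hsub]
        refine Ex_congr fun ω' hω' => ?_
        have hcong : F4 p r N ((ω ∩ U) ∪ (ω' ∩ (V.E \ BX p r))) ↔ F4 p r N (mix U ω ω') := by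
          apply F4_congr
          ext e
          simp only [mem_inter, mem_union, mem_mix, mem_sdiff, hVE, hE]
          constructor
          · rintro ⟨⟨h1, h2⟩ | ⟨h1, ⟨h2, h3⟩, h4⟩, h5⟩
            · exact ⟨Or.inl ⟨h1, h2⟩, h5⟩
            · exact ⟨Or.inr ⟨h1, h3⟩, h5⟩
          · rintro ⟨⟨h1, h2⟩ | ⟨h1, h2⟩, h5⟩
            · exact ⟨Or.inl ⟨h1, h2⟩, h5⟩
            · exact ⟨Or.inr ⟨h1, ⟨h5.1, h2⟩, h5.2⟩, h5⟩
        by_cases h : F4 p r N (mix U ω ω')
        · rw [ind_true h, ind_true (hcong.2 h)]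
        · rw [ind_false h, ind_false (fun h' => h (hcong.1 h'))]
      rw [e4] at e3
      have e5 : ‖Xw.D u v‖ ≤ ‖Xw.D u v - V.D u v‖ + ‖V.D u v‖ := by
        have := norm_add_le (Xw.D u v - V.D u v) (V.D u v)
        rwa [sub_add_cancel] at this
      rw [hg]
      simp only
      linarith
    · rw [Env.D_zero (a := p.1 - r) (b := p.1 + r) (c := p.2 - r) (d := p.2 + r)
        (fun z hz => Env.rev_complete hω heq (inBx_BX hz)) hu' hv', norm_zero]
      rw [hg]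
      simp only
      linarith
  rw [X.D_rev P u v]
  refine (Ec_half_norm hstep).trans ?_
  have e6 : Ex (fun _ => (1 / 2 : ℝ)) X.E g = B + 2 * mm r *
      PrP (fun _ => 1 / 2) (BX p N) (F4 p r N) := by
    rw [hg, Ex_add, Ex_const, Ex_smul,
      Ex_resample1 _ X.E (X.rev P) (Env.rev_mix X P) (fun ω => ind (F4 p r N ω)), hE]
    rfl
  exact e6.le

/-- **First step.** -/
theorem D1_core {X : Env} (hX : PlaneK X) {p : ℤ × ℤ} {r N : ℕ} (hr : 1 ≤ r) (hrN : r ≤ N)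
    (hF : Free X.E p N) {u v : ℤ × ℤ} (hu : InQ p r u) (hv : InQ p r v)
    {B : ℝ} (hB0 : 0 ≤ B) (hB : ∀ V W', DEnvX V W' → V.E ⊆ BX p N → Free V.E p r →
      ‖V.D u v‖ ≤ B) :
    ‖X.D u v‖ ≤ B + 2 * mm r * PrP (fun _ => 1 / 2) (BX p N) (F4 p r N) := by
  rw [X.D_freeze (BX p N) u v]
  have hb : ∀ ω, ω ⊆ X.E \ BX p N → ‖(X.freeze (BX p N) ω).D u v‖ ≤
      B + 2 * mm r * PrP (fun _ => 1 / 2) (BX p N) (F4 p r N) := by
    intro ω _
    obtain ⟨W, hW⟩ := planeK_freeze hX (BX p N) ω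
    refine D1_box hW hr hrN ?_ hu hv hB0 hB
    rw [Env.freeze_E]
    exact inter_eq_right.2 hF
  have := Ec_half_norm hb
  rw [Ex_const] at this
  exact this

end Pool.Agent.Q1.M6c
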