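import Mathlib
import Pool.Agent.Q1.M6c.D1
import Pool.Agent.H65.Four2.Pub

set_option autoImplicit false
open Finset

/-! # First step with the four arm exponent `5/4` -/

namespace Pool.Agent.Q1.M6c

open Pool.Agent.H75.Perc Pool.Agent.H75.TwoArm Pool.Agent.H69.Q1 Pool.Agent.H99.NC
open Pool.Agent.H75.TwoArm.StrandAux hiding vx_nxC

/-- a rough Dobrushin environment with a given box of random labels -/
theorem exists_denv (p : ℤ × ℤ) (r : ℤ) : ∃ (V : Env) (W : Finset (ℤ × ℤ)), DEnvX V W ∧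
    V.E = BX p r := by
  set e : ℤ × ℤ := (2 * (p.1 + r) + 1, 0) with he
  have ho : (e.1 + e.2) % 2 = 1 := by rw [he]; simp only; omega
  have hl := lab_in1 e ho
  have heB : e ∉ BX p r := by rw [mem_BX, he]; simp only; omega
  set c0 := nx ∅ (in1 e) with hc0
  have hroot : plab c0 ∉ BX p r := by rw [hc0, plab_nx, hl]; exact heB
  have hD : Dobr (BX p r) ∅ c0 := by
    refine ⟨fun x hx => (mem_BX.1 hx).2.2, fun x hx => absurd hx (notMem_empty _),
      disjoint_empty_right _, hroot, fun z hz => absurd hz (notMem_empty _), ?_⟩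
    intro z hz _
    rw [union_empty]
    exact dco_outer (outer_of_plab hroot) (outer_of_lab hz)
  exact ⟨hD.env (ty c0) (ty_mod c0), ∅, hD.denv _, rfl⟩

/-- **First step.** -/
theorem D1 : ∃ C : ℝ, 0 < C ∧ ∀ N r : ℕ, 1 ≤ r → r ≤ N → ∀ (X : Env) (p u v : ℤ × ℤ),
    PlaneK X → Free X.E p N → InQ p r u → InQ p r v → ∀ B : ℝ,
    (∀ (V : Env) (W : Finset (ℤ × ℤ)), DEnvX V W →
      V.E ⊆ Bx (p.1 - N) (p.1 + N) (p.2 - N) (p.2 + N) → Free V.E p r → ‖V.D u v‖ ≤ B) →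
    ‖X.D u v‖ ≤ B + C * ((r : ℝ) / N) ^ (5 / 4 : ℝ) * mm r := by
  obtain ⟨C, hC, h⟩ := Pool.Agent.H65.Four2.four_annulus
  refine ⟨2 * C, by positivity, ?_⟩
  intro N r hr hrN X p u v hX hF hu hv B hB
  have hrN' : (r : ℤ) ≤ (N : ℤ) := by exact_mod_cast hrN
  have hB0 : 0 ≤ B := by
    obtain ⟨V, W, hV, hVE⟩ := exists_denv p r
    refine (norm_nonneg _).trans (hB V W hV ?_ ?_)
    · rw [hVE]; exact BX_mono hrN'
    · show BX p r ⊆ V.E
      rw [hVE]
  have h1 := D1_core hX hr hrN hF hu hv hB0 hB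
  have h2 := h p r N (BX p N) (by exact_mod_cast hr) hrN' subset_rfl
  rw [← PrP_half] at h2
  have h3 : PrP (fun _ => 1 / 2) (BX p N) (F4 p r N) ≤ C * (((r : ℤ) : ℝ) / ((N : ℤ) : ℝ)) ^
      (5 / 4 : ℝ) := h2
  push_cast at h3
  have h4 := mm_nonneg r
  calc ‖X.D u v‖ ≤ B + 2 * mm r * PrP (fun _ => 1 / 2) (BX p N) (F4 p r N) := h1
    _ ≤ B + 2 * mm r * (C * ((r : ℝ) / N) ^ (5 / 4 : ℝ)) := by
        gcongr
    _ = _ := by ring

end Pool.Agent.Q1.M6c
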