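import Mathlib
import Pool.Agent.Q1.M6c.D1Pub
import Pool.Agent.H77.Q1.APFin
import Pool.Agent.H23.Q1.CompChain

set_option autoImplicit false

/-! # The a priori bound for plane environments (chapter D) -/

namespace Pool.Agent.Q1.M6c

open Pool.Agent.H77.Q1

theorem d1p : D1P := by
  obtain ⟨C, hC, h⟩ := D1
  exact ⟨C, hC, fun N r h1 h2 X p u v hX hF hu hv B hB =>
    h N r h1 (by omega) X p u v hX hF hu hv B hB⟩

/-- **The a priori bound**: in every plane environment the primitive of the parafermion oscillates by at
most `C N ^ (2/3)` on the quarter of a free box of half-size `N`. -/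
theorem ap_planeK : AP PlaneK := ap_plane d1p Pool.Agent.H23.Q1.comp_ok

end Pool.Agent.Q1.M6c
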