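import Mathlib
import Pool.Agent.Q1.M6c.Dob
import Pool.Agent.Q1.M4.Main

set_option autoImplicit false
open Finset

/-! # The lattice domains of a type are plane environments -/

namespace Pool.Agent.Q1.M6c

open Pool.Agent.H75.Perc hiding WL CT hh
open Pool.Agent.H75.TwoArm Pool.Agent.H99.NC Pool.Agent.Q1.Dob Pool.Agent.Q1.M4
open Pool.Agent.Q1.M5 (StA App EL)

theorem planeEnv_dob (P : PType) {X Y : ℤ → ℤ} (hX : StrictMono X) (hY : StrictMono Y) :
    PlaneEnv (dob P hX hY) (Pool.Agent.Q1.M5.WL P X Y) := by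
  refine planeEnv_plane fun e he => ?_
  have h1 : e ∈ EL P X Y ∪ Pool.Agent.Q1.M5.WL P X Y := mem_union_right _ he
  rw [EL_union hX hY] at h1
  exact odd_D e h1

theorem planeK_dob (P : PType) (X Y : ℤ → ℤ) (hX : StrictMono X) (hY : StrictMono Y) :
    PlaneK (dob P hX hY) := ⟨_, planeEnv_dob P hX hY⟩

/-- `StA` from the a priori bound for the plane environments and the holomorphy of the limits. -/
theorem stA_of (hAP : AP PlaneK) (hH : HolDob) : StA :=
  StA_of_HolDob hAP (fun _ hZ _ _ _ _ _ _ => planeK_freeze hZ _ _) planeK_dob hH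

/-- `HolDob` from the a priori bound and `N1` for the plane environments. -/
theorem holDob_of (hAP : AP PlaneK) (hN : N1 PlaneK) : HolDob :=
  HolDob_of_N1 hAP (fun _ hZ _ _ _ _ _ _ => planeK_freeze hZ _ _) planeK_dob hN

end Pool.Agent.Q1.M6c
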