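import Mathlib
import Pool.Agent.Q1.M6c.PlaneKDob
import Pool.Agent.Q1.M6c.APMain

set_option autoImplicit false

/-! # `StA` from the holomorphy of the limits -/

namespace Pool.Agent.Q1.M6c

open Pool.Agent.Q1.M4

/-- the a priori bound is proved (`ap_planeK`): `StA` hangs only on `HolDob` -/
theorem stA_of_holDob (hH : HolDob) : Pool.Agent.Q1.M5.StA := stA_of ap_planeK hH

theorem holDob_of_N1 (hN : N1 PlaneK) : HolDob := holDob_of ap_planeK hN

end Pool.Agent.Q1.M6c
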